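import Pool.Agent.Lib.MP_155f9b_an.Imp

/-! Circles around the axis, admissible solutions, linear growth away from the axis. -/

namespace Pool.Agent.Lib.MP_155f9b_an

open Filter Topology Metric
open scoped RealInnerProductSpace

/-- the circle of radius `s` around the axis at height `t` -/
def circ (e : E) (t s : ℝ) : Set E := {x | ⟪x, e⟫ = t ∧ dd e x = s}

/-- solutions in the unit ball minus a cylinder such that both phases meet all circles -/
structure Adm (e : E) (u : E → ℝ) (P : Set E) (κ : ℝ) : Prop where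
  pos : 0 < κ
  visc : Visc u P {x | ‖x‖ < 1 ∧ κ < dd e x}
  hitP : ∀ t s, κ < s → |t| + s < 1 → ∃ x ∈ circ e t s, x ∈ P
  hitZ : ∀ t s, κ < s → |t| + s < 1 → ∃ x ∈ circ e t s, u x ≤ 0

variable {e : E} {u : E → ℝ} {P : Set E} {κ t s : ℝ}

theorem circ_dist {x : E} (hx : x ∈ circ e t s) : ‖x - t • e‖ = s := by
  rw [← hx.1]; exact hx.2

theorem circ_norm (he : ‖e‖ = 1) {x : E} (hx : x ∈ circ e t s) : ‖x‖ ≤ |t| + s := by
  have := norm_le_norm_sub_add x (t • e)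
  rw [circ_dist hx, norm_smul, he, Real.norm_eq_abs] at this
  linarith

theorem exists_plane (he : ‖e‖ = 1) : ∃ (J : ℂ → E) (F : E → ℂ), Continuous J ∧ Continuous F ∧
    (∀ z w, ‖J z - J w‖ = ‖z - w‖) ∧ (∀ t z, ⟪t • e + J z, e⟫ = t ∧ F (t • e + J z) = z) ∧
    ∀ x, x = ⟪x, e⟫ • e + J (F x) ∧ dd e x = ‖F x‖ := by
  obtain ⟨β, rfl⟩ := exists_frame he
  have o := orthonormal_iff_ite.1 β.orthonormal
  have n : ∀ a b : ℝ, ‖a • β 1 + b • β 2‖ = ‖(⟨a, b⟩ : ℂ)‖ := fun a b => by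
    rw [← sq_eq_sq₀ (norm_nonneg _) (norm_nonneg _), norm_add_sq_real, Complex.sq_norm,
      Complex.normSq_mk]
    simp [norm_smul, real_inner_smul_left, real_inner_smul_right, o, sq]
  have d : ∀ x : E, x = ⟪x, β 0⟫ • β 0 + (⟪x, β 1⟫ • β 1 + ⟪x, β 2⟫ • β 2) := fun x => by
    nth_rw 1 [← β.sum_repr' x]
    simp only [Fin.sum_univ_three, real_inner_comm, add_assoc]
  refine ⟨fun z => z.re • β 1 + z.im • β 2, fun x => ⟪x, β 1⟫ + ⟪x, β 2⟫ * Complex.I,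
    by fun_prop, by fun_prop, fun z w => ?_, fun t z => ⟨?_, ?_⟩, fun x => ⟨by simpa using d x, ?_⟩⟩
  · rw [show z.re • β 1 + z.im • β 2 - (w.re • β 1 + w.im • β 2) =
      (z - w).re • β 1 + (z - w).im • β 2 by simp only [Complex.sub_re, Complex.sub_im]; module, n]
  · simp [inner_add_left, real_inner_smul_left, o]
  · simp [inner_add_left, real_inner_smul_left, o]
  · rw [dd, sub_eq_iff_eq_add'.2 (d x), n, Complex.mk_eq_add_mul_I]

theorem exists_chain (he : ‖e‖ = 1) {x y : E} (hx : x ∈ circ e t s) (hy : y ∈ circ e t s) :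
    ∃ c : ℕ → E, c 0 = x ∧ c 100 = y ∧ ∀ k, c k ∈ circ e t s ∧ ‖c k - c (k + 1)‖ ≤ s / 14 := by
  obtain ⟨J, F, -, -, h1, h2, h3⟩ := exists_plane he
  have s0 : 0 ≤ s := hx.2 ▸ dd_nonneg e x
  have k : ∀ x ∈ circ e t s, ∃ θ ∈ Set.Ioc 0 (2 * Real.pi), t • e + J (circleMap 0 s θ) = x := by
    intro x hx
    have : F x ∈ circleMap 0 s '' Set.Ioc 0 (2 * Real.pi) := by
      rw [image_circleMap_Ioc, mem_sphere_zero_iff_norm, ← (h3 x).2, hx.2, abs_of_nonneg s0]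
    obtain ⟨θ, a1, a2⟩ := this
    exact ⟨θ, a1, by rw [a2, ← hx.1, ← (h3 x).1]⟩
  obtain ⟨a, ha, rfl⟩ := k x hx
  obtain ⟨b, hb, rfl⟩ := k y hy
  refine ⟨fun k => t • e + J (circleMap 0 s (a + k * ((b - a) / 100))), by simp, by
    simp only [Nat.cast_ofNat]; rw [mul_div_cancel₀ _ (by norm_num), add_sub_cancel],
    fun k => ⟨⟨(h2 _ _).1, by rw [(h3 _).2, (h2 _ _).2, norm_circleMap_zero, abs_of_nonneg s0]⟩, ?_⟩⟩
  rw [add_sub_add_left_eq_sub, h1, ← dist_eq_norm]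
  refine ((lipschitzWith_circleMap 0 s).dist_le_mul _ _).trans ?_
  rw [Real.coe_nnabs, abs_of_nonneg s0, Real.dist_eq, div_eq_mul_one_div s]
  refine mul_le_mul_of_nonneg_left (abs_le.2 ⟨?_, ?_⟩) s0 <;> push_cast <;>
    linarith [ha.1, ha.2, hb.1, hb.2, Real.pi_lt_d2]

theorem not_circ_subset (he : ‖e‖ = 1) {S : Set E} [ContractibleSpace S]
    (hS : ∀ x ∈ S, 0 < dd e x) (hs : 0 < s) : ¬circ e t s ⊆ S := by
  intro h
  obtain ⟨J, F, cJ, cF, -, h2, h3⟩ := exists_plane he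
  have cov := Complex.isCoveringMap_exp
  let G : C(S, {z : ℂ // z ≠ 0}) := ⟨fun x => ⟨F x, norm_pos_iff.1 ((h3 _).2 ▸ hS x x.2)⟩,
    by fun_prop⟩
  obtain ⟨y, ⟨H⟩⟩ := (id_nullhomotopic S).comp_right G
  have H0 : ∀ a, H.symm.toContinuousMap (0, a) = (fun z : ℂ => (⟨_, z.exp_ne_zero⟩ : {z : ℂ // z ≠ 0}))
      (ContinuousMap.const S (Complex.log y) a) := fun a =>
    Subtype.ext (by simp [Complex.exp_log y.2])
  have hL := fun a => congrArg Subtype.val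
    (congrFun (cov.liftHomotopy_lifts H.symm.toContinuousMap _ H0) (1, a))
  set L := cov.liftHomotopy H.symm.toContinuousMap _ H0
  let γ : ℝ → S := fun θ => ⟨t • e + J (circleMap 0 s θ), h ⟨(h2 _ _).1, by
    rw [(h3 _).2, (h2 _ _).2, norm_circleMap_zero, abs_of_pos hs]⟩⟩
  have cγ : Continuous γ := by fun_prop
  have e1 : ∀ θ : ℝ, Complex.exp (L (1, γ θ) - θ * Complex.I) = s := fun θ => by
    have := hL (γ θ)
    simp only [Function.comp] at this
    rw [Complex.exp_sub, this]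
    simp [G, γ, (h2 _ _).2, circleMap]
  have := cov.const_of_comp (g := fun θ : ℝ => L (1, γ θ) - θ * Complex.I) (by fun_prop)
    (fun a b => Subtype.ext ((e1 a).trans (e1 b).symm)) 0 (2 * Real.pi)
  have e2 : γ (2 * Real.pi) = γ 0 := Subtype.ext (by simp [γ, circleMap])
  simp [e2, eq_sub_iff_add_eq] at this

theorem circ_unscale (he : ‖e‖ = 1) {r t' : ℝ} (hr : 0 < r) {x : E}
    (hx : x ∈ circ e (t + r * t') (r * s)) : r⁻¹ • (x - t • e) ∈ circ e t' s := by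
  refine ⟨?_, ?_⟩
  · rw [real_inner_smul_left, inner_sub_left, hx.1, real_inner_smul_left, inner_unit he]
    field_simp
    ring
  · rw [dd_smul _ _ (inv_pos.2 hr).le, sub_eq_neg_add, ← neg_smul, dd_add he, hx.2]
    field_simp

theorem circ_lt {r t' : ℝ} (hr : 0 < r) (ht : |t| + r ≤ 1) (g : |t'| + s < 1) :
    |t + r * t'| + r * s < 1 := by
  have := abs_add_le t (r * t')
  rw [abs_mul, abs_of_pos hr] at this
  nlinarith

theorem norm_axis (he : ‖e‖ = 1) {r : ℝ} (hr : 0 < r) (t : ℝ) (y : E) :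
    ‖t • e + r • y‖ ≤ |t| + r * ‖y‖ := by
  refine (norm_add_le _ _).trans_eq ?_
  rw [norm_smul, norm_smul, he, Real.norm_eq_abs, Real.norm_of_nonneg hr.le, mul_one]

theorem dd_axis (he : ‖e‖ = 1) {r : ℝ} (hr : 0 < r) (t : ℝ) (y : E) :
    dd e (t • e + r • y) = r * dd e y := by
  rw [dd_add he, dd_smul _ _ hr.le]

theorem isOpen_dom (e : E) (R κ : ℝ) : IsOpen {x : E | ‖x‖ < R ∧ κ < dd e x} :=
  (isOpen_lt continuous_norm continuous_const).inter (isOpen_lt continuous_const (continuous_dd e))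

theorem Visc.axis (he : ‖e‖ = 1) (h : Visc u P {x | ‖x‖ < 1 ∧ κ < dd e x}) {r : ℝ} (hr : 0 < r)
    (ht : |t| + r ≤ 1) : Visc (fun y => r⁻¹ * u (t • e + r • y))
      ((fun y => t • e + r • y) ⁻¹' P) {x | ‖x‖ < 1 ∧ κ / r < dd e x} :=
  (h.scale _ hr).mono (isOpen_dom _ _ _) fun y hy => ⟨(norm_axis he hr t y).trans_lt (by
    nlinarith [hy.1]), by rw [dd_axis he hr]; exact (div_lt_iff₀' hr).1 hy.2⟩

theorem Adm.scale (he : ‖e‖ = 1) (h : Adm e u P κ) {r : ℝ} (hr : 0 < r) (ht : |t| + r ≤ 1) :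
    Adm e (fun y => r⁻¹ * u (t • e + r • y)) ((fun y => t • e + r • y) ⁻¹' P) (κ / r) := by
  refine ⟨div_pos h.pos hr, h.visc.axis he hr ht, fun t' s h1 h2 => ?_, fun t' s h1 h2 => ?_⟩
  · obtain ⟨x, a1, a2⟩ := h.hitP _ _ ((div_lt_iff₀' hr).1 h1) (circ_lt hr ht h2)
    exact ⟨_, circ_unscale he hr a1, by rwa [Set.mem_preimage, sim_inv' _ hr.ne']⟩
  · obtain ⟨x, a1, a2⟩ := h.hitZ _ _ ((div_lt_iff₀' hr).1 h1) (circ_lt hr ht h2)
    exact ⟨_, circ_unscale he hr a1, by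
      rw [sim_inv' _ hr.ne']; exact mul_nonpos_of_nonneg_of_nonpos (inv_pos.2 hr).le a2⟩

theorem exists_growth : ∃ C : ℝ, 0 < C ∧ ∀ (e : E) (u : E → ℝ) (P : Set E) (κ : ℝ), ‖e‖ = 1 →
    Adm e u P κ → ∀ x, ‖x‖ ≤ 1 / 4 → 2 * κ ≤ dd e x → u x ≤ C * dd e x := by
  obtain ⟨c, c0, c1, hc⟩ : ∃ c : ℝ, 0 < c ∧ c ≤ 1 ∧ ∀ a : ℝ, a / 2 ^ 18 = c * a :=
    ⟨1 / 2 ^ 18, by norm_num, by norm_num, fun a => by ring⟩
  obtain ⟨n, hn⟩ : ∃ n : ℕ, n = 100 := ⟨_, rfl⟩
  refine ⟨2 ^ 21 / c ^ n, by positivity, fun e u P κ he h x hx hd => ?_⟩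
  have κ0 := h.pos
  have d1 := (dd_le he x).trans hx
  have t1 : |⟪x, e⟫| ≤ 1 / 4 := (abs_inner_le he x).trans hx
  obtain ⟨z, hz, hz0⟩ := h.hitZ ⟪x, e⟫ (dd e x) (by linarith) (by linarith)
  obtain ⟨γ, g0, g1, hγ⟩ := exists_chain he (show x ∈ circ e _ _ from ⟨rfl, rfl⟩) hz
  by_contra! g
  rw [div_mul_eq_mul_div, div_lt_iff₀' (by positivity)] at g
  have x0 : 0 < u x := pos_of_mul_pos_left (mul_comm (c ^ n) _ ▸ g.trans' (by nlinarith))
    (by positivity)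
  have key : ∀ k, k ≤ n → c ^ k * u x ≤ u (γ k) := by
    intro k
    induction k with
    | zero => simp [g0]
    | succ k ih =>
      intro hk
      have a1 := ih (by omega)
      have a2 := mul_le_mul_of_nonneg_right (pow_le_pow_of_le_one c0.le c1 (show k ≤ n by omega))
        x0.le
      have := h.visc.grow (x := γ k) (y := γ (k + 1)) (ρ := dd e x / 14) (by linarith)
        (fun y hy => ?_) (hγ k).2 (by linarith)
      · rw [hc] at this
        rw [pow_succ', mul_assoc]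
        exact (mul_le_mul_of_nonneg_left a1 c0.le).trans this
      · have b1 := mem_closedBall_iff_norm.1 hy
        have b2 := dd_le_add he (γ (k + 1)) y
        rw [(hγ _).1.2, norm_sub_rev] at b2
        exact ⟨by linarith [norm_le_norm_sub_add y (γ (k + 1)), circ_norm he (hγ (k + 1)).1],
          by linarith⟩
  have := key n le_rfl
  rw [← hn] at g1
  rw [g1] at this
  nlinarith

end Pool.Agent.Lib.MP_155f9b_an
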