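import Pool.Agent.Lib.MP_155f9b_an.Dir

/-! Radial barriers: growth away from the zero set, propagation of the zero phase. -/

namespace Pool.Agent.Lib.MP_155f9b_an

open Filter Topology Metric
open scoped RealInnerProductSpace

variable {u : E → ℝ} {P D : Set E}

theorem jet_inv {p x : E} (h : x ≠ p) : Jet (fun y => (‖y - p‖ ^ 2)⁻¹) x
    (-(2 / ‖x - p‖ ^ 4) • (x - p)) (2 / ‖x - p‖ ^ 4) := by
  have n0 : ‖x - p‖ ≠ 0 := norm_ne_zero_iff.2 (sub_ne_zero.2 h)
  refine ((Jet.nsq p x).inv (pow_ne_zero 2 n0)).congr ?_ ?_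
  · rw [smul_smul]
    congr 1
    field_simp
  · rw [norm_smul, Real.norm_ofNat]
    field_simp
    ring

theorem norm_grad_inv (a : ℝ) (ha : 0 ≤ a) {v : E} (h : 0 < ‖v‖) :
    ‖a • -(2 / ‖v‖ ^ 4) • v‖ = 2 * a / ‖v‖ ^ 3 := by
  rw [norm_smul, norm_smul, norm_neg, Real.norm_of_nonneg ha, Real.norm_of_nonneg (by positivity)]
  field_simp

theorem shell_compact (x : E) (s R : ℝ) : IsCompact (closedBall x R ∩ {y | s ≤ ‖y - x‖}) :=
  (isCompact_closedBall x R).inter_right (isClosed_le continuous_const (by fun_prop))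

theorem shell_cont (x : E) {s : ℝ} (hs : 0 < s) {K : Set E} (hK : ∀ y ∈ K, s ≤ ‖y - x‖) :
    ContinuousOn (fun y : E => (‖y - x‖ ^ 2)⁻¹) K :=
  ContinuousOn.inv₀ (by fun_prop) fun y hy => (pow_pos (hs.trans_le (hK y hy)) 2).ne'

theorem Visc.radial (h : Visc u P D) {x : E} {s R a : ℝ} (hs : 0 < s) (hD : closedBall x R ⊆ D)
    (ha : ∀ y, ‖y - x‖ = s → a ≤ u y) (hR : R ^ 3 < 2 * (a * s ^ 2)) {y : E} (h1 : s ≤ ‖y - x‖)
    (h2 : ‖y - x‖ ≤ R) : a * s ^ 2 * ((‖y - x‖ ^ 2)⁻¹ - (R ^ 2)⁻¹) ≤ u y := by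
  have R0 : 0 < R := by linarith
  have a0 : 0 < a * s ^ 2 := by linarith [pow_pos R0 3]
  refine h.vp.cmp (shell_compact x s R) (h.cont.mono fun z hz => hD hz.1)
    (φ := fun y => a * s ^ 2 * ((‖y - x‖ ^ 2)⁻¹ - (R ^ 2)⁻¹))
    (continuousOn_const.mul ((shell_cont x hs fun _ h => h.2).sub continuousOn_const))
    (fun z hz g => ?_) y ⟨mem_closedBall_iff_norm.2 h2, h1⟩
  have b1 : ‖z - x‖ ≤ R := mem_closedBall_iff_norm.1 hz.1
  have b2 : s ≤ ‖z - x‖ := hz.2
  have b3 : 0 < ‖z - x‖ := by linarith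
  refine ⟨inter_mem (closedBall_mem_nhds_of_mem (mem_ball_iff_norm.2 (b1.lt_of_ne fun c => ?_)))
    (ge_nhds (f := fun y => ‖y - x‖) (by fun_prop) (b2.lt_of_ne fun c => ?_)), hD hz.1, _, _,
    ((jet_inv (sub_ne_zero.1 (norm_pos_iff.1 b3))).sub_const _).const_mul _, by positivity,
    fun _ => ?_⟩
  · simp only [c, sub_self, mul_zero] at g
    exact g.not_ge (h.nonneg z (hD hz.1))
  · simp only [← c, mul_sub, mul_assoc, mul_inv_cancel₀ (pow_pos hs 2).ne'] at g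
    linarith [ha z c.symm, mul_pos a0 (inv_pos.2 (pow_pos R0 2))]
  · rw [norm_grad_inv _ a0.le b3, one_lt_div (by positivity)]
    exact (pow_le_pow_left₀ b3.le b1 3).trans_lt hR

theorem Visc.grow_unit (h : Visc u P D) (hD : closedBall 0 3 ⊆ D) {x : E} (hx : ‖x‖ ≤ 1 / 2)
    (hM : 2 ^ 20 ≤ u x) : u x / 2 ^ 18 ≤ u 0 := by
  have s1 : closedBall (0 : E) 1 ⊆ D := (closedBall_subset_closedBall (by norm_num)).trans hD
  obtain ⟨z, hz, hm⟩ := (isCompact_closedBall (0 : E) 1).exists_isMaxOn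
    (nonempty_closedBall.2 zero_le_one) (f := fun y => u y * (1 - ‖y‖) ^ 2)
    ((h.cont.mono s1).mul (by fun_prop))
  have z1 : ‖z‖ ≤ 1 := mem_closedBall_zero_iff.1 hz
  have m1 : u x / 4 ≤ u z * (1 - ‖z‖) ^ 2 := by
    refine le_trans ?_ (hm (show x ∈ closedBall 0 1 from mem_closedBall_zero_iff.2 (by linarith)))
    have : 1 / 4 ≤ (1 - ‖x‖) ^ 2 := by nlinarith
    simp only
    nlinarith
  set t := 1 - ‖z‖ with ht
  have t1 : t ≤ 1 := by linarith [norm_nonneg z]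
  have t0 : 0 < t := by
    refine lt_of_le_of_ne (by linarith) fun c => ?_
    rw [← c] at m1
    linarith
  have z0 := h.nonneg z (s1 hz)
  have m2 : u z * t ^ 2 ≤ u z := mul_le_of_le_one_right z0 (pow_le_one₀ t0.le t1)
  have sub : ∀ R, R ≤ 2 → closedBall z R ⊆ D := fun R hR =>
    (closedBall_subset_closedBall' (by rw [dist_zero_right]; linarith)).trans hD
  have step : ∀ ρ, 0 < ρ → ρ ≤ t / 2 → (∀ y ∈ ball z ρ, 0 < u y) →
      ∀ y, ‖y - z‖ ≤ ρ / 64 → u z / 2 ≤ u y := by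
    intro ρ ρ0 ρ1 hp y hy
    have s2 := sub ρ (by linarith)
    have := vh_lip ρ0 (h.super.mono fun y hy => ⟨s2 (ball_subset_closedBall hy), hp y hy⟩)
      (h.sub.mono (ball_subset_closedBall.trans s2)) (h.cont.mono s2) (M := 4 * u z)
      (fun w hw => ?_) (x := y) (by linarith)
    · have a1 : 8 * (4 * u z) / ρ * ‖y - z‖ ≤ 8 * (4 * u z) / ρ * (ρ / 64) :=
        mul_le_mul_of_nonneg_left hy (by positivity)
      rw [show 8 * (4 * u z) / ρ * (ρ / 64) = u z / 2 by field_simp; ring] at a1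
      linarith [(abs_le.1 this).1]
    · have a1 : ‖w‖ ≤ 1 - t / 2 := by
        linarith [norm_le_norm_sub_add w z, mem_closedBall_iff_norm.1 hw]
      have a2 : u w * (1 - ‖w‖) ^ 2 ≤ u z * t ^ 2 :=
        hm (show w ∈ closedBall 0 1 from mem_closedBall_zero_iff.2 (by linarith))
      have a3 := h.nonneg w (s2 hw)
      rw [abs_of_nonneg a3]
      refine le_of_mul_le_mul_right ?_ (pow_pos t0 2)
      have a4 : t ^ 2 ≤ 4 * (1 - ‖w‖) ^ 2 := by nlinarith
      nlinarith [mul_le_mul_of_nonneg_left a4 a3]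
  have hp : ∀ y ∈ ball z (t / 2), 0 < u y := by
    by_contra! c
    obtain ⟨y, hy, hy0⟩ := c
    have s2 := sub (t / 2) (by linarith)
    obtain ⟨w, ⟨hw, hw0⟩, hmin⟩ := IsCompact.exists_isMinOn
      (s := closedBall z (t / 2) ∩ u ⁻¹' Set.Iic 0) ((isCompact_closedBall z _).of_isClosed_subset
        ((h.cont.mono s2).preimage_isClosed_of_isClosed isClosed_closedBall isClosed_Iic)
        Set.inter_subset_left) ⟨y, ball_subset_closedBall hy, hy0⟩ (f := fun y => ‖y - z‖)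
      (by fun_prop)
    have w1 : ‖w - z‖ ≤ t / 2 := mem_closedBall_iff_norm.1 hw
    have w2 : u w ≤ 0 := hw0
    have w0 : 0 < ‖w - z‖ := norm_pos_iff.2 (sub_ne_zero.2 fun c => by rw [c] at w2; linarith)
    have := h.radial (x := z) (s := ‖w - z‖ / 64) (R := 2 * ‖w - z‖) (a := u z / 2) (by positivity)
      (sub _ (by linarith)) (fun y hy => step _ w0 w1 (fun v hv => not_le.1 fun c => ?_) y hy.le)
      (by nlinarith [pow_pos w0 2]) (y := w) (by linarith) (by linarith)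
    · refine (w2.trans' this).not_gt (mul_pos (mul_pos (by linarith) (by positivity)) ?_)
      exact sub_pos.2 (inv_strictAnti₀ (by positivity) (by nlinarith))
    · have a1 := mem_ball_iff_norm.1 hv
      exact a1.not_ge (hmin ⟨mem_closedBall_iff_norm.2 (by linarith), c⟩)
  have a1 := step _ (half_pos t0) le_rfl hp
  rcases le_total ‖0 - z‖ (t / 2 / 64) with g | g
  · linarith [a1 0 g]
  · have := h.radial (x := z) (s := t / 2 / 64) (R := 2) (a := u z / 2) (by positivity)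
      (sub _ le_rfl) (fun y hy => a1 y hy.le) (by nlinarith) g (by rw [zero_sub, norm_neg]; linarith)
    rw [zero_sub, norm_neg] at this g
    have a2 : 1 ≤ (‖z‖ ^ 2)⁻¹ :=
      (one_le_inv₀ (pow_pos (lt_of_lt_of_le (by positivity) g) 2)).2
        (pow_le_one₀ (norm_nonneg z) z1)
    refine le_trans ?_ this
    refine le_trans ?_ (mul_le_mul_of_nonneg_left (sub_le_sub_right a2 _) (by positivity))
    nlinarith

theorem Visc.grow (h : Visc u P D) {x y : E} {ρ : ℝ} (hρ : 0 < ρ) (hD : closedBall y (6 * ρ) ⊆ D)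
    (hx : ‖x - y‖ ≤ ρ) (hM : 2 ^ 21 * ρ ≤ u x) : u x / 2 ^ 18 ≤ u y := by
  have r0 : 0 < 2 * ρ := by positivity
  have := (h.scale y r0).grow_unit (x := (2 * ρ)⁻¹ • (x - y)) (fun z hz => hD ?_) ?_ ?_
  · simp only [sim_inv' y r0.ne', smul_zero, add_zero, mul_div_assoc] at this
    exact le_of_mul_le_mul_left this (inv_pos.2 r0)
  · rw [mem_closedBall_iff_norm, add_sub_cancel_left, norm_smul, Real.norm_of_nonneg r0.le]
    nlinarith [mem_closedBall_zero_iff.1 hz]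
  · rw [norm_smul, norm_inv, Real.norm_of_nonneg r0.le, inv_mul_le_iff₀ r0]
    linarith
  · simp only [sim_inv' y r0.ne']
    rw [le_inv_mul_iff₀ r0]
    linarith

theorem Visc.le_near_zero (h : Visc u P D) {x y : E} {ρ : ℝ} (hρ : 0 < ρ)
    (hD : closedBall y (6 * ρ) ⊆ D) (hx : ‖x - y‖ ≤ ρ) (hy : u y ≤ 0) : u x ≤ 2 ^ 21 * ρ := by
  by_contra! c
  linarith [h.grow hρ hD hx c.le]

theorem Visc.spread (h : Visc u P D) {y : E} {ρ : ℝ} (hρ : 0 < ρ) (hD : closedBall y (2 * ρ) ⊆ D)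
    (hP : ∀ x ∈ P, ρ ≤ ‖x - y‖) (hu : ∀ x ∈ closedBall y (2 * ρ), u x ≤ ρ / 100) :
    ∀ x ∈ P, 3 / 2 * ρ ≤ ‖x - y‖ := by
  intro x hx
  by_contra! c
  have a0 := hP x hx
  have hxB : x ∈ closedBall y (2 * ρ) := mem_closedBall_iff_norm.2 (by linarith)
  have := h.vm.cmp h.closed (shell_compact y ρ (2 * ρ)) (h.cont.mono fun z hz => hD hz.1)
    (φ := fun x => -(ρ ^ 3 / 4 * (‖x - y‖ ^ 2)⁻¹) + ρ / 9)
    ((continuousOn_const.mul (shell_cont y hρ fun _ h => h.2)).neg.add continuousOn_const)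
    (fun z hz hzP g => ?_) x ⟨hxB, a0⟩ hx
  · have a1 := h.nonneg x (hD hxB)
    have a2 : 0 < ‖x - y‖ := by linarith
    have a3 : ρ / 9 < ρ ^ 3 / 4 * (‖x - y‖ ^ 2)⁻¹ := by
      rw [← div_eq_mul_inv, lt_div_iff₀ (by positivity)]
      nlinarith [mul_pos hρ (sub_pos.2 (pow_lt_pow_left₀ c a2.le two_ne_zero))]
    linarith
  · have b1 : ‖z - y‖ ≤ 2 * ρ := mem_closedBall_iff_norm.1 hz.1
    have b2 : ρ ≤ ‖z - y‖ := hz.2
    have b3 : 0 < ‖z - y‖ := by linarith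
    have b4 := norm_grad_inv (ρ ^ 3 / 4) (by positivity) b3
    refine ⟨inter_mem (mem_nhdsWithin_of_mem_nhds (closedBall_mem_nhds_of_mem
      (mem_ball_iff_norm.2 (b1.lt_of_ne fun c => ?_)))) (mem_of_superset self_mem_nhdsWithin hP),
      hD hz.1, _, _, ((jet_inv (sub_ne_zero.1 (norm_pos_iff.1 b3))).const_mul _).neg.add_const _,
      neg_neg_of_pos (by positivity), fun _ => ⟨?_, ?_⟩⟩
    · have e : ρ ^ 3 / 4 * ((2 * ρ) ^ 2)⁻¹ = ρ / 16 := by field_simp; ring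
      simp only [c, e] at g
      linarith [hu z hz.1]
    · rw [← norm_pos_iff, norm_neg, b4]
      positivity
    · rw [norm_neg, b4, div_lt_one (by positivity)]
      linarith [pow_le_pow_left₀ hρ.le b2 3, pow_pos hρ 3]

theorem exists_modulus {M η R : ℝ} (hM : 0 < M) (hη : 0 < η) (hR : 0 < R) : ∃ θ : ℝ, 0 < θ ∧
    ∀ (u : E → ℝ) (P D : Set E) (x : E), Visc u P D → closedBall x R ⊆ D →
      (∀ y ∈ closedBall x R, u y ≤ M) → ∀ y, ‖y - x‖ ≤ θ → |u y - u x| ≤ η := by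
  obtain ⟨ρ, ρ0, ρ1, ρ2⟩ : ∃ ρ : ℝ, 0 < ρ ∧ ρ ≤ R / 13 ∧ ρ ≤ η / 2 ^ 22 :=
    ⟨min _ _, by positivity, min_le_left _ _, min_le_right _ _⟩
  refine ⟨min (ρ / 2) (η * ρ / (8 * M)), by positivity, fun u P D x h hD hb y hy => ?_⟩
  have y1 := hy.trans (min_le_left _ _)
  have y2 := hy.trans (min_le_right _ _)
  have s2 : closedBall x ρ ⊆ closedBall x R := closedBall_subset_closedBall (by linarith)
  by_cases c : ∀ z ∈ ball x ρ, 0 < u z
  · refine (vh_lip ρ0 (h.super.mono fun z hz => ⟨hD (s2 (ball_subset_closedBall hz)), c z hz⟩)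
      (h.sub.mono (ball_subset_closedBall.trans (s2.trans hD))) (h.cont.mono (s2.trans hD)) (M := M)
      (fun w hw => by rw [abs_of_nonneg (h.nonneg w (hD (s2 hw)))]; exact hb w (s2 hw)) y1).trans
      ((mul_le_mul_of_nonneg_left y2 (by positivity)).trans_eq (by field_simp))
  · push Not at c
    obtain ⟨z, hz, h0⟩ := c
    have z1 := mem_ball_iff_norm.1 hz
    have s3 : closedBall z (6 * (2 * ρ)) ⊆ D :=
      (closedBall_subset_closedBall' (by rw [dist_eq_norm]; linarith)).trans hD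
    have a1 := h.le_near_zero (x := x) (by positivity) s3 (by rw [norm_sub_rev]; linarith) h0
    have a2 := h.le_near_zero (x := y) (by positivity) s3 (by
      linarith [norm_sub_le_norm_sub_add_norm_sub y x z, norm_sub_rev x z]) h0
    have a3 := h.nonneg x (hD (mem_closedBall_self hR.le))
    have a4 := h.nonneg y (hD (s2 (mem_closedBall_iff_norm.2 (by linarith))))
    exact abs_le.2 ⟨by linarith, by linarith⟩

end Pool.Agent.Lib.MP_155f9b_an
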