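import Pool.Agent.Lib.MP_155f9b_an.Sel

/-! Classical solutions are viscosity solutions. -/

namespace Pool.Agent.Lib.MP_155f9b_an

open Filter Topology Metric
open scoped RealInnerProductSpace

theorem line_deriv {f : E → ℝ} {b z v : E} {s : ℝ} (h : HasFDerivAt f (innerSL ℝ b) (z + s • v)) :
    HasDerivAt (fun s : ℝ => f (z + s • v)) ⟪b, v⟫ s := by
  have := h.comp_hasDerivAt s (((hasDerivAt_id s).smul_const v).const_add z)
  rw [one_smul] at this
  exact this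

theorem line_slope {f : E → ℝ} {b z : E} (h : HasFDerivAt f (innerSL ℝ b) z) :
    Tendsto (fun s : ℝ => s⁻¹ * (f (z + s • b) - f z)) (𝓝[>] 0) (𝓝 (‖b‖ ^ 2)) := by
  rw [← real_inner_self_eq_norm_sq]
  simpa only [zero_add, zero_smul, add_zero, smul_eq_mul] using (line_deriv (z := z) (v := b)
    (s := 0) (by simpa using h)).tendsto_slope_zero_right

theorem line_tendsto (z v : E) : Tendsto (fun s : ℝ => z + s • v) (𝓝[>] 0) (𝓝 z) :=
  (Continuous.tendsto' (by fun_prop) 0 z (by simp)).mono_left nhdsWithin_le_nhds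

theorem grad_le {f : E → ℝ} {b z : E} {β : ℝ} (h : HasFDerivAt f (innerSL ℝ b) z) (β0 : 0 ≤ β)
    (H : ∀ᶠ y in 𝓝 z, f y - f z ≤ β * ‖y - z‖) : ‖b‖ ≤ β := by
  have : ‖b‖ ^ 2 ≤ β * ‖b‖ := le_of_tendsto (line_slope h) (by
    filter_upwards [(line_tendsto z b).eventually H, self_mem_nhdsWithin] with s h1 (s0 : 0 < s)
    rw [norm_scale s0] at h1
    rw [inv_mul_le_iff₀ s0]
    linarith)
  nlinarith [norm_nonneg b]

theorem visc_of_classical {u : E → ℝ} {O : Set E} (ho : IsOpen O) (hc : ContinuousOn u O)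
    (h0 : ∀ x ∈ O, 0 ≤ u x) (hh : InnerProductSpace.HarmonicOnNhd u {x ∈ O | 0 < u x})
    (hg : ∀ p ∈ O, p ∈ closure {x ∈ O | 0 < u x} → u p = 0 →
      Tendsto (fun x => ‖gradient u x‖) (𝓝[{x ∈ O | 0 < u x}] p) (𝓝 1)) :
    Visc u (closure {x ∈ O | 0 < u x}) O := by
  set S := {x ∈ O | 0 < u x}
  have oS : IsOpen S := hc.isOpen_inter_preimage ho isOpen_Ioi
  have j : ∀ x ∈ S, Jet u x (gradient u x) 0 := fun x hx =>
    (Jet.of_contDiffAt (hh x hx).1).congr rfl (hh x hx).2.self_of_nhds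
  refine ⟨ho, hc, h0, isClosed_closure, fun x hx g => subset_closure ⟨hx, g⟩,
    fun x hx φ b l J hm l0 => ?_, fun x hx hP φ b l J hm l0 => ?_⟩
  · have u0 : u x = 0 := (h0 x hx).eq_or_lt.resolve_right (fun g => by
      linarith [(J.sub (j x ⟨hx, g⟩)).nonpos_of_max hm]) |>.symm
    refine ⟨u0.le, not_lt.1 fun c => ?_⟩
    obtain ⟨m, hm'⟩ : ∃ m, m = (1 + ‖b‖) / 2 := ⟨_, rfl⟩
    have m0 : 0 < m * ‖b‖ := by rw [hm']; positivity
    have a1 : ∀ᶠ s in 𝓝[>] (0 : ℝ), x + s • b ∈ S ∧ m * ‖b‖ * s < u (x + s • b) := by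
      filter_upwards [(line_slope J.hasFDerivAt).eventually
        (lt_mem_nhds (show m * ‖b‖ < ‖b‖ ^ 2 by nlinarith)), (line_tendsto x b).eventually hm,
        (line_tendsto x b).eventually (ho.mem_nhds hx), self_mem_nhdsWithin]
        with s h1 h2 h3 (s0 : 0 < s)
      rw [lt_inv_mul_iff₀ s0] at h1
      have : m * ‖b‖ * s < u (x + s • b) := by linarith
      exact ⟨⟨h3, (mul_pos m0 s0).trans this⟩, this⟩
    have a2 : Tendsto (fun s : ℝ => x + s • b) (𝓝[>] 0) (𝓝[S] x) :=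
      tendsto_nhdsWithin_iff.2 ⟨line_tendsto x b, a1.mono fun s h => h.1⟩
    have a3 := ((hg x hx (mem_closure_of_tendsto (line_tendsto x b) (a1.mono fun s h => h.1))
      u0).comp a2).eventually (gt_mem_nhds (show 1 < m by linarith))
    obtain ⟨s, (s0 : 0 < s), hs⟩ := mem_nhdsGT_iff_exists_Ioc_subset.1 (a1.and a3)
    obtain ⟨c, c1, c2⟩ := exists_hasDerivAt_eq_slope (fun s : ℝ => u (x + s • b))
      (fun s => ⟪gradient u (x + s • b), b⟫) s0 (hc.comp (by fun_prop) fun r hr => by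
        rcases hr.1.eq_or_lt with rfl | r0
        · simpa using hx
        · exact (hs ⟨r0, hr.2⟩).1.1.1)
      fun r hr => line_deriv (j _ (hs ⟨hr.1, hr.2.le⟩).1.1).hasFDerivAt
    have a4 := (real_inner_le_norm _ b).trans (mul_le_mul_of_nonneg_right
      (hs ⟨c1.1, c1.2.le⟩).2.le (norm_nonneg b))
    simp only [zero_smul, add_zero, u0, sub_zero] at c2
    rw [c2, div_le_iff₀ s0] at a4
    exact a4.not_gt (hs ⟨s0, le_rfl⟩).1.2
  have u0 : u x = 0 := (h0 x hx).eq_or_lt.resolve_right (fun g => by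
    linarith [((j x ⟨hx, g⟩).sub J).nonpos_of_max (hm.isLocalMax
      (mem_of_superset (oS.mem_nhds ⟨hx, g⟩) subset_closure))]) |>.symm
  refine ⟨u0.le, Or.inr (not_lt.1 fun c => ?_)⟩
  obtain ⟨η, hη⟩ : ∃ η, η = (1 - ‖b‖) / 3 := ⟨_, rfl⟩
  have η0 : 0 < η := by linarith
  have b0 := norm_nonneg b
  have a1 : ∀ᶠ y in 𝓝 x, y ∈ O ∧ (y ∈ S → u y ≤ (‖b‖ + η) * ‖y - x‖ ∧
      ‖b‖ + 2 * η < ‖gradient u y‖) := by
    filter_upwards [ho.mem_nhds hx, J.hasFDerivAt.isLittleO.def η0, eventually_nhdsWithin_iff.1 hm,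
      eventually_nhdsWithin_iff.1 ((hg x hx hP u0).eventually
        (lt_mem_nhds (show ‖b‖ + 2 * η < 1 by linarith)))] with y h1 h2 h3 h4
    refine ⟨h1, fun hy => ⟨?_, h4 hy⟩⟩
    rw [innerSL_apply_apply] at h2
    linarith [h3 (subset_closure hy), (abs_le.1 h2).2, real_inner_le_norm b (y - x)]
  obtain ⟨R, R0, hR⟩ := nhds_basis_closedBall.eventually_iff.1 a1
  obtain ⟨y, yS, hy⟩ := Metric.mem_closure_iff.1 hP (η * R) (by positivity)
  rw [dist_eq_norm] at hy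
  have yR : y ∈ closedBall x R := by
    rw [mem_closedBall', dist_eq_norm]
    nlinarith
  obtain ⟨z, zR, hz⟩ := (isCompact_closedBall x R).exists_isMaxOn ⟨y, yR⟩
    (f := fun z => u z - (‖b‖ + 2 * η) * ‖z - y‖)
    ((hc.mono fun z hz => (hR hz).1).sub (by fun_prop))
  have a2 : u y - (‖b‖ + 2 * η) * ‖y - y‖ ≤ u z - (‖b‖ + 2 * η) * ‖z - y‖ := hz yR
  rw [sub_self, norm_zero, mul_zero, sub_zero] at a2
  have a3 : 0 ≤ (‖b‖ + 2 * η) * ‖z - y‖ := by positivity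
  have zS : z ∈ S := ⟨(hR zR).1, by linarith [yS.2]⟩
  obtain ⟨a4, a5⟩ := (hR zR).2 zS
  rcases (mem_closedBall_iff_norm.1 zR).eq_or_lt with g | g
  · have a6 := norm_sub_le_norm_sub_add_norm_sub z y x
    rw [norm_sub_rev y x, g] at a6
    rw [g] at a4
    nlinarith [yS.2, mul_le_mul_of_nonneg_left (show R - η * R ≤ ‖z - y‖ by linarith)
      (show 0 ≤ ‖b‖ + 2 * η by positivity), mul_pos η0 R0]
  refine a5.not_ge (grad_le (j z zS).hasFDerivAt (by positivity) ?_)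
  filter_upwards [closedBall_mem_nhds_of_mem (mem_ball_iff_norm.2 g)] with w hw
  have a6 : u w - (‖b‖ + 2 * η) * ‖w - y‖ ≤ u z - (‖b‖ + 2 * η) * ‖z - y‖ := hz hw
  nlinarith [norm_sub_le_norm_sub_add_norm_sub w z y]

end Pool.Agent.Lib.MP_155f9b_an
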