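import Pool.Agent.Lib.MP_155f9b_an.Visc

/-! Approximate solution of the Dirichlet problem by harmonic polynomials. -/

namespace Pool.Agent.Lib.MP_155f9b_an

open Filter Topology Metric MvPolynomial
open scoped RealInnerProductSpace

namespace Dir

/-- polynomials in three variables -/
abbrev A : Type := MvPolynomial (Fin 3) ℝ

/-- the formal Laplacian -/
noncomputable def lap (p : A) : A := ∑ i, pderiv i (pderiv i p)

/-- the square of the norm -/
noncomputable def rr : A := ∑ i, X i ^ 2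

theorem lap_add (p q : A) : lap (p + q) = lap p + lap q := by
  simp [lap, Finset.sum_add_distrib]

theorem lap_sub (p q : A) : lap (p - q) = lap p - lap q := by
  simp [lap, Finset.sum_sub_distrib]

theorem lap_smul (c : ℝ) (p : A) : lap (c • p) = c • lap p := by
  simp [lap, Finset.smul_sum]

theorem jet (p : A) (x : E) : Jet (fun y => eval y.ofLp p) x
    (WithLp.toLp 2 fun i => eval x.ofLp (pderiv i p)) (eval x.ofLp (lap p)) := by
  induction p using MvPolynomial.induction_on with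
  | C a =>
    simpa [lap] using (Jet.const a x).congr (b' := WithLp.toLp 2 fun _ => 0) rfl rfl
  | add p q hp hq =>
    refine ((hp.add hq).congr_fun (Eventually.of_forall fun y => by simp)).congr ?_
      (by simp [lap_add])
    ext i
    simp
  | mul_X p i hp =>
    refine ((hp.mul (Jet.inn (EuclideanSpace.single i 1) 0 x)).congr_fun
      (Eventually.of_forall fun y => by simp [EuclideanSpace.inner_single_right])).congr ?_ ?_
    · ext k
      simp [EuclideanSpace.inner_single_right, pderiv_X, Pi.single_apply, eq_comm, apply_ite]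
    · fin_cases i <;>
        simp [lap, EuclideanSpace.inner_single_right, Fin.sum_univ_three, pderiv_X] <;> ring

theorem rr_hom : rr.IsHomogeneous 2 := IsHomogeneous.sum _ _ _ fun i _ => isHomogeneous_X_pow i 2

theorem lap_hom {f : A} {k : ℕ} (h : f.IsHomogeneous k) : (lap f).IsHomogeneous (k - 2) :=
  IsHomogeneous.sum _ _ _ fun _ _ => h.pderiv.pderiv

theorem lap_low {f : A} {k : ℕ} (h : f.IsHomogeneous k) (hk : k < 2) : lap f = 0 := by
  refine Finset.sum_eq_zero fun i _ => ?_
  have h1 : (pderiv i f).IsHomogeneous 0 := by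
    have := h.pderiv (i := i)
    rwa [show k - 1 = 0 by omega] at this
  rw [totalDegree_eq_zero_iff_eq_C.1 (Nat.le_zero.1 h1.totalDegree_le), pderiv_C]

theorem lap_rr {f : A} {k : ℕ} (h : f.IsHomogeneous k) :
    lap (rr * f) = (6 + 4 * k : ℝ) • f + rr * lap f := by
  have e := h.sum_X_mul_pderiv
  rw [Fin.sum_univ_three, nsmul_eq_mul] at e
  rw [smul_eq_C_mul, map_add, map_mul, map_natCast, map_ofNat, map_ofNat]
  have z : ∀ i : Fin 3, pderiv i (2 : A) = 0 := fun i => pderiv_C (a := 2)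
  simp [lap, rr, Fin.sum_univ_three, pderiv_X, z]
  linear_combination 4 * e

theorem lap_pow {f : A} {k : ℕ} (h : f.IsHomogeneous k) (j : ℕ) : ∃ c : ℝ, 0 < c ∧
    lap (rr ^ (j + 1) * f) = c • (rr ^ j * f) + rr ^ (j + 1) * lap f := by
  induction j with
  | zero => exact ⟨6 + 4 * k, by positivity, by simpa using lap_rr h⟩
  | succ j ih =>
    obtain ⟨c, c0, e⟩ := ih
    refine ⟨6 + 4 * (2 * (j + 1) + k : ℕ) + c, by positivity, ?_⟩
    rw [pow_succ' rr (j + 1), mul_assoc, lap_rr ((rr_hom.pow (j + 1)).mul h), e, add_smul _ c,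
      mul_add rr, mul_smul_comm]
    ring_nf

theorem solve (k : ℕ) : ∀ (j : ℕ) (f : A), f.IsHomogeneous k →
    ∃ q : A, q.IsHomogeneous k ∧ lap (rr ^ (j + 1) * q) = rr ^ j * f := by
  induction k using Nat.strong_induction_on with
  | _ k ih =>
    intro j f h
    obtain ⟨c, c0, e⟩ := lap_pow h j
    obtain ⟨q, h1, h2⟩ : ∃ q : A, q.IsHomogeneous k ∧
        lap (rr ^ (j + 1) * q) = rr ^ (j + 1) * lap f := by
      rcases lt_or_ge k 2 with g | g
      · exact ⟨0, isHomogeneous_zero _ _ _, by simp [lap_low h g, show lap 0 = 0 by simp [lap]]⟩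
      · obtain ⟨q, h1, h2⟩ := ih (k - 2) (by omega) (j + 1) _ (lap_hom h)
        refine ⟨rr * q, ?_, by rw [← h2, ← mul_assoc, ← pow_succ]⟩
        have := rr_hom.mul h1
        rwa [show 2 + (k - 2) = k by omega] at this
    refine ⟨c⁻¹ • (f - q), (homogeneousSubmodule _ _ k).smul_mem _ (h.sub h1), ?_⟩
    rw [mul_smul_comm, lap_smul, mul_sub, lap_sub, e, h2, add_sub_cancel_right,
      inv_smul_smul₀ c0.ne']

theorem hom (k : ℕ) : ∀ f : A, f.IsHomogeneous k →
    ∃ H : A, lap H = 0 ∧ ∀ x : Fin 3 → ℝ, eval x rr = 1 → eval x H = eval x f := by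
  induction k using Nat.strong_induction_on with
  | _ k ih =>
    intro f h
    rcases lt_or_ge k 2 with g | g
    · exact ⟨f, lap_low h g, fun _ _ => rfl⟩
    · obtain ⟨q, h1, h2⟩ := solve _ 0 _ (lap_hom h)
      obtain ⟨H, h3, h4⟩ := ih (k - 2) (by omega) q h1
      refine ⟨f - rr ^ (0 + 1) * q + H, by rw [lap_add, lap_sub, h2, h3]; simp, fun x hx => ?_⟩
      simp [hx, h4 x hx]

theorem poly (f : A) : ∃ H : A, lap H = 0 ∧ ∀ x : Fin 3 → ℝ, eval x rr = 1 → eval x H = eval x f := by
  induction f using MvPolynomial.induction_on' with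
  | monomial u a => exact hom _ _ (isHomogeneous_monomial a rfl)
  | add p q hp hq =>
    obtain ⟨H, h1, h2⟩ := hp
    obtain ⟨H', h3, h4⟩ := hq
    exact ⟨H + H', by rw [lap_add, h1, h3, add_zero], fun x hx => by simp [h2 x hx, h4 x hx]⟩

theorem unit (f : E → ℝ) (hf : ContinuousOn f (sphere 0 1)) {η : ℝ} (hη : 0 < η) :
    ∃ h G, Harm h G ∧ ∀ x ∈ sphere (0 : E) 1, |h x - f x| ≤ η := by
  let T : A →ₐ[ℝ] C(sphere (0 : E) 1, ℝ) := aeval fun i => ⟨fun x => x.1 i, by fun_prop⟩
  have hT : ∀ (p : A) (x : sphere (0 : E) 1), T p x = eval x.1.ofLp p := by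
    intro p x
    induction p using MvPolynomial.induction_on with
    | C a => simp [T]
    | add p q hp hq => simp [hp, hq]
    | mul_X p i hp => rw [map_mul, map_mul, ContinuousMap.mul_apply, hp]; simp [T]
  obtain ⟨⟨_, p, rfl⟩, hp⟩ := ContinuousMap.exists_mem_subalgebra_near_continuous_of_separatesPoints
    T.range (fun x y ne => by
      obtain ⟨i, hi⟩ : ∃ i, x.1 i ≠ y.1 i := by
        by_contra c
        exact ne (Subtype.ext (PiLp.ext (by simpa using c)))
      exact ⟨_, ⟨T (X i), ⟨X i, rfl⟩, rfl⟩, by simpa [hT] using hi⟩)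
    (fun x => f x) hf.domRestrict η hη
  obtain ⟨H, h1, h2⟩ := poly p
  refine ⟨fun y => eval y.ofLp H, _, fun x => (jet H x).congr rfl (by rw [h1, map_zero]),
    fun x hx => ?_⟩
  have e : eval x.ofLp rr = 1 := by
    have := EuclideanSpace.real_norm_sq_eq x
    rw [mem_sphere_zero_iff_norm.1 hx] at this
    simpa [rr] using this.symm
  simp only [h2 _ e, ← hT p ⟨x, hx⟩]
  exact (hp ⟨x, hx⟩).le

end Dir

theorem exists_harm (c : E) {R : ℝ} (hR : 0 < R) (f : E → ℝ) (hf : ContinuousOn f (sphere c R))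
    {η : ℝ} (hη : 0 < η) : ∃ h G, Harm h G ∧ ∀ x ∈ sphere c R, |h x - f x| ≤ η := by
  obtain ⟨h, G, H, hb⟩ := Dir.unit (fun y => f (c + R • y)) (hf.comp (by fun_prop) fun y hy => by
    simp [norm_smul, mem_sphere_zero_iff_norm.1 hy, abs_of_pos hR]) hη
  refine ⟨fun y => h (-R⁻¹ • c + R⁻¹ • y), _,
    fun x => (Jet.scale _ _ (H _)).congr rfl (mul_zero _), fun x hx => ?_⟩
  have := hb (R⁻¹ • (x - c)) (by
    simp [norm_smul, mem_sphere_iff_norm.1 hx, abs_of_pos hR, hR.ne'])
  rwa [sim_inv' c hR.ne', smul_sub, sub_eq_neg_add (R⁻¹ • x), ← neg_smul] at this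

theorem Harm.abs_le {h w : E → ℝ} {G : E → E} (H : Harm h G) {c : E} {R η : ℝ}
    (h1 : VP (-1) w (ball c R)) (h2 : VP (-1) (fun y => -w y) (ball c R))
    (hc : ContinuousOn w (closedBall c R)) (hb : ∀ x ∈ sphere c R, |h x - w x| ≤ η) :
    ∀ x ∈ closedBall c R, |h x - w x| ≤ η := by
  have k : ∀ x ∈ closedBall c R, η < |h x - w x| → closedBall c R ∈ 𝓝 x ∧ x ∈ ball c R := by
    intro x hx g
    have : x ∈ ball c R := lt_of_le_of_ne hx fun e => g.not_ge (hb x e)
    exact ⟨closedBall_mem_nhds_of_mem this, this⟩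
  intro x hx
  have a1 := (H.add_const (-η)).le_of_bdry h1 (isCompact_closedBall c R) hc
    (fun y hy g => k y hy (lt_abs.2 (Or.inl (by linarith)))) x hx
  have a2 := (H.neg.add_const (-η)).le_of_bdry h2 (isCompact_closedBall c R) hc.neg
    (fun y hy g => k y hy (lt_abs.2 (Or.inr (by linarith)))) x hx
  exact _root_.abs_le.2 ⟨by linarith, by linarith⟩

/-- Lipschitz estimate at the centre for viscosity harmonic functions -/
theorem vh_lip {w : E → ℝ} {c : E} {R M : ℝ} (hR : 0 < R) (h1 : VP (-1) w (ball c R))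
    (h2 : VP (-1) (fun y => -w y) (ball c R)) (hc : ContinuousOn w (closedBall c R))
    (hb : ∀ x ∈ closedBall c R, |w x| ≤ M) {x : E} (hx : ‖x - c‖ ≤ R / 2) :
    |w x - w c| ≤ 8 * M / R * ‖x - c‖ := by
  have M0 : 0 ≤ M := (abs_nonneg _).trans (hb c (mem_closedBall_self hR.le))
  refine le_of_forall_pos_le_add fun ε ε0 => ?_
  obtain ⟨h, G, H, hh⟩ := exists_harm c hR w (hc.mono sphere_subset_closedBall)
    (η := ε / 6) (by positivity)
  have a1 := H.abs_le h1 h2 hc hh
  have a2 := H.lip (M := M + ε / 6) (by positivity) (c := c) (half_pos hR) (fun y hy => by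
    rw [mul_div_cancel₀ _ two_ne_zero] at hy
    have := abs_sub_abs_le_abs_sub (h y) (w y)
    linarith [a1 y hy, hb y hy]) (mem_closedBall_iff_norm.2 hx) (mem_closedBall_self (by positivity))
  have a3 := abs_le.1 (a1 x (mem_closedBall_iff_norm.2 (by linarith)))
  have a4 := abs_le.1 (a1 c (mem_closedBall_self hR.le))
  have a5 : 4 * (M + ε / 6) / (R / 2) * ‖x - c‖ = 8 * M / R * ‖x - c‖ + 4 * ε / 3 * (‖x - c‖ / R) := by
    field_simp
    ring
  have a6 : ‖x - c‖ / R ≤ 1 / 2 := by rw [div_le_iff₀ hR]; linarith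
  rw [a5, abs_le] at a2
  exact abs_le.2 ⟨by nlinarith, by nlinarith⟩

/-- uniformly bounded harmonic functions that follow arbitrary bounded data on the sphere -/
theorem exists_net {s η : ℝ} (hs : 0 < s) (hη : 0 < η) : ∃ A : ℝ, 0 < A ∧ ∀ f : E → ℝ,
    (∀ z, |f z| ≤ 1) → ∃ h G, Harm h G ∧ (∀ x ∈ closedBall (0 : E) 4, |h x| ≤ A) ∧
      ∀ x ∈ sphere (0 : E) 1, ∀ lo hi : ℝ, (∀ z, ‖z - x‖ < s → lo ≤ f z ∧ f z ≤ hi) →
        lo - η ≤ h x ∧ h x ≤ hi + η := by
  obtain ⟨t, -, tf, ht⟩ := finite_cover_balls_of_compact (isCompact_sphere (0 : E) 1) hs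
  obtain ⟨n, z, -, rfl⟩ := tf.fin_param
  obtain ⟨ψ, h1, h2, h3, -⟩ := exists_continuous_sum_one_of_isOpen_isCompact
    (s := fun i => ball (z i) s) (fun _ => isOpen_ball) (isCompact_sphere (0 : E) 1)
    (by simpa using ht)
  have n0 : (0 : ℝ) < n + 1 := by positivity
  choose H G hH hb using fun i => Dir.unit (ψ i) (ψ i).continuous.continuousOn (div_pos hη n0)
  choose B hB using fun i =>
    (isCompact_closedBall (0 : E) 4).exists_bound_of_continuousOn (hH i).continuous.continuousOn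
  refine ⟨∑ i, |B i| + 1, by positivity, fun f hf => ⟨fun y => ∑ i, f (z i) * H i y,
    fun y => ∑ i, f (z i) • G i y, fun x => ?_, fun x hx => ?_, fun x hx lo hi hl => ?_⟩⟩
  · induction (Finset.univ : Finset (Fin n)) using Finset.induction_on with
    | empty => simpa using Jet.const 0 x
    | insert i s hi ih =>
      simpa [Finset.sum_insert hi] using ((hH i x).const_mul (f (z i))).add ih
  · refine (Finset.abs_sum_le_sum_abs _ _).trans ((Finset.sum_le_sum fun i _ => ?_).trans
      (le_add_of_nonneg_right zero_le_one))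
    rw [abs_mul]
    exact (mul_le_of_le_one_left (abs_nonneg _) (hf _)).trans ((hB i x hx).trans (le_abs_self _))
  · have e : ∑ i, ψ i x = 1 := by simpa using h2 hx
    have a1 : |∑ i, f (z i) * H i x - ∑ i, f (z i) * ψ i x| ≤ η := by
      rw [← Finset.sum_sub_distrib]
      refine (Finset.abs_sum_le_sum_abs _ _).trans
        ((Finset.sum_le_card_nsmul _ _ (η / (n + 1)) fun i _ => ?_).trans ?_)
      · rw [← mul_sub, abs_mul]
        exact (mul_le_of_le_one_left (abs_nonneg _) (hf _)).trans (hb i x hx)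
      · rw [Finset.card_fin, nsmul_eq_mul, mul_div_assoc', div_le_iff₀ n0]
        linarith
    have a2 : ∀ i, lo * ψ i x ≤ f (z i) * ψ i x ∧ f (z i) * ψ i x ≤ hi * ψ i x := by
      intro i
      by_cases c : ψ i x = 0
      · simp [c]
      · have := hl (z i) (by
          rw [norm_sub_rev]; exact mem_ball_iff_norm.1 (h1 i (subset_tsupport _ c)))
        exact ⟨mul_le_mul_of_nonneg_right this.1 (h3 i x).1,
          mul_le_mul_of_nonneg_right this.2 (h3 i x).1⟩
    have a3 := Finset.sum_le_sum fun i (_ : i ∈ Finset.univ) => (a2 i).1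
    have a4 := Finset.sum_le_sum fun i (_ : i ∈ Finset.univ) => (a2 i).2
    rw [← Finset.mul_sum, e] at a3 a4
    rw [abs_le] at a1
    exact ⟨by linarith, by linarith⟩

end Pool.Agent.Lib.MP_155f9b_an
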