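import Pool.Agent.Lib.MP_155f9b_an.Cls

/-! The free boundary is a graph. -/

namespace Pool.Agent.Lib.MP_155f9b_an

open Filter Topology Metric
open scoped RealInnerProductSpace

variable {e ν : E}

theorem Trap.fb {u : E → ℝ} {P : Set E} {p q : E} {η s₀ : ℝ}
    (h : ∀ s, 0 < s → s ≤ s₀ → Trap u P (closedBall p s) p ν (-(η * s)) (η * s)) (h1 : q ∈ P)
    (h2 : u q = 0) (h3 : ‖q - p‖ ≤ s₀) : |⟪q - p, ν⟫| ≤ η * ‖q - p‖ := by
  rcases eq_or_ne q p with rfl | c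
  · simp
  have := h _ (norm_pos_iff.2 (sub_ne_zero.2 c)) h3 q (mem_closedBall_iff_norm.2 le_rfl)
  exact abs_le.2 ⟨by linarith [this.2 h1], by linarith [this.1]⟩

/-- the region where the estimates hold -/
def Rg (e : E) (ρ T : ℝ) (p : E) : Prop := |⟪p, e⟫| ≤ 1 / 32 ∧ ρ ≤ 2 * dd e p ∧ 2 * dd e p ≤ T

theorem exists_cone (he : ‖e‖ = 1) (hν : ‖ν‖ = 1) (en : ⟪e, ν⟫ = 0) {ω : ℝ} (ω0 : 0 < ω) :
    ∃ K T ε : ℝ, 8 ≤ K ∧ 0 < T ∧ T ≤ 1 / 64 ∧ 0 < ε ∧ ∀ (u : E → ℝ) (P : Set E) (δ : ℝ),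
      Adm e u P δ → Fl e ν u P δ ε → (∀ p, p ∈ P ∧ u p = 0 → Rg e (K * δ) T p →
        |⟪p, ν⟫| ≤ ω * dd e p ∧ (∀ q, q ∈ P ∧ u q = 0 → ‖q - p‖ ≤ dd e p / 2 →
          |⟪q - p, ν⟫| ≤ ω * ‖q - p‖) ∧ ∃ ν', ‖ν' - ν‖ ≤ 1 / 2 ∧ ∀ η, 0 < η → ∃ s₀, 0 < s₀ ∧
            ∀ q, q ∈ P ∧ u q = 0 → ‖q - p‖ ≤ s₀ → |⟪q - p, ν'⟫| ≤ η * ‖q - p‖) ∧
      ∀ z, ⟪z, ν⟫ = 0 → Rg e (K * δ) T z → ∃ s, |s| ≤ dd e z / 2 ∧ z + s • ν ∈ P ∧
        u (z + s • ν) = 0 := by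
  obtain ⟨σ₀, p0, H⟩ := exists_reg
  obtain ⟨σ, σ0, σ1, σ2, σ3⟩ : ∃ σ : ℝ, 0 < σ ∧ σ ≤ σ₀ ∧ 2 ^ 24 * σ ≤ ω ∧ σ ≤ 1 / 256 :=
    ⟨min σ₀ (min (ω / 2 ^ 24) (1 / 256)), by positivity, min_le_left _ _,
      (le_div_iff₀' (by positivity)).1 ((min_le_right _ _).trans (min_le_left _ _)),
      (min_le_right _ _).trans (min_le_right _ _)⟩
  obtain ⟨K, T, ε, K8, T0, T1, ε0, F⟩ := exists_flat he hν en (ω := σ / 8) (by positivity)
  refine ⟨K, T, ε, K8, T0, T1, ε0, fun u P δ h hF => ?_⟩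
  have δ0 := h.pos
  have pre : ∀ p, Rg e (K * δ) T p → 0 < dd e p ∧ closedBall p (dd e p / 2) ⊆
      {x | ‖x‖ < 1 ∧ δ < dd e x} ∧ Trap u P (closedBall p (dd e p / 2)) p ν
        (⟪p, ν⟫ - σ / 2 * (dd e p / 2)) (⟪p, ν⟫ + σ / 2 * (dd e p / 2)) := fun p hp => by
    have a1 : 8 * δ ≤ 2 * dd e p := (mul_le_mul_of_nonneg_right K8 δ0.le).trans hp.2.1
    have a2 : closedBall p (dd e p / 2) ⊆ reg e (⟪p, e⟫ • e) (2 * dd e p) δ := fun x hx => by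
      have b1 := mem_closedBall_iff_norm.1 hx
      have b2 := norm_sub_le_norm_sub_add_norm_sub x p (⟪p, e⟫ • e)
      have b3 := dd_le_add he p x
      rw [norm_sub_rev] at b3
      rw [← dd] at b2
      exact ⟨by linarith, by linarith⟩
    refine ⟨by linarith, fun x hx => h.dom he (by linarith [hp.1, hp.2.2]) (a2 hx),
      ((F u P δ _ _ h hF hp.1 hp.2.1 hp.2.2).2.2.rebase p).mono a2 (le_of_eq ?_) (le_of_eq ?_)⟩ <;>
      rw [inner_sub_left, real_inner_smul_left, en] <;> ring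
  refine ⟨fun p hp hR => ?_, fun z hz hR => ?_⟩
  · obtain ⟨d0, hD, hT⟩ := pre p hR
    have a1 := hT p (mem_closedBall_self (by positivity))
    rw [sub_self, inner_zero_left, hp.2] at a1
    have a2 := a1.2 hp.1
    obtain ⟨ν', -, n1, h1, h2⟩ := H u P _ p ν (dd e p / 2) σ h.visc (by positivity) hD hp.2.le hp.1
      hν σ0 σ1 (hT.mono subset_rfl (by linarith) (by linarith [a1.1]))
    have a3 : σ * dd e p ≤ ω * dd e p := mul_le_mul_of_nonneg_right (by linarith) d0.le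
    refine ⟨abs_le.2 ⟨by nlinarith, by nlinarith [a1.1]⟩, fun q hq h3 => Trap.fb (fun s s0 s1 => ?_)
      hq.1 hq.2 h3, ν', by linarith, fun η η0 => ?_⟩
    · have a4 := mul_le_mul_of_nonneg_right σ2 s0.le
      have a5 := mul_pos σ0 s0
      exact ((h1 s s0 s1).tilt n1 fun x hx => mem_closedBall_iff_norm.1 hx).mono subset_rfl
        (by linarith) (by linarith)
    · obtain ⟨s₀, s0, h2⟩ := h2 η η0
      exact ⟨s₀, s0, fun q hq => Trap.fb h2 hq.1 hq.2⟩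
  obtain ⟨d0, hD, hT⟩ := pre z hR
  have a1 : ∀ s ∈ Set.Icc (-(dd e z / 2)) (dd e z / 2), z + s • ν ∈ closedBall z (dd e z / 2) :=
    fun s hs => by
      rw [mem_closedBall_iff_norm, add_sub_cancel_left, norm_smul, hν, mul_one]
      exact abs_le.2 hs
  have a2 : ∀ s ∈ Set.Icc (-(dd e z / 2)) (dd e z / 2), s - σ / 2 * (dd e z / 2) ≤ u (z + s • ν) ∧
      (z + s • ν ∈ P → u (z + s • ν) ≤ s + σ / 2 * (dd e z / 2)) := fun s hs => by
    simpa only [add_sub_cancel_left, real_inner_smul_left, inner_unit hν, hz, mul_one, zero_sub,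
      zero_add, ← sub_eq_add_neg] using hT _ (a1 s hs)
  have a3 : -(dd e z / 2) ≤ dd e z / 2 := by linarith
  have a4 : σ / 2 * (dd e z / 2) < dd e z / 2 := mul_lt_of_lt_one_left (by positivity) (by linarith)
  obtain ⟨s, s1, s2, s3⟩ := isPreconnected_closed_iff.1 (isPreconnected_Icc (a := -(dd e z / 2))
    (b := dd e z / 2)) ((fun s => z + s • ν) ⁻¹' P) _ (h.visc.closed.preimage (by fun_prop))
    (ContinuousOn.preimage_isClosed_of_isClosed (f := fun s => u (z + s • ν)) (h.visc.cont.comp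
      (by fun_prop) fun s hs => hD (a1 s hs)) isClosed_Icc (isClosed_singleton (x := 0)))
    (fun s hs => (em _).imp_right fun g => ⟨hs, h.visc.zero (hD (a1 s hs)) g⟩)
    ⟨_, ⟨a3, le_rfl⟩, h.visc.pos _ (hD (a1 _ ⟨a3, le_rfl⟩)) (by linarith [(a2 _ ⟨a3, le_rfl⟩).1])⟩
    ⟨_, ⟨le_rfl, a3⟩, ⟨le_rfl, a3⟩, h.visc.zero (hD (a1 _ ⟨le_rfl, a3⟩)) fun g => by
      linarith [(a2 _ ⟨le_rfl, a3⟩).2 g, h.visc.nonneg _ (hD (a1 _ ⟨le_rfl, a3⟩))]⟩
  exact ⟨s, abs_le.2 s1, s2, s3.2⟩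

theorem exists_cut : ∃ M : ℝ, 0 < M ∧ ∀ (H a : E → ℝ) (z : E) (l m : ℝ) (D A : E →L[ℝ] ℝ),
    HasFDerivAt H D z → ‖D‖ ≤ l → HasFDerivAt a A z → 0 ≤ m → (a z ≤ 1 → |H z| * ‖A‖ ≤ m) →
      0 ≤ a z → ∃ D' : E →L[ℝ] ℝ, HasFDerivAt (fun x => (a x).smoothTransition * H x) D' z ∧
        ‖D'‖ ≤ l + M * m := by
  have c : ContDiff ℝ 1 Real.smoothTransition := Real.smoothTransition.contDiff
  obtain ⟨M, hM⟩ := (isCompact_Icc (a := (0 : ℝ)) (b := 1)).exists_bound_of_continuousOn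
    (c.continuous_deriv le_rfl).continuousOn
  have M0 : 0 ≤ M := (norm_nonneg _).trans (hM 0 ⟨le_rfl, zero_le_one⟩)
  refine ⟨M + 1, by positivity, fun H a z l m D A hD l1 hA m0 m1 a0 => ⟨_, (((c.differentiable
    one_ne_zero (a z)).hasDerivAt.comp_hasFDerivAt z hA).mul hD), (norm_add_le _ _).trans
      (add_le_add ?_ ?_)⟩⟩
  · rw [norm_smul, Function.comp_apply, Real.norm_of_nonneg (Real.smoothTransition.nonneg _)]
    exact (mul_le_of_le_one_left (norm_nonneg _) (Real.smoothTransition.le_one _)).trans l1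
  rw [norm_smul, norm_smul, mul_left_comm]
  rcases le_or_gt (a z) 1 with g | g
  · exact mul_le_mul ((hM _ ⟨a0, g⟩).trans (by linarith)) (m1 g) (by positivity) (by positivity)
  · rw [((hasDerivAt_const (a z) (1 : ℝ)).congr_of_eventuallyEq ((lt_mem_nhds g).mono
      fun s hs => Real.smoothTransition.one_of_one_le hs.le)).deriv, norm_zero, zero_mul]
    positivity

/-- the projection to the plane -/
noncomputable def pr (ν x : E) : E := x - ⟪x, ν⟫ • ν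

theorem pr_inner (hν : ‖ν‖ = 1) (x : E) : ⟪pr ν x, ν⟫ = 0 := by
  rw [pr, inner_sub_left, real_inner_smul_left, inner_unit hν, mul_one, sub_self]

theorem pr_axis (en : ⟪e, ν⟫ = 0) (x : E) : ⟪pr ν x, e⟫ = ⟪x, e⟫ := by
  rw [pr, inner_sub_left, real_inner_smul_left, real_inner_comm e ν, en, mul_zero, sub_zero]

theorem pr_plane {z : E} (hz : ⟪z, ν⟫ = 0) : pr ν z = z := by rw [pr, hz, zero_smul, sub_zero]

theorem pr_lift (hν : ‖ν‖ = 1) (x : E) (s : ℝ) :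
    ⟪pr ν x + s • ν, ν⟫ = s ∧ pr ν (pr ν x + s • ν) = pr ν x := by
  have : ⟪pr ν x + s • ν, ν⟫ = s := by
    rw [inner_add_left, pr_inner hν, real_inner_smul_left, inner_unit hν, mul_one, zero_add]
  exact ⟨this, by rw [pr, this, add_sub_cancel_right]⟩

theorem pr_lip (hν : ‖ν‖ = 1) (x y : E) : ‖pr ν y - pr ν x‖ ≤ ‖y - x‖ := by
  refine le_of_eq_of_le ?_ (dd_le hν (y - x))
  rw [dd, pr, pr, inner_sub_left]
  congr 1
  module

theorem pr_dist (hν : ‖ν‖ = 1) (x y : E) : ‖y - x‖ ≤ ‖pr ν y - pr ν x‖ + |⟪y - x, ν⟫| := by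
  have : y - x = pr ν y - pr ν x + ⟪y - x, ν⟫ • ν := by
    rw [pr, pr, inner_sub_left]
    module
  refine (congrArg norm this).trans_le ((norm_add_le _ _).trans_eq ?_)
  rw [norm_smul, hν, mul_one, Real.norm_eq_abs]

theorem dd_lift (he : ‖e‖ = 1) (hν : ‖ν‖ = 1) (z : E) (s : ℝ) :
    dd e (z + s • ν) ≤ dd e z + |s| ∧ dd e z ≤ dd e (z + s • ν) + |s| := by
  have a1 := dd_le_add he (z + s • ν) z
  have a2 := dd_le_add he z (z + s • ν)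
  rw [norm_sub_rev] at a2
  rw [add_sub_cancel_left, norm_smul, hν, mul_one] at a1 a2
  exact ⟨a1, a2⟩

theorem exists_fun (he : ‖e‖ = 1) (hν : ‖ν‖ = 1) (en : ⟪e, ν⟫ = 0) {Z : Set E} {ω ρ T : ℝ}
    (ω0 : 0 < ω) (ω1 : ω ≤ 1 / 10) (h1 : ∀ p ∈ Z, Rg e ρ T p → |⟪p, ν⟫| ≤ ω * dd e p ∧
      (∀ q ∈ Z, ‖q - p‖ ≤ dd e p / 2 → |⟪q - p, ν⟫| ≤ ω * ‖q - p‖) ∧ ∃ ν', ‖ν' - ν‖ ≤ 1 / 2 ∧
        ∀ η, 0 < η → ∃ s₀, 0 < s₀ ∧ ∀ q ∈ Z, ‖q - p‖ ≤ s₀ → |⟪q - p, ν'⟫| ≤ η * ‖q - p‖)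
    (h2 : ∀ z, ⟪z, ν⟫ = 0 → Rg e ρ T z → ∃ s, |s| ≤ dd e z / 2 ∧ z + s • ν ∈ Z) :
    ∃ H : E → ℝ, (∀ x, |H x| ≤ dd e (pr ν x) / 2) ∧ ∀ x, |⟪x, e⟫| < 1 / 32 → ρ < dd e (pr ν x) →
      3 * dd e (pr ν x) < T → pr ν x + H x • ν ∈ Z ∧ |H x| ≤ 2 * ω * dd e (pr ν x) ∧
        (∀ q ∈ Z, Rg e ρ T q → pr ν q = pr ν x → ⟪q, ν⟫ = H x) ∧
        ∃ D : E →L[ℝ] ℝ, HasFDerivAt H D x ∧ ‖D‖ ≤ 10 * ω := by
  let V := {x | |⟪x, e⟫| < 1 / 32 ∧ ρ < dd e (pr ν x) ∧ 3 * dd e (pr ν x) < T}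
  have cd : Continuous fun x => dd e (pr ν x) := by unfold pr; fun_prop
  have oV : IsOpen V := (isOpen_lt (f := fun x : E => |⟪x, e⟫|) (by fun_prop) continuous_const).inter
    ((isOpen_lt continuous_const cd).inter (isOpen_lt (cd.const_mul 3) continuous_const))
  have cone : ∀ p ∈ Z, Rg e ρ T p → ∀ q ∈ Z, Rg e ρ T q →
      |⟪q - p, ν⟫| ≤ 10 * ω * ‖pr ν q - pr ν p‖ := fun p hp rp q hq rq => by
    have a1 : |⟪q - p, ν⟫| ≤ 5 * ω * ‖q - p‖ := by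
      rcases le_total ‖q - p‖ (dd e p / 2) with c | c
      · nlinarith [(h1 p hp rp).2.1 q hq c, norm_nonneg (q - p)]
      · rw [inner_sub_left]
        nlinarith [(h1 p hp rp).1, (h1 q hq rq).1, abs_sub ⟪q, ν⟫ ⟪p, ν⟫, dd_le_add he q p]
    nlinarith [pr_dist hν p q, abs_nonneg ⟪q - p, ν⟫]
  have : ∀ x, ∃ s, |s| ≤ dd e (pr ν x) / 2 ∧ (x ∈ V → pr ν x + s • ν ∈ Z) := fun x => by
    have d0 := dd_nonneg e (pr ν x)
    by_cases c : x ∈ V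
    · exact (h2 _ (pr_inner hν x) ⟨by rw [pr_axis en]; exact c.1.le, by linarith [c.2.1],
        by linarith [c.2.2]⟩).imp fun s hs => ⟨hs.1, fun _ => hs.2⟩
    · exact ⟨0, by rw [abs_zero]; positivity, fun g => absurd g c⟩
  choose H H1 H2 using this
  have rg : ∀ x ∈ V, Rg e ρ T (pr ν x + H x • ν) := fun x hx => by
    have := dd_lift he hν (pr ν x) (H x)
    refine ⟨?_, by linarith [hx.2.1, H1 x], by linarith [hx.2.2, H1 x]⟩
    rw [inner_add_left, pr_axis en, real_inner_smul_left, real_inner_comm e ν, en, mul_zero,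
      add_zero]
    exact hx.1.le
  refine ⟨H, H1, fun x x1 x2 x3 => ?_⟩
  have hx : x ∈ V := ⟨x1, x2, x3⟩
  have lip : ∀ y ∈ V, |H y - H x| ≤ 10 * ω * ‖y - x‖ := fun y hy => by
    have := cone _ (H2 x hx) (rg x hx) _ (H2 y hy) (rg y hy)
    rw [inner_sub_left, (pr_lift hν _ _).1, (pr_lift hν _ _).1, (pr_lift hν _ _).2,
      (pr_lift hν _ _).2] at this
    exact this.trans (mul_le_mul_of_nonneg_left (pr_lip hν x y) (by positivity))
  obtain ⟨a1, -, ν', n1, a2⟩ := h1 _ (H2 x hx) (rg x hx)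
  rw [(pr_lift hν _ _).1] at a1
  have c1 : 1 / 2 ≤ ⟪ν, ν'⟫ := by
    have := (abs_le.1 ((abs_inner_le hν _).trans n1)).1
    rw [inner_sub_left, inner_unit hν, real_inner_comm] at this
    linarith
  have hD : HasFDerivAt H (innerSL ℝ (ν - ⟪ν, ν'⟫⁻¹ • ν')) x := by
    refine hasFDerivAt_iff_isLittleO.2 (Asymptotics.isLittleO_iff.2 fun η η0 => ?_)
    obtain ⟨s, s0, a2⟩ := a2 (η / 4) (by positivity)
    filter_upwards [oV.mem_nhds hx, closedBall_mem_nhds x (half_pos s0)] with y hy h3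
    have b1 := pr_dist hν (pr ν x + H x • ν) (pr ν y + H y • ν)
    rw [inner_sub_left, (pr_lift hν _ _).1, (pr_lift hν _ _).1, (pr_lift hν _ _).2,
      (pr_lift hν _ _).2] at b1
    have b2 : ‖pr ν y + H y • ν - (pr ν x + H x • ν)‖ ≤ 2 * ‖y - x‖ := by
      nlinarith [lip y hy, pr_lip hν x y, norm_nonneg (y - x)]
    have b3 := (a2 _ (H2 y hy) (by linarith [mem_closedBall_iff_norm.1 h3])).trans
      (mul_le_mul_of_nonneg_left b2 (by positivity))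
    have b4 : ⟪pr ν y + H y • ν - (pr ν x + H x • ν), ν'⟫ =
        ⟪ν, ν'⟫ * (H y - H x - innerSL ℝ (ν - ⟪ν, ν'⟫⁻¹ • ν') (y - x)) := by
      simp only [pr, innerSL_apply_apply, inner_sub_left, inner_sub_right, inner_add_left,
        real_inner_smul_left, real_inner_smul_right, real_inner_comm x, real_inner_comm y]
      field_simp
      ring
    rw [b4, abs_mul, abs_of_pos (by linarith)] at b3
    rw [Real.norm_eq_abs]
    nlinarith [abs_nonneg (H y - H x - innerSL ℝ (ν - ⟪ν, ν'⟫⁻¹ • ν') (y - x))]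
  refine ⟨H2 x hx, ?_, fun q hq rq e1 => ?_, _, hD, hD.le_of_lip' (by positivity)
    ((oV.eventually_mem hx).mono lip)⟩
  · nlinarith [(dd_lift he hν (pr ν x) (H x)).1, H1 x, dd_nonneg e (pr ν x)]
  · have := cone _ (H2 x hx) (rg x hx) q hq rq
    rw [inner_sub_left, (pr_lift hν _ _).1, (pr_lift hν _ _).2, e1, sub_self, norm_zero,
      mul_zero] at this
    exact sub_eq_zero.1 (abs_nonpos_iff.1 this)

theorem exists_graph (he : ‖e‖ = 1) (hν : ‖ν‖ = 1) (en : ⟪e, ν⟫ = 0) :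
    ∃ K τ ε : ℝ, 1 ≤ K ∧ 0 < τ ∧ τ ≤ 1 ∧ 0 < ε ∧ ∀ (u : E → ℝ) (P : Set E) (δ : ℝ),
      Adm e u P δ → Fl e ν u P δ ε → ∃ G : E → ℝ, (∀ z, ⟪z, ν⟫ = 0 →
        ∃ D : E →L[ℝ] ℝ, HasFDerivAt G D z ∧ ‖D‖ ≤ 1 / 100) ∧ ∀ x, ‖x‖ < τ → K * δ < dd e x →
          (x ∈ P ∧ u x = 0 ↔ ⟪x, ν⟫ = G (pr ν x)) := by
  obtain ⟨M, M0, C⟩ := exists_cut
  obtain ⟨ω, ω0, ω1⟩ : ∃ ω : ℝ, 0 < ω ∧ (10 + 20 * M) * ω ≤ 1 / 100 :=
    ⟨1 / 100 / (10 + 20 * M), by positivity, le_of_eq (by field_simp)⟩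
  have ω2 : ω ≤ 1 / 10 := by nlinarith [mul_pos M0 ω0]
  obtain ⟨K, T, ε, K8, T0, T1, ε0, F⟩ := exists_cone he hν en ω0
  refine ⟨4 * K, T / 5, ε, by linarith, by positivity, by linarith, ε0, fun u P δ h hF => ?_⟩
  obtain ⟨h1, h2⟩ := F u P δ h hF
  obtain ⟨H, H1, H2⟩ := exists_fun he hν en (Z := {p | p ∈ P ∧ u p = 0}) ω0 ω2 h1 h2
  obtain ⟨ρ, hρ⟩ : ∃ ρ, ρ = K * δ := ⟨_, rfl⟩
  obtain ⟨τ, hτ⟩ : ∃ τ, τ = T / 5 := ⟨_, rfl⟩
  have ρ0 : 0 < ρ := hρ ▸ mul_pos (by linarith) h.pos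
  have τ0 : 0 < τ := by linarith
  rw [← hρ] at h1 H2
  rw [mul_assoc, ← hρ, ← hτ]
  clear F h2
  refine ⟨fun x => (2 - (τ ^ 2)⁻¹ * ‖x - 0‖ ^ 2).smoothTransition *
    (((ρ ^ 2)⁻¹ * dd e (x - 0) ^ 2 - 2).smoothTransition * H x), fun z hz => ?_, fun x x1 x2 => ?_⟩
  · rcases lt_or_ge (2 - (τ ^ 2)⁻¹ * ‖z - 0‖ ^ 2) 0 with c1 | c1
    · refine ⟨0, (hasFDerivAt_const 0 z).congr_of_eventuallyEq ((ContinuousAt.eventually_lt
        (f := fun x : E => 2 - (τ ^ 2)⁻¹ * ‖x - 0‖ ^ 2) (by fun_prop) continuousAt_const c1).mono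
          fun y hy => ?_), by simp⟩
      simp only [Real.smoothTransition.zero_of_nonpos hy.le, zero_mul]
    rcases lt_or_ge ((ρ ^ 2)⁻¹ * dd e (z - 0) ^ 2 - 2) 0 with c2 | c2
    · refine ⟨0, (hasFDerivAt_const 0 z).congr_of_eventuallyEq ((ContinuousAt.eventually_lt
        (f := fun x : E => (ρ ^ 2)⁻¹ * dd e (x - 0) ^ 2 - 2) (by fun_prop) continuousAt_const
          c2).mono fun y hy => ?_), by simp⟩
      simp only [Real.smoothTransition.zero_of_nonpos hy.le, zero_mul, mul_zero]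
    have d0 := dd_nonneg e z
    have d1 := dd_le he z
    have a1 : ‖z‖ ^ 2 ≤ τ ^ 2 * 2 := by
      rwa [sub_zero, sub_nonneg, inv_mul_le_iff₀ (by positivity)] at c1
    have a2 : ρ ^ 2 * 2 ≤ dd e z ^ 2 := by
      rwa [sub_zero, sub_nonneg, le_inv_mul_iff₀ (by positivity)] at c2
    have a3 : 3 * ‖z‖ < T := lt_of_pow_lt_pow_left₀ 2 T0.le (by rw [hτ] at a1; nlinarith)
    obtain ⟨-, a4, -, D, hD, nD⟩ := H2 z (by linarith [abs_inner_le he z])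
      (by rw [pr_plane hz]; exact lt_of_pow_lt_pow_left₀ 2 d0 (by nlinarith))
      (by rw [pr_plane hz]; linarith)
    rw [pr_plane hz] at a4
    have j := ((Jet.nsq 0 z).sub (Jet.inn e 0 z).sq).congr_fun
      (Eventually.of_forall fun y => (dd_sq he (y - 0)).symm)
    obtain ⟨D₁, hD₁, nD₁⟩ := C H _ z _ (12 * ω) D _ hD nD
      ((j.const_mul (ρ ^ 2)⁻¹).sub_const 2).hasFDerivAt (by positivity) (fun g => by
        have e1 : (2 : ℝ) • z - (2 * ⟪z, e⟫) • e = (2 : ℝ) • (z - ⟪z, e⟫ • e) := by module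
        rw [sub_zero, sub_le_iff_le_add, inv_mul_le_iff₀ (by positivity)] at g
        rw [innerSL_apply_norm, sub_zero, e1, norm_smul, norm_smul, ← dd, Real.norm_ofNat,
          Real.norm_of_nonneg (by positivity), mul_left_comm, inv_mul_le_iff₀ (by positivity)]
        nlinarith [mul_le_mul_of_nonneg_right a4 d0]) c2
    obtain ⟨D₂, hD₂, nD₂⟩ := C _ _ z _ (8 * ω) D₁ _ hD₁ nD₁
      ((Jet.const 2 z).sub ((Jet.nsq 0 z).const_mul (τ ^ 2)⁻¹)).hasFDerivAt (by positivity)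
      (fun _ => by
        have b1 : |((ρ ^ 2)⁻¹ * dd e (z - 0) ^ 2 - 2).smoothTransition * H z| ≤ 2 * ω * ‖z‖ := by
          rw [abs_mul, abs_of_nonneg (Real.smoothTransition.nonneg _)]
          refine (mul_le_of_le_one_left (abs_nonneg _) (Real.smoothTransition.le_one _)).trans ?_
          nlinarith
        rw [innerSL_apply_norm, zero_sub, norm_neg, norm_smul, norm_smul, Real.norm_ofNat,
          Real.norm_of_nonneg (by positivity), mul_left_comm, inv_mul_le_iff₀ (by positivity),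
          sub_zero z]
        rw [sub_zero z] at b1
        nlinarith [mul_le_mul_of_nonneg_right b1 (norm_nonneg z)]) c1
    exact ⟨D₂, hD₂, by linarith⟩
  have e1 : pr ν x + ⟪x, ν⟫ • ν = x := sub_add_cancel _ _
  have e2 := pr_plane (pr_inner hν x)
  have d1 := (dd_lift he hν (pr ν x) ⟪x, ν⟫).1
  have d2 := dd_le he x
  have d3 := dd_le he (pr ν x)
  have d4 : ‖pr ν x‖ ≤ ‖x‖ := dd_le hν x
  have d5 := abs_inner_le he x
  rw [e1] at d1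
  have key : 2 * ρ < dd e (pr ν x) → (x ∈ P ∧ u x = 0 ↔ ⟪x, ν⟫ =
      (2 - (τ ^ 2)⁻¹ * ‖pr ν x - 0‖ ^ 2).smoothTransition *
        (((ρ ^ 2)⁻¹ * dd e (pr ν x - 0) ^ 2 - 2).smoothTransition * H (pr ν x))) := fun g => by
    obtain ⟨a1, -, a2, -⟩ := H2 (pr ν x) (by rw [pr_axis en]; linarith) (by rw [e2]; linarith)
      (by rw [e2]; linarith)
    rw [sub_zero, Real.smoothTransition.one_of_one_le, Real.smoothTransition.one_of_one_le, one_mul,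
      one_mul]
    · refine ⟨fun c => a2 x c ⟨by linarith, by linarith, by linarith⟩ e2.symm, fun c => ?_⟩
      rwa [e2, ← c, e1] at a1
    · rw [le_sub_iff_add_le, le_inv_mul_iff₀ (by positivity)]
      nlinarith
    · rw [le_sub_comm, inv_mul_le_iff₀ (by positivity)]
      nlinarith [norm_nonneg (pr ν x)]
  refine ⟨fun c => (key ?_).1 c, fun c => (key ?_).2 c⟩
  · nlinarith [(h1 x c ⟨by linarith, by linarith, by linarith⟩).1]
  · have := H1 (pr ν x)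
    rw [c, abs_mul, abs_mul, abs_of_nonneg (Real.smoothTransition.nonneg _),
      abs_of_nonneg (Real.smoothTransition.nonneg _)] at d1
    rw [e2] at this
    linarith [(mul_le_of_le_one_left (mul_nonneg (Real.smoothTransition.nonneg
      ((ρ ^ 2)⁻¹ * dd e (pr ν x - 0) ^ 2 - 2)) (abs_nonneg (H (pr ν x))))
        (Real.smoothTransition.le_one (2 - (τ ^ 2)⁻¹ * ‖pr ν x - 0‖ ^ 2))).trans
      (mul_le_of_le_one_left (abs_nonneg _) (Real.smoothTransition.le_one _))]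

end Pool.Agent.Lib.MP_155f9b_an
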