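import Pool.Agent.Lib.MP_155f9b_an.Lin

/-! Improvement of flatness at free boundary points and its iteration. -/

namespace Pool.Agent.Lib.MP_155f9b_an

open Filter Topology Metric
open scoped RealInnerProductSpace

variable {u : E → ℝ} {P D S : Set E} {p ν : E} {a b : ℝ}

theorem Trap.tilt (h : Trap u P S p ν a b) {ν' : E} {ω ρ : ℝ} (hω : ‖ν - ν'‖ ≤ ω)
    (hS : ∀ x ∈ S, ‖x - p‖ ≤ ρ) : Trap u P S p ν' (a - ω * ρ) (b + ω * ρ) := fun x hx => by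
  have a1 := abs_le.1 ((abs_real_inner_le_norm (x - p) (ν - ν')).trans
    (mul_le_mul (hS x hx) hω (norm_nonneg _) ((norm_nonneg _).trans (hS x hx))))
  rw [inner_sub_right] at a1
  exact ⟨by linarith [(h x hx).1], fun g => by linarith [(h x hx).2 g]⟩

theorem exists_normalize (hν : ‖ν‖ = 1) {w : E} (hw : ⟪w, ν⟫ = 0) :
    ∃ c : ℝ, ‖c • (ν + w)‖ = 1 ∧ ‖ν + w - c • (ν + w)‖ ≤ ‖w‖ ^ 2 ∧
      ‖c • (ν + w) - ν‖ ≤ ‖w‖ + ‖w‖ ^ 2 := by
  have e : ‖ν + w‖ ^ 2 = 1 + ‖w‖ ^ 2 := by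
    rw [norm_add_sq_real, real_inner_comm, hw, hν]
    ring
  have h1 : 1 ≤ ‖ν + w‖ := by nlinarith [norm_nonneg (ν + w)]
  have h0 : 0 < ‖ν + w‖ := by linarith
  have h2 : ‖ν + w - ‖ν + w‖⁻¹ • (ν + w)‖ ≤ ‖w‖ ^ 2 := by
    rw [show ν + w - ‖ν + w‖⁻¹ • (ν + w) = (1 - ‖ν + w‖⁻¹) • (ν + w) by module, norm_smul,
      Real.norm_of_nonneg (sub_nonneg.2 (inv_le_one_of_one_le₀ h1)), sub_mul,
      inv_mul_cancel₀ h0.ne']
    nlinarith
  refine ⟨‖ν + w‖⁻¹, by rw [norm_unscale h0, div_self h0.ne'], h2, ?_⟩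
  rw [show ‖ν + w‖⁻¹ • (ν + w) - ν = w - (ν + w - ‖ν + w‖⁻¹ • (ν + w)) by abel]
  linarith [norm_sub_le w (ν + w - ‖ν + w‖⁻¹ • (ν + w))]

theorem exists_frame {e : E} (he : ‖e‖ = 1) : ∃ β : OrthonormalBasis (Fin 3) ℝ E, β 0 = e := by
  obtain ⟨β, h⟩ := Orthonormal.exists_orthonormalBasis_extension_of_card_eq (𝕜 := ℝ) (E := E)
    (ι := Fin 3) (by simp) (v := fun _ => e) (s := {0})
    ⟨fun _ => he, fun i j h => absurd (Subsingleton.elim i j) h⟩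
  exact ⟨β, h 0 rfl⟩

theorem exists_imp : ∃ σ₀ : ℝ, 0 < σ₀ ∧ ∀ (u : E → ℝ) (P D : Set E) (p ν : E) (r σ : ℝ),
    Visc u P D → 0 < r → closedBall p r ⊆ D → u p ≤ 0 → p ∈ P → ‖ν‖ = 1 → 0 < σ → σ ≤ σ₀ →
      Trap u P (closedBall p r) p ν (-(σ * r)) (σ * r) → ∃ ν', ‖ν'‖ = 1 ∧ ‖ν' - ν‖ ≤ 64 * σ ∧
        Trap u P (closedBall p (r / 2 ^ 15)) p ν' (-(σ / 2 * (r / 2 ^ 15)))
          (σ / 2 * (r / 2 ^ 15)) := by
  obtain ⟨τ, σ₀, -, p0, H⟩ := exists_lin (η := 1 / 2 ^ 22) (by norm_num) (by norm_num)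
  refine ⟨min (σ₀ / 2) (1 / 2 ^ 12), by positivity,
    fun u P D p ν r σ h r0 hD hp hP hν σ0 σ1 hT => ?_⟩
  have σ2 := σ1.trans (min_le_left _ _)
  have σ3 := σ1.trans (min_le_right _ _)
  have r1 := half_pos r0
  obtain ⟨β, rfl⟩ := exists_frame hν
  have sb : ∀ y : E, ‖y‖ ≤ 2 → p + (r / 2) • y ∈ closedBall p r := fun y hy => by
    simpa using scale_closedBall r1 p (mem_closedBall_zero_iff.2 hy)
  obtain ⟨a, b, b1, b2, hb⟩ := H _ _ _ (β 1) (β 0) ((10 : ℝ) • β 2) (2 * σ) (h.scale p r1)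
    (β.orthonormal.1 1) hν (β.orthonormal.2 (by decide))
    (by rw [real_inner_smul_left, β.orthonormal.2 (by decide), mul_zero])
    (by rw [norm_smul, β.orthonormal.1 2]; norm_num) (fun y hy => hD (sb y hy.1)) (by positivity)
    (by linarith) ((hT.scale r1 fun y hy => sb y hy.1).mono subset_rfl
      (le_of_eq (by field_simp)) (le_of_eq (by field_simp)))
  replace hb := (hb (1 / 2 ^ 14) (by norm_num)).mono (S' := closedBall 0 (1 / 2 ^ 14))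
    (fun y hy => ⟨mem_closedBall_zero_iff.1 hy, by
      have a1 := inner_le_dd (β.orthonormal.1 2) (β.orthonormal.2 (show (1 : Fin 3) ≠ 2 by decide))
        (y - (10 : ℝ) • β 2)
      rw [inner_sub_left, real_inner_smul_left, inner_unit (β.orthonormal.1 2)] at a1
      have a2 := (abs_le.1 (abs_inner_le (β.orthonormal.1 2) y)).2
      linarith [(abs_le.1 a1).1, mem_closedBall_zero_iff.1 hy]⟩) le_rfl le_rfl
  obtain ⟨c, c1, c2, c3⟩ := exists_normalize hν (w := (2 * σ) • b)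
    (by rw [real_inner_smul_left, b1, mul_zero])
  have n1 : ‖(2 * σ) • b‖ ≤ 32 * σ := by
    rw [norm_smul, Real.norm_of_nonneg (by positivity)]
    nlinarith
  have n2 := pow_le_pow_left₀ (norm_nonneg _) n1 2
  obtain ⟨a1, a2⟩ := hb 0 (mem_closedBall_self (by positivity))
  simp only [smul_zero, add_zero, sub_zero, inner_zero_left, zero_add, Set.mem_preimage] at a1 a2
  have a3 := mul_nonpos_of_nonneg_of_nonpos (inv_pos.2 r1).le hp
  have a4 := mul_nonneg (inv_pos.2 r1).le (h.nonneg p (hD (mem_closedBall_self r0.le)))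
  refine ⟨_, c1, by nlinarith, (Trap.unscale r1 ((hb.tilt c2 fun y hy =>
    mem_closedBall_iff_norm.1 hy).mono (a' := -(σ / 2 ^ 15)) (b' := σ / 2 ^ 15) subset_rfl
      (by nlinarith [a2 hP]) (by nlinarith)) fun x hx => ?_).mono subset_rfl
      (le_of_eq (by ring)) (le_of_eq (by ring))⟩
  rw [mem_closedBall_zero_iff, norm_unscale r1, div_le_iff₀ r1]
  linarith [mem_closedBall_iff_norm.1 hx]

theorem exists_reg : ∃ σ₀ : ℝ, 0 < σ₀ ∧ ∀ (u : E → ℝ) (P D : Set E) (p ν : E) (r σ : ℝ),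
    Visc u P D → 0 < r → closedBall p r ⊆ D → u p ≤ 0 → p ∈ P → ‖ν‖ = 1 → 0 < σ → σ ≤ σ₀ →
      Trap u P (closedBall p r) p ν (-(σ * r)) (σ * r) → ∃ ν', ‖ν'‖ = 1 ∧ ‖ν' - ν‖ ≤ 128 * σ ∧
        (∀ s, 0 < s → s ≤ r →
          Trap u P (closedBall p s) p ν' (-(2 ^ 23 * σ * s)) (2 ^ 23 * σ * s)) ∧
        ∀ ε, 0 < ε → ∃ s₀, 0 < s₀ ∧ ∀ s, 0 < s → s ≤ s₀ →
          Trap u P (closedBall p s) p ν' (-(ε * s)) (ε * s) := by
  obtain ⟨σ₀, p0, H⟩ := exists_imp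
  refine ⟨σ₀, p0, fun u P D p ν r σ h r0 hD hp hP hν σ0 σ1 hT => ?_⟩
  let Q : ℕ → E → Prop := fun k v => ‖v‖ = 1 ∧ Trap u P (closedBall p ((1 / 2 ^ 15) ^ k * r)) p v
    (-(σ / 2 ^ k * ((1 / 2 ^ 15) ^ k * r))) (σ / 2 ^ k * ((1 / 2 ^ 15) ^ k * r))
  have rk : ∀ k : ℕ, (1 / 2 ^ 15) ^ k * r ≤ r := fun k =>
    mul_le_of_le_one_left r0.le (pow_le_one₀ (by norm_num) (by norm_num))
  have step : ∀ k v, Q k v → ∃ v', Q (k + 1) v' ∧ dist v v' ≤ 128 * σ / 2 / 2 ^ k := by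
    intro k v hv
    obtain ⟨v', h1, h2, h3⟩ := H u P D p v _ (σ / 2 ^ k) h (by positivity)
      ((closedBall_subset_closedBall (rk k)).trans hD) hp hP hv.1 (by positivity)
      ((div_le_self σ0.le (one_le_pow₀ one_le_two)).trans σ1) hv.2
    refine ⟨v', ⟨h1, ?_⟩, by rw [dist_comm, dist_eq_norm]; exact h2.trans_eq (by ring)⟩
    rwa [show (1 / 2 ^ 15 : ℝ) ^ (k + 1) * r = (1 / 2 ^ 15) ^ k * r / 2 ^ 15 by ring,
      pow_succ (2 : ℝ) k, ← div_div]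
  choose! F hF using step
  let v : ℕ → E := fun k => Nat.rec ν F k
  have hv : ∀ k, Q k (v k) := fun k => by
    induction k with
    | zero => exact ⟨hν, by simpa [v] using hT⟩
    | succ k ih => exact (hF k _ ih).1
  have hd : ∀ k, dist (v k) (v (k + 1)) ≤ 128 * σ / 2 / 2 ^ k := fun k => (hF k _ (hv k)).2
  obtain ⟨w, hw⟩ := cauchySeq_tendsto_of_complete (cauchySeq_of_le_geometric_two hd)
  have hw' := dist_le_of_le_geometric_two_of_tendsto hd hw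
  have key : ∀ n : ℕ, ∀ s, 0 < s → s ≤ (1 / 2 ^ 15) ^ n * r →
      Trap u P (closedBall p s) p w (-(2 ^ 23 * σ / 2 ^ n * s)) (2 ^ 23 * σ / 2 ^ n * s) := by
    intro n s s0 s1
    have t0 : 0 < (1 / 2 ^ 15 : ℝ) ^ n * r := by positivity
    obtain ⟨k, k1, k2⟩ := exists_nat_pow_near_of_lt_one (div_pos s0 t0) ((div_le_one t0).2 s1)
      (y := (1 / 2 ^ 15 : ℝ)) (by norm_num) (by norm_num)
    rw [lt_div_iff₀ t0] at k1
    rw [div_le_iff₀ t0, ← mul_assoc, ← pow_add] at k2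
    have e : (128 * σ / 2 ^ (k + n) + σ / 2 ^ (k + n)) * ((1 / 2 ^ 15) ^ (k + n) * r) ≤
        2 ^ 23 * σ / 2 ^ n * s := by
      have a1 : (1 / 2 ^ 15) ^ (k + n) * r ≤ 2 ^ 15 * s := by
        rw [pow_add]
        rw [pow_succ] at k1
        linarith
      have a2 : σ / 2 ^ (k + n) ≤ σ / 2 ^ n :=
        div_le_div_of_nonneg_left σ0.le (by positivity) (pow_le_pow_right₀ one_le_two (by omega))
      refine (mul_le_mul (b := 256 * (σ / 2 ^ n)) ?_ a1 (by positivity) (by positivity)).trans_eq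
        (by ring)
      rw [mul_div_assoc]
      linarith [show 0 < σ / 2 ^ n by positivity]
    exact ((hv (k + n)).2.tilt ((dist_eq_norm _ _).symm.trans_le (hw' _))
      fun x hx => mem_closedBall_iff_norm.1 hx).mono (closedBall_subset_closedBall k2)
      (by linarith) (by linarith)
  refine ⟨w, ?_, by simpa [dist_eq_norm, norm_sub_rev, v] using hw' 0,
    fun s s0 s1 => by simpa using key 0 s s0 (by simpa using s1), fun ε ε0 => ?_⟩
  · exact tendsto_nhds_unique hw.norm (by simpa only [(hv _).1] using tendsto_const_nhds)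
  · obtain ⟨n, hn⟩ := pow_unbounded_of_one_lt (2 ^ 23 * σ / ε) (one_lt_two (α := ℝ))
    rw [div_lt_comm₀ ε0 (by positivity)] at hn
    exact ⟨_, by positivity, fun s s0 s1 => (key n s s0 s1).mono subset_rfl
      (by nlinarith) (by nlinarith)⟩

end Pool.Agent.Lib.MP_155f9b_an
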