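import Mathlib

/-! Second order expansions of real functions on Euclidean three-space. -/

namespace Pool.Agent.Lib.MP_155f9b_an

open Filter Topology Metric Asymptotics
open scoped RealInnerProductSpace

/-- Euclidean three-space -/
abbrev E : Type := EuclideanSpace ℝ (Fin 3)

/-- the standard basis -/
noncomputable abbrev bs : OrthonormalBasis (Fin 3) ℝ E := EuclideanSpace.basisFun (Fin 3) ℝ

/-- the trace of a bilinear form -/
noncomputable def tr (Q : E →L[ℝ] E →L[ℝ] ℝ) : ℝ := ∑ i, Q (bs i) (bs i)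

/-- `φ` has a second order expansion at `x` with gradient `b` and Laplacian `l` -/
def Jet (φ : E → ℝ) (x b : E) (l : ℝ) : Prop :=
  ∃ Q : E →L[ℝ] E →L[ℝ] ℝ, tr Q = l ∧
    (fun h => φ (x + h) - φ x - ⟪b, h⟫ - Q h h / 2) =o[𝓝 0] fun h => ‖h‖ ^ 2

theorem tr_eq (Q : E →L[ℝ] E →L[ℝ] ℝ) (β : OrthonormalBasis (Fin 3) ℝ E) :
    ∑ i, Q (β i) (β i) = tr Q := by
  have k : ∀ β : OrthonormalBasis (Fin 3) ℝ E, ∑ i, Q (β i) (β i) =
      LinearMap.trace ℝ E (InnerProductSpace.continuousLinearMapOfBilin Q : E →L[ℝ] E) := by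
    intro β
    rw [LinearMap.trace_eq_sum_inner _ β]
    refine Finset.sum_congr rfl fun i _ => ?_
    rw [real_inner_comm]
    exact (InnerProductSpace.continuousLinearMapOfBilin_apply Q _ _).symm
  rw [tr, k, k]

/-- the inner product as a bilinear form -/
noncomputable def ib : E →L[ℝ] E →L[ℝ] ℝ := innerSL ℝ

theorem ib_apply (x y : E) : ib x y = ⟪x, y⟫ := rfl

theorem tr_inner : tr ib = 3 := by
  simp [tr, ib_apply]

theorem tr_rank (b : E) : tr ((innerSL ℝ b).smulRight (innerSL ℝ b)) = ‖b‖ ^ 2 := by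
  simp only [tr, ContinuousLinearMap.smulRight_apply, innerSL_apply_apply,
    smul_apply, smul_eq_mul]
  rw [← real_inner_self_eq_norm_sq, ← bs.sum_inner_mul_inner]
  exact Finset.sum_congr rfl fun i _ => by rw [real_inner_comm b (bs i)]

theorem bil_isBigO (Q : E →L[ℝ] E →L[ℝ] ℝ) : (fun h => Q h h) =O[𝓝 0] fun h : E => ‖h‖ ^ 2 :=
  IsBigO.of_bound ‖Q‖ (Eventually.of_forall fun h => by
    have := Q.le_opNorm₂ h h
    rw [Real.norm_of_nonneg (sq_nonneg ‖h‖)]
    linarith)

theorem sq_isLittleO : (fun h : E => ‖h‖ ^ 2) =o[𝓝 0] fun h => h := isLittleO_norm_pow_id one_lt_two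

namespace Jet

variable {φ ψ : E → ℝ} {x b c : E} {l m : ℝ}

theorem congr {b' : E} {l' : ℝ} (h : Jet φ x b l) (hb : b = b') (hl : l = l') : Jet φ x b' l' :=
  hb ▸ hl ▸ h

theorem congr_fun (h : Jet φ x b l) (e : φ =ᶠ[𝓝 x] ψ) : Jet ψ x b l := by
  obtain ⟨Q, t, h⟩ := h
  refine ⟨Q, t, h.congr' ?_ EventuallyEq.rfl⟩
  have : Tendsto (fun h => x + h) (𝓝 0) (𝓝 x) :=
    (continuous_const.add continuous_id).tendsto' 0 x (add_zero x)
  filter_upwards [this.eventually e] with h hh
  rw [hh, e.eq_of_nhds]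

theorem const (a : ℝ) (x : E) : Jet (fun _ => a) x 0 0 :=
  ⟨0, by simp [tr], by simp⟩

theorem inn (v p x : E) : Jet (fun y => ⟪y - p, v⟫) x v 0 :=
  ⟨0, by simp [tr], by simp [inner_sub_left, inner_add_left, real_inner_comm]⟩

theorem nsq (p x : E) : Jet (fun y => ‖y - p‖ ^ 2) x ((2 : ℝ) • (x - p)) 6 := by
  refine ⟨(2 : ℝ) • ib, ?_, ?_⟩
  · have := tr_inner
    simp only [tr, smul_apply, smul_eq_mul, ← Finset.mul_sum] at this ⊢
    linarith
  · refine (isLittleO_zero _ _).congr_left fun h => ?_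
    simp only [add_sub_right_comm x h, norm_add_sq_real, inner_smul_left, smul_apply,
      ib_apply, real_inner_self_eq_norm_sq, conj_trivial, smul_eq_mul]
    ring

theorem add (h : Jet φ x b l) (h' : Jet ψ x c m) :
    Jet (fun y => φ y + ψ y) x (b + c) (l + m) := by
  obtain ⟨Q, t, h⟩ := h
  obtain ⟨Q', t', h'⟩ := h'
  refine ⟨Q + Q', by simp [tr, Finset.sum_add_distrib, ← t, ← t'], (h.add h').congr_left fun h => ?_⟩
  simp only [inner_add_left, add_apply]
  ring

theorem const_mul (a : ℝ) (h : Jet φ x b l) : Jet (fun y => a * φ y) x (a • b) (a * l) := by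
  obtain ⟨Q, t, h⟩ := h
  refine ⟨a • Q, by simp [tr, Finset.mul_sum, ← t], (h.const_mul_left a).congr_left fun h => ?_⟩
  simp only [inner_smul_left, smul_apply, smul_eq_mul, conj_trivial]
  ring

theorem neg (h : Jet φ x b l) : Jet (fun y => -φ y) x (-b) (-l) := by
  simpa using h.const_mul (-1)

theorem sub (h : Jet φ x b l) (h' : Jet ψ x c m) :
    Jet (fun y => φ y - ψ y) x (b - c) (l - m) := by
  simpa [sub_eq_add_neg] using h.add h'.neg

theorem add_const (h : Jet φ x b l) (a : ℝ) : Jet (fun y => φ y + a) x b l := by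
  simpa using h.add (const a x)

theorem sub_const (h : Jet φ x b l) (a : ℝ) : Jet (fun y => φ y - a) x b l := by
  simpa using h.sub (const a x)

theorem first (h : Jet φ x b l) : (fun h => φ (x + h) - φ x - ⟪b, h⟫) =O[𝓝 0] fun h => ‖h‖ ^ 2 := by
  obtain ⟨Q, -, h⟩ := h
  refine (h.isBigO.add ((bil_isBigO Q).const_mul_left (1 / 2))).congr_left fun h => ?_
  ring

theorem hasFDerivAt (h : Jet φ x b l) : HasFDerivAt φ (innerSL ℝ b) x :=
  hasFDerivAt_iff_isLittleO_nhds_zero.2 (h.first.trans_isLittleO sq_isLittleO)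

theorem continuousAt (h : Jet φ x b l) : ContinuousAt φ x := h.hasFDerivAt.continuousAt

theorem comp (h : Jet φ x b l) {f f' : ℝ → ℝ} {a : ℝ} (h1 : ∀ᶠ s in 𝓝 (φ x), HasDerivAt f (f' s) s)
    (h2 : HasDerivAt f' a (φ x)) :
    Jet (fun y => f (φ y)) x (f' (φ x) • b) (f' (φ x) * l + a * ‖b‖ ^ 2) := by
  have T : (fun s => f (φ x + s) - f (φ x) - f' (φ x) * s - a * s ^ 2 / 2) =o[𝓝 0]
      fun s : ℝ => s ^ 2 := by
    obtain ⟨r, r0, hr⟩ := Metric.eventually_nhds_iff_ball.1 h1
    have k := (convex_ball (0 : ℝ) r).isLittleO_pow_succ (n := 1) (mem_ball_self r0)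
      (f := fun s => f (φ x + s) - f' (φ x) * s - a * s ^ 2 / 2)
      (f' := fun s => ContinuousLinearMap.toSpanSingleton ℝ (f' (φ x + s) - f' (φ x) - a * s))
      (fun s hs => by
        have := (((hr (φ x + s) (by simpa using hs)).comp_const_add (φ x) s).sub
          ((hasDerivAt_id s).const_mul (f' (φ x)))).sub
          (((hasDerivAt_pow 2 s).const_mul a).div_const 2)
        exact (this.congr_deriv (by simp; ring)).hasFDerivAt.hasFDerivWithinAt)
      (by
        have := hasDerivAt_iff_isLittleO_nhds_zero.1 h2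
        refine IsLittleO.mono ?_ nhdsWithin_le_nhds
        rw [← isLittleO_norm_left]
        refine (this.norm_norm.congr_left fun s => ?_).congr_right fun s => by simp
        rw [ContinuousLinearMap.norm_toSpanSingleton, smul_eq_mul, mul_comm])
    rw [nhdsWithin_eq_nhds.2 (ball_mem_nhds _ r0)] at k
    refine (k.congr_left fun s => ?_).congr_right fun s => by simp
    ring_nf
  have s1 : (fun h => φ (x + h) - φ x) =O[𝓝 0] fun h : E => ‖h‖ :=
    (h.hasFDerivAt.isBigO_sub.comp_tendsto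
      ((continuous_const.add continuous_id).tendsto' 0 x (add_zero x))).norm_right.congr
      (fun _ => rfl) fun h => by simp
  have s0 : Tendsto (fun h => φ (x + h) - φ x) (𝓝 0) (𝓝 0) :=
    s1.trans_tendsto (continuous_norm.tendsto' 0 0 norm_zero)
  have s2 := (T.comp_tendsto s0).trans_isBigO (s1.pow 2)
  have s3 : (fun h => ⟪b, h⟫) =O[𝓝 0] fun h : E => ‖h‖ := ((innerSL ℝ b).isBigO_id _).norm_right
  have s4 := (h.first.trans_isLittleO sq_isLittleO.norm_right).mul_isBigO (s1.add s3)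
  obtain ⟨Q, t, h⟩ := h
  refine ⟨f' (φ x) • Q + a • (innerSL ℝ b).smulRight (innerSL ℝ b), ?_, ?_⟩
  · rw [← tr_rank, ← t]
    simp [tr, Finset.sum_add_distrib, Finset.mul_sum]
  · refine ((s2.add (h.const_mul_left (f' (φ x)))).add
      ((s4.congr_right fun h => (sq ‖h‖).symm).const_mul_left (a / 2))).congr_left fun h => ?_
    simp only [Function.comp, add_sub_cancel, inner_smul_left, add_apply,
      smul_apply, ContinuousLinearMap.smulRight_apply, innerSL_apply_apply,
      smul_eq_mul, conj_trivial]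
    ring

theorem sq (h : Jet φ x b l) :
    Jet (fun y => φ y ^ 2) x ((2 * φ x) • b) (2 * φ x * l + 2 * ‖b‖ ^ 2) :=
  h.comp (f := fun s => s ^ 2) (f' := fun s => 2 * s)
    (Eventually.of_forall fun s => by simpa using hasDerivAt_pow 2 s)
    (by simpa using (hasDerivAt_id (φ x)).const_mul 2)

theorem mul (h : Jet φ x b l) (h' : Jet ψ x c m) :
    Jet (fun y => φ y * ψ y) x (φ x • c + ψ x • b) (φ x * m + ψ x * l + 2 * ⟪b, c⟫) := by
  refine ((((h.add h').sq.sub (h.sub h').sq).const_mul (1 / 4)).congr_fun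
    (Eventually.of_forall fun y => by ring)).congr ?_ ?_
  · module
  · rw [norm_add_sq_real, norm_sub_sq_real]
    ring

theorem inv (h : Jet φ x b l) (h0 : φ x ≠ 0) :
    Jet (fun y => (φ y)⁻¹) x (-(φ x ^ 2)⁻¹ • b) (-(φ x ^ 2)⁻¹ * l + 2 / φ x ^ 3 * ‖b‖ ^ 2) :=
  h.comp (f := fun s => s⁻¹) (f' := fun s => -(s ^ 2)⁻¹)
    ((eventually_ne_nhds h0).mono fun s hs => hasDerivAt_inv hs)
    (((hasDerivAt_pow 2 (φ x)).inv (pow_ne_zero 2 h0)).neg.congr_deriv (by
      field_simp
      simp [mul_comm]))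

theorem log (h : Jet φ x b l) (h0 : φ x ≠ 0) :
    Jet (fun y => Real.log (φ y)) x ((φ x)⁻¹ • b) ((φ x)⁻¹ * l + -(φ x ^ 2)⁻¹ * ‖b‖ ^ 2) :=
  h.comp (f := Real.log) (f' := fun s => s⁻¹)
    ((eventually_ne_nhds h0).mono fun _ hs => Real.hasDerivAt_log hs) (hasDerivAt_inv h0)

theorem sim (A : E ≃ₗᵢ[ℝ] E) (p : E) (r : ℝ) (h : Jet φ (p + r • A x) b l) :
    Jet (fun y => φ (p + r • A y)) x (r • A.symm b) (r ^ 2 * l) := by
  obtain ⟨Q, t, h⟩ := h
  set T : E →L[ℝ] E := r • (A : E →L[ℝ] E) with hT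
  refine ⟨Q.bilinearComp T T, ?_, ?_⟩
  · rw [← t, ← tr_eq Q (bs.map A), tr, Finset.mul_sum]
    refine Finset.sum_congr rfl fun i _ => ?_
    simp [hT]
    ring
  · have h1 := h.comp_tendsto (T.continuous.tendsto' 0 0 (map_zero T))
    refine (h1.trans_isBigO ((T.isBigO_id _).norm_norm.pow 2)).congr_left fun h => ?_
    simp only [Function.comp, hT, smul_apply, map_add, smul_add, add_assoc,
      ContinuousLinearMap.bilinearComp_apply, inner_smul_left, inner_smul_right, conj_trivial]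
    rw [← A.inner_map_map (A.symm b), A.apply_symm_apply]
    rfl

theorem scale (p : E) (r : ℝ) (h : Jet φ (p + r • x) b l) :
    Jet (fun y => φ (p + r • y)) x (r • b) (r ^ 2 * l) :=
  sim (LinearIsometryEquiv.refl ℝ E) p r h

theorem shift (p : E) (h : Jet φ (p + x) b l) : Jet (fun y => φ (p + y)) x b l := by
  simpa using scale (φ := φ) (x := x) p 1 (by simpa using h)

theorem eq_zero_of_max (h : Jet φ x b l) (hm : IsLocalMax φ x) : b = 0 := by
  have := congrArg (fun L => L b) (hm.hasFDerivAt_eq_zero h.hasFDerivAt)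
  simpa using this

theorem nonpos_of_max (h : Jet φ x b l) (hm : IsLocalMax φ x) : l ≤ 0 := by
  have hb := h.eq_zero_of_max hm
  obtain ⟨Q, t, h⟩ := h
  rw [← t]
  refine Finset.sum_nonpos fun i _ => le_of_forall_pos_le_add fun ε ε0 => ?_
  have c : Tendsto (fun s : ℝ => s • bs i) (𝓝[≠] 0) (𝓝 0) :=
    ((continuous_id.smul continuous_const).tendsto' 0 0 (zero_smul _ _)).mono_left
      nhdsWithin_le_nhds
  have c' : Tendsto (fun h => x + h) (𝓝 0) (𝓝 x) :=
    (continuous_const.add continuous_id).tendsto' 0 x (add_zero x)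
  obtain ⟨s, ⟨h1, h2⟩, h3⟩ := ((c.eventually ((h.def (half_pos ε0)).and (c'.eventually hm))).and
    self_mem_nhdsWithin).exists
  have s0 : 0 < s ^ 2 := sq_pos_of_ne_zero h3
  simp only [hb, inner_zero_left, map_smul, smul_apply, smul_eq_mul, norm_smul,
    bs.orthonormal.1 i, mul_one, Real.norm_eq_abs, sq_abs, abs_of_pos s0] at h1
  have := (abs_le.1 h1).1
  nlinarith

theorem of_contDiffAt (h : ContDiffAt ℝ 2 φ x) :
    Jet φ x (gradient φ x) (Laplacian.laplacian φ x) := by
  refine ⟨fderiv ℝ (fderiv ℝ φ) x, ?_, ?_⟩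
  · rw [InnerProductSpace.laplacian_eq_iteratedFDeriv_orthonormalBasis φ bs, tr]
    simp [iteratedFDeriv_two_apply]
  · have hs := h.isSymmSndFDerivAt (by simp)
    have h2 : HasFDerivAt (fderiv ℝ φ) (fderiv ℝ (fderiv ℝ φ) x) x :=
      ((h.fderiv_right (m := 1) le_rfl).differentiableAt one_ne_zero).hasFDerivAt
    set Q := fderiv ℝ (fderiv ℝ φ) x
    obtain ⟨r, r0, hr⟩ := Metric.eventually_nhds_iff_ball.1 (h.eventually (by simp))
    have k := (convex_ball (0 : E) r).isLittleO_pow_succ (n := 1) (mem_ball_self r0)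
      (f := fun s => φ (x + s) - fderiv ℝ φ x s - (1 / 2 : ℝ) * Q s s)
      (f' := fun s => fderiv ℝ φ (x + s) - fderiv ℝ φ x - Q s)
      (fun s hs' => by
        have a1 := ((hr (x + s) (by simpa using hs')).differentiableAt (by simp)).hasFDerivAt.comp s
          ((hasFDerivAt_id s).const_add x)
        have a2 := ((Q.hasFDerivAt (x := s)).clm_apply (hasFDerivAt_id s)).const_mul (1 / 2 : ℝ)
        refine ((a1.sub (fderiv ℝ φ x).hasFDerivAt).sub a2).hasFDerivWithinAt.congr_fderiv ?_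
        ext v
        have := hs.eq v s
        simp only [Q] at this ⊢
        simp [this]
        ring)
      (by
        refine IsLittleO.mono ?_ nhdsWithin_le_nhds
        exact (hasFDerivAt_iff_isLittleO_nhds_zero.1 h2).norm_right.congr_right fun s => by simp)
    rw [nhdsWithin_eq_nhds.2 (ball_mem_nhds _ r0)] at k
    refine (k.congr_left fun s => ?_).congr_right fun s => by simp
    simp [gradient]
    ring

/-- the quadratic polynomial with given gradient and Hessian at `x` -/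
theorem quad (Q : E →L[ℝ] E →L[ℝ] ℝ) (x b : E) : ∃ G : E → E, Continuous G ∧ G x = b ∧
    ∀ y, Jet (fun z => ⟪b, z - x⟫ + Q (z - x) (z - x) / 2) y (G y) (tr Q) := by
  refine ⟨fun y => b + (1 / 2 : ℝ) •
    InnerProductSpace.continuousLinearMapOfBilin (Q + Q.flip) (y - x), by fun_prop, by simp,
    fun y => ⟨Q, rfl, (isLittleO_zero _ _).congr_left fun h => ?_⟩⟩
  simp only [add_sub_right_comm y h, inner_add_left, inner_add_right, inner_smul_left,
    InnerProductSpace.continuousLinearMapOfBilin_apply, map_add, add_apply,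
    ContinuousLinearMap.flip_apply, conj_trivial]
  ring

/-- A strictly smaller test function with jets at all points. -/
theorem exists_below (h : Jet φ x b l) {ε : ℝ} (hε : 0 < ε) : ∃ (q : E → ℝ) (G : E → E),
    Continuous G ∧ G x = b ∧ q x = φ x ∧ (∀ y, Jet q y (G y) (l - 12 * ε)) ∧
      ∀ᶠ y in 𝓝 x, q y ≤ φ y - ε * ‖y - x‖ ^ 2 := by
  obtain ⟨Q, t, h⟩ := h
  obtain ⟨G, c, g, j⟩ := quad Q x b
  refine ⟨fun z => ⟪b, z - x⟫ + Q (z - x) (z - x) / 2 - 2 * ε * ‖z - x‖ ^ 2 + φ x,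
    fun y => G y - (2 * ε) • (2 : ℝ) • (y - x), by fun_prop, by simp [g], by simp,
    fun y => (((j y).sub ((nsq x y).const_mul (2 * ε))).add_const _).congr rfl (by rw [t]; ring),
    ?_⟩
  have c' : Tendsto (fun y => y - x) (𝓝 x) (𝓝 0) :=
    (continuous_id.sub continuous_const).tendsto' x 0 (sub_self x)
  filter_upwards [c'.eventually (h.def hε)] with y hy
  rw [add_sub_cancel, Real.norm_eq_abs, Real.norm_of_nonneg (sq_nonneg _)] at hy
  linarith [(abs_le.1 hy).1]

end Jet

/-- the reflection in the plane orthogonal to a unit vector -/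
theorem exists_refl {v : E} (hv : ‖v‖ = 1) : ∃ A : E ≃ₗᵢ[ℝ] E, A.symm = A ∧
    ∀ x, A x = x - (2 * ⟪x, v⟫) • v := by
  refine ⟨(ℝ ∙ v)ᗮ.reflection, Submodule.reflection_symm, fun x => ?_⟩
  rw [Submodule.reflection_orthogonal_apply, Submodule.reflection_singleton_apply]
  simp only [hv, real_inner_comm]
  simp
  module

end Pool.Agent.Lib.MP_155f9b_an
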