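import Pool.Agent.Lib.MP_155f9b_an.Rem

/-! Limits of solutions when the radius of the cylinder tends to zero. -/

namespace Pool.Agent.Lib.MP_155f9b_an

open Filter Topology Metric
open scoped RealInnerProductSpace

variable {ι : Type} {l : Filter ι} {u : ι → E → ℝ} {P : ι → Set E} {U : E → ℝ} {Q : Set E}

theorem unif {K : Set E} (hK : IsCompact K) {p : ι × E → Prop}
    (h : ∀ y ∈ K, ∀ᶠ z in l ×ˢ 𝓝 y, p z) : ∀ᶠ j in l, ∀ y ∈ K, p (j, y) :=
  (Eventually.curry (hK.mem_prod_nhdsSet_of_forall h)).mono fun _ h => h.self_of_nhdsSet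

theorem exists_small {x : E} {p : ι × E → Prop} (h : ∀ᶠ z in l ×ˢ 𝓝 x, p z) {q : E → Prop}
    (h' : ∀ᶠ y in 𝓝 x, q y) : ∃ s : ℝ, 0 < s ∧ (∀ y ∈ closedBall x s, q y) ∧
      ∀ᶠ j in l, ∀ y ∈ closedBall x s, p (j, y) := by
  obtain ⟨pa, h1, pb, h2, h3⟩ := eventually_prod_iff.1 h
  obtain ⟨s, s0, hs⟩ := nhds_basis_closedBall.eventually_iff.1 (h2.and h')
  exact ⟨s, s0, fun y hy => (hs hy).2, h1.mono fun j hj y hy => h3 hj (hs hy).1⟩

theorem near_snd {f : E → ℝ} {y : E} (hf : ContinuousAt f y) {η : ℝ} (hη : 0 < η) :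
    ∀ᶠ z in l ×ˢ 𝓝 y, |f z.2 - f y| < η :=
  tendsto_snd.eventually (Metric.tendsto_nhds.1 hf η hη)

theorem VP.limit [l.NeBot] {θ r : ℝ} {x : E} (hr : 0 < r)
    (h1 : ∀ᶠ j in l, VP θ (u j) (ball x r) ∧ ContinuousOn (u j) (ball x r))
    (h2 : ∀ y ∈ ball x r, ∀ η : ℝ, 0 < η → ∀ᶠ z in l ×ˢ 𝓝 y, |u z.1 z.2 - U y| < η) :
    VP θ U {x} := by
  rintro x rfl φ b a j hm a0
  obtain ⟨q, G, cG, g0, q0, jq, hq⟩ := j.exists_below (ε := a / 24) (by positivity)
  have cq : Continuous q := continuous_iff_continuousAt.2 fun y => (jq y).continuousAt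
  by_contra c
  have e1 : ∀ᶠ z in l ×ˢ 𝓝 x, ¬(u z.1 z.2 ≤ 0 ∧ ‖G z.2‖ ≤ θ) := by
    rcases not_and_or.1 c with c | c
    · exact (h2 x (mem_ball_self hr) _ (not_le.1 c)).mono fun z hz g => by
        linarith [(abs_lt.1 hz).1, g.1]
    · exact (near_snd cG.norm.continuousAt (sub_pos.2 (not_le.1 c))).mono fun z hz g => by
        rw [g0] at hz
        linarith [(abs_lt.1 hz).1, g.2]
  obtain ⟨s, s0, k1, k2⟩ := exists_small e1 ((hq.and hm).and (ball_mem_nhds x hr))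
  have p0 : 0 < a / 24 * s ^ 2 / 4 := by positivity
  have k3 := unif (l := l) (isCompact_sphere x s)
    (p := fun z => q z.2 - u z.1 z.2 < φ x - U x - a / 24 * s ^ 2 / 2) fun y hy => by
      obtain ⟨⟨b1, b2⟩, b3⟩ := k1 y (sphere_subset_closedBall hy)
      rw [mem_sphere_iff_norm.1 hy] at b1
      filter_upwards [h2 y b3 _ p0, near_snd cq.continuousAt p0] with z c1 c2
      linarith [(abs_lt.1 c1).1, (abs_lt.1 c2).2]
  obtain ⟨i, ⟨⟨b1, b2⟩, b3⟩, b4, b5⟩ := ((h1.and k2).and (k3.and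
    ((h2 x (mem_ball_self hr) _ p0).curry.mono fun _ h => h.self_of_nhds))).exists
  obtain ⟨w, hw, hmax⟩ := (isCompact_closedBall x s).exists_isMaxOn ⟨x, mem_closedBall_self s0.le⟩
    (cq.continuousOn.sub (b2.mono fun y hy => (k1 y hy).2))
  have b6 : q x - u i x ≤ q w - u i w := hmax (mem_closedBall_self s0.le)
  exact b3 w hw (b1 w (k1 w hw).2 q _ _ (jq w) (hmax.isLocalMax (closedBall_mem_nhds_of_mem
    (lt_of_le_of_ne hw fun e => by linarith [b4 w e, (abs_lt.1 b5).2]))) (by linarith))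

theorem VM.limit {r : ℝ} {x : E} (hr : 0 < r)
    (h1 : ∀ᶠ j in l, VM (u j) (P j) (ball x r) ∧ ContinuousOn (u j) (ball x r) ∧ IsClosed (P j))
    (h2 : ∀ y ∈ ball x r, ∀ η : ℝ, 0 < η → ∀ᶠ z in l ×ˢ 𝓝 y, |u z.1 z.2 - U y| < η)
    (h3 : ∀ y ∈ ball x r, y ∈ Q ↔ ∃ᶠ z in l ×ˢ 𝓝 y, z.2 ∈ P z.1) : VM U Q {x} := by
  rintro x rfl hx φ b a j hm a0
  have a1 : 0 < -a / 24 := by linarith
  obtain ⟨q, G, cG, g0, q0, jq, hq⟩ := j.neg.exists_below a1
  have cq : Continuous q := continuous_iff_continuousAt.2 fun y => (jq y).continuousAt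
  by_contra c
  have e1 : ∀ᶠ z in l ×ˢ 𝓝 x, ¬(u z.1 z.2 ≤ 0 ∧ (-G z.2 = 0 ∨ 1 ≤ ‖-G z.2‖)) := by
    rcases not_and_or.1 c with c | c
    · exact (h2 x (mem_ball_self hr) _ (not_le.1 c)).mono fun z hz g => by
        linarith [(abs_lt.1 hz).1, g.1]
    · rw [not_or, not_le] at c
      filter_upwards [near_snd cG.norm.continuousAt (sub_pos.2 c.2),
        near_snd cG.norm.continuousAt (norm_pos_iff.2 c.1)] with z c1 c2 g
      rw [g0, norm_neg] at c1 c2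
      rcases g.2 with g | g
      · rw [neg_eq_zero.1 g, norm_zero] at c2
        linarith [(abs_lt.1 c2).1]
      · rw [norm_neg] at g
        linarith [(abs_lt.1 c1).2]
  obtain ⟨s, s0, k1, k2⟩ := exists_small e1
    ((hq.and (eventually_nhdsWithin_iff.1 hm)).and (ball_mem_nhds x hr))
  have p0 : 0 < -a / 24 * s ^ 2 / 4 := by positivity
  have k3 := unif (l := l) (isCompact_sphere x s)
    (p := fun z => z.2 ∈ P z.1 → u z.1 z.2 + q z.2 < U x - φ x - -a / 24 * s ^ 2 / 2) fun y hy => by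
      obtain ⟨⟨b1, b2⟩, b3⟩ := k1 y (sphere_subset_closedBall hy)
      rw [mem_sphere_iff_norm.1 hy] at b1
      by_cases g : y ∈ Q
      · filter_upwards [h2 y b3 _ p0, near_snd cq.continuousAt p0] with z c1 c2 _
        linarith [(abs_lt.1 c1).2, (abs_lt.1 c2).2, b2 g]
      · exact (not_frequently.1 (mt (h3 y b3).2 g)).mono fun z c1 c2 => absurd c2 c1
  obtain ⟨⟨i, y⟩, b0, ⟨⟨⟨b1, b2, b2'⟩, b3⟩, b4⟩, b5, b6, b7⟩ :=
    (((h3 x (mem_ball_self hr)).1 hx).and_eventually ((tendsto_fst.eventually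
      ((h1.and k2).and k3)).and ((h2 x (mem_ball_self hr) _ p0).and
      ((near_snd cq.continuousAt p0).and (tendsto_snd.eventually (closedBall_mem_nhds x s0)))))).exists
  obtain ⟨w, hw, hmax⟩ := ((isCompact_closedBall x s).inter_right b2').exists_isMaxOn ⟨y, b7, b0⟩
    (f := fun y => u i y - -q y) ((b2.mono fun y hy => (k1 y hy.1).2).sub cq.neg.continuousOn)
  have b8 : u i y - -q y ≤ u i w - -q w := hmax ⟨b7, b0⟩
  exact b3 w hw.1 (b1 w (k1 w hw.1).2 hw.2 _ _ _ (jq w).neg (mem_of_superset (inter_mem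
    (mem_nhdsWithin_of_mem_nhds (closedBall_mem_nhds_of_mem (lt_of_le_of_ne hw.1 fun e => by
      linarith [b4 w e hw.2, (abs_lt.1 b5).1, (abs_lt.1 b6).1]))) self_mem_nhdsWithin) hmax)
    (by linarith))

theorem exists_lim (l : Ultrafilter ι) {e : E} (he : ‖e‖ = 1) {κ : ι → ℝ} {C : ℝ} (hC : 0 < C)
    (hA : ∀ j, Adm e (u j) (P j) (κ j)) (hκ : Tendsto κ l (𝓝 0))
    (hG : ∀ j x, ‖x‖ < 1 → 2 * κ j ≤ dd e x → u j x ≤ C * dd e x) :
    ∃ (U : E → ℝ) (Q : Set E), Visc U Q (ball 0 1) ∧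
      (∀ x, ‖x‖ < 1 → dd e x = 0 → x ∈ Q ∧ U x = 0) ∧ (∀ x, ‖x‖ < 1 → U x ≤ C * dd e x) ∧
      (∀ x, ‖x‖ < 1 → ∀ η : ℝ, 0 < η → ∀ᶠ z in (l : Filter ι) ×ˢ 𝓝 x,
        2 * κ z.1 ≤ dd e z.2 → |u z.1 z.2 - U x| < η) ∧
      (∀ y, y ∈ Q ↔ ∃ᶠ z in (l : Filter ι) ×ˢ 𝓝 y, z.2 ∈ P z.1 ∧ 2 * κ z.1 ≤ dd e z.2) ∧
      ∀ x, ‖x‖ < 1 → 0 < dd e x → (∀ᶠ z in (l : Filter ι) ×ˢ 𝓝 x, 0 < u z.1 z.2) →
        VP (-1) U {x} := by
  have sm : ∀ a : ℝ, 0 < a → ∀ᶠ j in l, 2 * κ j < a := fun a ha =>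
    (hκ.const_mul 2).eventually_lt_const (by simpa using ha)
  have dom : ∀ j x, ‖x‖ < 1 → 2 * κ j ≤ dd e x → x ∈ {x | ‖x‖ < 1 ∧ κ j < dd e x} :=
    fun j x h1 h2 => ⟨h1, by linarith [(hA j).pos]⟩
  have loc : ∀ x, ‖x‖ < 1 → 0 < dd e x → ∃ r : ℝ, 0 < r ∧
      (∀ y ∈ closedBall x r, ‖y‖ < 1 ∧ 0 < dd e y) ∧
      ∀ᶠ j in l, ∀ y ∈ closedBall x r, 2 * κ j ≤ dd e y := fun x h1 h2 =>
    exists_small (p := fun z => 2 * κ z.1 ≤ dd e z.2) (by
      filter_upwards [tendsto_fst.eventually (sm _ (half_pos h2)),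
        near_snd (continuous_dd e).continuousAt (half_pos h2)] with z c1 c2
      linarith [(abs_lt.1 c2).1]) ((isOpen_dom e 1 0).mem_nhds ⟨h1, h2⟩)
  have ex : ∀ x, ∃ a : ℝ, ‖x‖ < 1 → a ∈ Set.Icc 0 (C * dd e x) ∧
      (0 < dd e x → Tendsto (fun j => u j x) l (𝓝 a)) := by
    intro x
    by_cases c : ‖x‖ < 1 ∧ 0 < dd e x
    · obtain ⟨a, h1, h2⟩ := isCompact_Icc.ultrafilter_le_nhds' (l.map fun j => u j x)
        (s := Set.Icc 0 (C * dd e x)) ((sm _ c.2).mono fun j hj =>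
          ⟨(hA j).visc.nonneg x (dom j x c.1 hj.le), hG j x c.1 hj.le⟩)
      exact ⟨a, fun _ => ⟨h1, fun _ => h2⟩⟩
    · exact ⟨0, fun h => ⟨⟨le_rfl, mul_nonneg hC.le (dd_nonneg e x)⟩, fun g => absurd ⟨h, g⟩ c⟩⟩
  choose U hU using ex
  have conv : ∀ x, ‖x‖ < 1 → ∀ η : ℝ, 0 < η → ∀ᶠ z in (l : Filter ι) ×ˢ 𝓝 x,
      2 * κ z.1 ≤ dd e z.2 → |u z.1 z.2 - U x| < η := by
    intro x hx η η0
    rcases (dd_nonneg e x).eq_or_lt with c | c
    · have z : U x = 0 := le_antisymm (by simpa [← c] using (hU x hx).1.2) (hU x hx).1.1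
      filter_upwards [near_snd (f := fun y => C * dd e y) (by fun_prop) η0, tendsto_snd.eventually
        ((isOpen_lt continuous_norm continuous_const).mem_nhds hx)] with w c1 c2 c3
      rw [← c, mul_zero, sub_zero] at c1
      rw [z, sub_zero, abs_of_nonneg ((hA _).visc.nonneg _ (dom _ _ c2 c3))]
      exact (hG _ _ c2 c3).trans_lt (abs_lt.1 c1).2
    · obtain ⟨r, r0, k1, k2⟩ := loc x hx c
      obtain ⟨θ, θ0, H⟩ := exists_modulus hC (half_pos η0) r0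
      filter_upwards [tendsto_fst.eventually (k2.and (Metric.tendsto_nhds.1 ((hU x hx).2 c) _
        (half_pos η0))), tendsto_snd.eventually (closedBall_mem_nhds x θ0)] with w c1 c2 _
      have := H _ _ _ x (hA w.1).visc (fun y hy => dom _ y (k1 y hy).1 (c1.1 y hy))
        (fun y hy => (hG _ y (k1 y hy).1 (c1.1 y hy)).trans
          (mul_le_of_le_one_right hC.le ((dd_le he y).trans (k1 y hy).1.le))) w.2
        (mem_closedBall_iff_norm.1 c2)
      have c3 := abs_lt.1 (Real.dist_eq _ _ ▸ c1.2)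
      exact abs_lt.2 ⟨by linarith [(abs_le.1 this).1], by linarith [(abs_le.1 this).2]⟩
  have off : ∀ y, ‖y‖ < 1 → 0 < dd e y → ∀ᶠ z in (l : Filter ι) ×ˢ 𝓝 y, 2 * κ z.1 ≤ dd e z.2 := by
    intro y h1 h2
    obtain ⟨r, r0, -, k2⟩ := loc y h1 h2
    filter_upwards [tendsto_fst.eventually k2, tendsto_snd.eventually (closedBall_mem_nhds y r0)]
      with z c1 c2 using c1 _ c2
  have conv' : ∀ y, ‖y‖ < 1 → 0 < dd e y → ∀ η : ℝ, 0 < η →
      ∀ᶠ z in (l : Filter ι) ×ˢ 𝓝 y, |u z.1 z.2 - U y| < η := fun y h1 h2 η η0 =>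
    (off y h1 h2).mp (conv y h1 η η0)
  set Q := {y | ∃ᶠ z in (l : Filter ι) ×ˢ 𝓝 y, z.2 ∈ P z.1 ∧ 2 * κ z.1 ≤ dd e z.2} with hQ
  have nQ : ∀ y, y ∉ Q → ∃ s : ℝ, 0 < s ∧
      ∀ᶠ j in l, ∀ w ∈ closedBall y s, ¬(w ∈ P j ∧ 2 * κ j ≤ dd e w) := fun y hy => by
    obtain ⟨s, s0, -, k⟩ := exists_small (not_frequently.1 hy) (Eventually.of_forall fun _ => trivial)
    exact ⟨s, s0, k⟩
  have hL : Lim e U Q C := by
    refine ⟨⟨isOpen_dom e 1 0, fun x hx => ContinuousAt.continuousWithinAt ?_,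
      fun x hx => (hU x hx.1).1.1, ?_, fun x hx g => ?_, fun x hx => ?_, fun x hx => ?_⟩,
      fun x hx => (hU x hx).1.1, fun x hx => (hU x hx).1.2, fun t s s0 h1 => ?_⟩
    · refine Metric.tendsto_nhds.2 fun η η0 => ?_
      obtain ⟨s, s0, k1, k2⟩ := exists_small (conv' x hx.1 hx.2 _ (half_pos η0))
        ((isOpen_dom e 1 0).mem_nhds hx)
      filter_upwards [closedBall_mem_nhds x s0] with y hy
      exact (le_of_tendsto (((hU y (k1 y hy).1).2 (k1 y hy).2).sub_const (U x)).abs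
        (k2.mono fun j hj => (hj y hy).le)).trans_lt (half_lt_self η0)
    · refine isOpen_compl_iff.1 (isOpen_iff_mem_nhds.2 fun y hy => ?_)
      obtain ⟨s, s0, k⟩ := nQ y hy
      filter_upwards [ball_mem_nhds y s0] with w hw
      refine not_frequently.2 ?_
      filter_upwards [tendsto_fst.eventually k,
        tendsto_snd.eventually (closedBall_mem_nhds_of_mem hw)] with z c1 c2 using c1 _ c2
    · refine Eventually.frequently ?_
      filter_upwards [off x hx.1 hx.2, conv' x hx.1 hx.2 _ g,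
        tendsto_snd.eventually ((isOpen_dom e 1 0).mem_nhds hx)] with z c1 c2 c3
      exact ⟨(hA _).visc.pos _ (dom _ _ c3.1 c1) (by linarith [(abs_lt.1 c2).1]), c1⟩
    · obtain ⟨r, r0, k1, k2⟩ := loc x hx.1 hx.2
      refine VP.limit (l := l) (u := u) r0 (k2.mono fun j hj => ?_)
        (fun y hy => conv' y (k1 y (ball_subset_closedBall hy)).1
          (k1 y (ball_subset_closedBall hy)).2) x rfl
      have := (hA j).visc.mono isOpen_ball fun y (hy : y ∈ ball x r) =>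
        dom j y (k1 y (ball_subset_closedBall hy)).1 (hj y (ball_subset_closedBall hy))
      exact ⟨this.vp, this.cont⟩
    · obtain ⟨r, r0, k1, k2⟩ := loc x hx.1 hx.2
      refine VM.limit (l := l) (u := u) (P := P) r0 (k2.mono fun j hj => ?_)
        (fun y hy => conv' y (k1 y (ball_subset_closedBall hy)).1
          (k1 y (ball_subset_closedBall hy)).2) (fun y hy => ⟨fun g => Frequently.mono g fun _ h => h.1,
          fun g => g.and_eventually (off y (k1 y (ball_subset_closedBall hy)).1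
            (k1 y (ball_subset_closedBall hy)).2)⟩) x rfl
      have := (hA j).visc.mono isOpen_ball fun y (hy : y ∈ ball x r) =>
        dom j y (k1 y (ball_subset_closedBall hy)).1 (hj y (ball_subset_closedBall hy))
      exact ⟨this.vm, this.cont, this.closed⟩
    · by_contra! c
      have cc : IsCompact (circ e t s) := (isCompact_closedBall 0 _).of_isClosed_subset
        ((isClosed_eq (by fun_prop) continuous_const).inter
          (isClosed_eq (continuous_dd e) continuous_const))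
        fun x hx => mem_closedBall_zero_iff.2 (circ_norm he hx)
      obtain ⟨j, c1, c2⟩ := ((unif cc fun y hy => not_frequently.1 (c y hy)).and (sm s s0)).exists
      obtain ⟨x, x1, x2⟩ := (hA j).hitP t s (by linarith [(hA j).pos]) h1
      exact c1 x x1 ⟨x2, x1.2.ge.trans' c2.le⟩
  have ax : ∀ x, ‖x‖ < 1 → dd e x = 0 → x ∈ Q := by
    intro x hx h0
    obtain ⟨t, rfl⟩ : ∃ t : ℝ, x = t • e := ⟨_, sub_eq_zero.1 (norm_eq_zero.1 h0)⟩
    rw [norm_smul, he, mul_one, Real.norm_eq_abs] at hx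
    refine hL.visc.closed.closure_subset (Metric.mem_closure_iff.2 fun ε ε0 => ?_)
    obtain ⟨y, y1, y2⟩ := hL.hitP t (min ε (1 - |t|) / 2) (half_pos (lt_min ε0 (by linarith)))
      (by linarith [min_le_right ε (1 - |t|)])
    exact ⟨y, y2, by rw [dist_comm, dist_eq_norm, circ_dist y1]; linarith [min_le_left ε (1 - |t|)]⟩
  refine ⟨U, Q, hL.remove he ax, fun x h1 h2 => ⟨ax x h1 h2, hL.zero h1 (Or.inl h2)⟩, hL.le, conv,
    fun _ => Iff.rfl, fun x h1 h2 h3 => ?_⟩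
  obtain ⟨r, r0, k1, k2⟩ := exists_small (h3.and (off x h1 h2)) ((isOpen_dom e 1 0).mem_nhds ⟨h1, h2⟩)
  refine VP.limit (l := l) (u := u) r0 (k2.mono fun j hj => ?_)
    fun y hy => conv' y (k1 y (ball_subset_closedBall hy)).1 (k1 y (ball_subset_closedBall hy)).2
  have s1 : ∀ y ∈ ball x r, y ∈ {x | ‖x‖ < 1 ∧ κ j < dd e x} := fun y hy =>
    dom j y (k1 y (ball_subset_closedBall hy)).1 (hj y (ball_subset_closedBall hy)).2
  exact ⟨(hA j).visc.super.mono fun y hy => ⟨s1 y hy, (hj y (ball_subset_closedBall hy)).1⟩,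
    (hA j).visc.cont.mono s1⟩

end Pool.Agent.Lib.MP_155f9b_an
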