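import Pool.Agent.Lib.MP_155f9b_an.Osc

/-! Linear approximation of flat solutions outside a thin tube around a line. -/

namespace Pool.Agent.Lib.MP_155f9b_an

open Filter Topology Metric
open scoped RealInnerProductSpace

/-- the distance from the line through the origin with unit direction `e` -/
noncomputable def dd (e x : E) : ℝ := ‖x - ⟪x, e⟫ • e‖

variable {e ν : E}

theorem dd_nonneg (e x : E) : 0 ≤ dd e x := norm_nonneg _

@[fun_prop] theorem continuous_dd (e : E) : Continuous (dd e) := by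
  unfold dd
  fun_prop

theorem dd_sq (he : ‖e‖ = 1) (x : E) : dd e x ^ 2 = ‖x‖ ^ 2 - ⟪x, e⟫ ^ 2 := by
  rw [dd, norm_sub_sq_real, real_inner_smul_right, norm_smul, he, mul_one, Real.norm_eq_abs, sq_abs]
  ring

theorem dd_le (he : ‖e‖ = 1) (x : E) : dd e x ≤ ‖x‖ :=
  (pow_le_pow_iff_left₀ (dd_nonneg e x) (norm_nonneg x) two_ne_zero).1 (by
    rw [dd_sq he]; nlinarith)

theorem dd_le_add (he : ‖e‖ = 1) (x y : E) : dd e x ≤ dd e y + ‖x - y‖ := by
  refine le_trans ?_ (add_le_add_right (dd_le he (x - y)) _)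
  refine le_trans (le_of_eq ?_) (norm_add_le _ _)
  rw [dd, inner_sub_left]
  congr 1
  module

theorem dd_add (he : ‖e‖ = 1) (t : ℝ) (x : E) : dd e (t • e + x) = dd e x := by
  rw [dd, dd, inner_add_left, real_inner_smul_left, inner_unit he]
  congr 1
  module

theorem dd_smul (e x : E) {r : ℝ} (hr : 0 ≤ r) : dd e (r • x) = r * dd e x := by
  rw [dd, dd, real_inner_smul_left, mul_smul, ← smul_sub, norm_smul, Real.norm_of_nonneg hr]

theorem inner_le_dd (hν : ‖ν‖ = 1) (h : ⟪e, ν⟫ = 0) (x : E) : |⟪x, ν⟫| ≤ dd e x := by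
  have := abs_inner_le hν (x - ⟪x, e⟫ • e)
  rwa [inner_sub_left, real_inner_smul_left, h, mul_zero, sub_zero] at this

theorem jet_log (he : ‖e‖ = 1) {q x : E} (h : 0 < dd e (x - q)) :
    Jet (fun y => Real.log (dd e (y - q))) x
      ((dd e (x - q) ^ 2)⁻¹ • (x - q - ⟪x - q, e⟫ • e)) 0 := by
  have j := ((Jet.nsq q x).sub (Jet.inn e q x).sq).congr_fun
    (Eventually.of_forall fun y => (dd_sq he (y - q)).symm)
  have e1 : (2 : ℝ) • (x - q) - (2 * ⟪x - q, e⟫) • e = (2 : ℝ) • (x - q - ⟪x - q, e⟫ • e) := by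
    module
  rw [e1] at j
  refine (((j.log (pow_pos h 2).ne').const_mul (1 / 2)).congr_fun
    (Eventually.of_forall fun y => by simp)).congr (by module) ?_
  rw [norm_smul, he, Real.norm_ofNat, ← dd]
  field_simp
  ring

theorem exists_sym_net {s η : ℝ} (hs : 0 < s) (hη : 0 < η) : ∃ A : ℝ, 0 < A ∧ ∀ (ν : E) (f : E → ℝ),
    ‖ν‖ = 1 → (∀ z, |f z| ≤ 1) → (∀ z, f (z - (2 * ⟪z, ν⟫) • ν) = f z) → ∃ h G, Harm h G ∧
      (∀ x ∈ closedBall (0 : E) 1, |h x| ≤ 1 + η ∧ ‖G x‖ ≤ A ∧ |⟪G x, ν⟫| ≤ A * |⟪x, ν⟫|) ∧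
      ∀ x ∈ sphere (0 : E) 1, ∀ lo hi : ℝ, (∀ z, ‖z - x‖ < s → lo ≤ f z ∧ f z ≤ hi) →
        lo - η ≤ h x ∧ h x ≤ hi + η := by
  obtain ⟨A, A0, hA⟩ := exists_net hs hη
  refine ⟨16 * A, by positivity, fun ν f hν hf hr => ?_⟩
  obtain ⟨h, G, H, h1, h2⟩ := hA f hf
  obtain ⟨R, R1, R2⟩ := exists_refl hν
  have RR : ∀ x, R (R x) = x := fun x => by nth_rw 1 [← R1]; exact R.symm_apply_apply x
  have H' : Harm (fun y => 1 / 2 * (h y + h (0 + (1 : ℝ) • R y)))
      fun y => (1 / 2 : ℝ) • (G y + (1 : ℝ) • R.symm (G (0 + (1 : ℝ) • R y))) := fun x =>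
    (((H x).add (Jet.sim R 0 1 (H _))).const_mul _).congr rfl (by simp)
  simp only [zero_add, one_smul, R1] at H'
  have h3 : ∀ x ∈ sphere (0 : E) 1, ∀ lo hi : ℝ, (∀ z, ‖z - x‖ < s → lo ≤ f z ∧ f z ≤ hi) →
      lo - η ≤ 1 / 2 * (h x + h (R x)) ∧ 1 / 2 * (h x + h (R x)) ≤ hi + η := by
    intro x hx lo hi hl
    have a1 := h2 x hx lo hi hl
    have a2 := h2 (R x) (by simpa using hx) lo hi fun z hz => by
      rw [← hr z, ← R2]
      exact hl _ (by rwa [← R.norm_map, map_sub, RR])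
    exact ⟨by linarith [a1.1, a2.1], by linarith [a1.2, a2.2]⟩
  have h4 : ∀ x ∈ closedBall (0 : E) 4, |1 / 2 * (h x + h (R x))| ≤ A := fun x hx => by
    have a1 := abs_le.1 (h1 x hx)
    have a2 := abs_le.1 (h1 (R x) (by simpa using hx))
    exact abs_le.2 ⟨by linarith [a1.1, a2.1], by linarith [a1.2, a2.2]⟩
  have z0 : VP (-1) (fun _ : E => (0 : ℝ)) (ball 0 1) :=
    (Harm.vp (G := fun _ => 0) fun x => Jet.const 0 x).mono (Set.subset_univ _)
  refine ⟨_, _, H', fun x hx => ⟨?_, ?_, ?_⟩, h3⟩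
  · simpa using H'.abs_le z0 (by simpa using z0) continuousOn_const (η := 1 + η) (fun y hy => by
      have := h3 y hy (-1) 1 fun z _ => abs_le.1 (hf z)
      rw [sub_zero]
      exact abs_le.2 ⟨by linarith [this.1], this.2⟩) x hx
  · refine (H'.grad_le A0 (c := 0) two_pos (by rwa [two_mul, two_add_two_eq_four])
      (closedBall_subset_ball one_lt_two hx)).trans (by linarith)
  · have x1 := mem_closedBall_zero_iff.1 hx
    have a1 := H'.grad_lip A0 one_pos (by rwa [mul_one]) x1 ((dd_le hν x).trans x1)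
    have a2 : R (x - ⟪x, ν⟫ • ν) = x - ⟪x, ν⟫ • ν := by
      rw [R2, inner_sub_left, real_inner_smul_left, inner_unit hν]
      module
    rw [sub_sub_cancel, norm_smul ⟪x, ν⟫, hν, a2] at a1
    have a3 := (abs_inner_le hν _).trans a1
    rw [inner_sub_left, real_inner_smul_left (G _ + R (G (x - _))), inner_add_left, R2 (G (x - _)),
      inner_sub_left, real_inner_smul_left ν, inner_unit hν] at a3
    ring_nf at a3 ⊢
    exact a3

theorem exists_chi {η : ℝ} (hη : 0 < η) (h1 : η ≤ 1) : ∃ τ B : ℝ, 0 < τ ∧ 2 * τ ≤ η ∧ 0 < B ∧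
    ∀ e ν q : E, ‖e‖ = 1 → ‖ν‖ = 1 → ⟪e, ν⟫ = 0 → ⟪q, ν⟫ = 0 → ‖q‖ ≤ 10 → ∃ χ : E → ℝ,
      ∀ x, ‖x‖ ≤ 1 → 2 * τ ≤ dd e (x - q) → χ x ≤ -2 * η ∧ (dd e (x - q) = 2 * τ → χ x ≤ -3) ∧
        (η ≤ dd e (x - q) → -6 * η ≤ χ x) ∧
        ∃ c, Jet χ x c (6 * η) ∧ ‖c‖ ≤ B ∧ η - B * |⟪x, ν⟫| ≤ ⟪c, ν⟫ := by
  have l0 : 0 < Real.log 20 - Real.log η :=
    sub_pos.2 (Real.log_lt_log hη (by linarith))
  set k := η / (Real.log 20 - Real.log η) with hk
  have k0 : 0 < k := by positivity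
  obtain ⟨τ, τ0, τ1, τ2⟩ : ∃ τ : ℝ, 0 < τ ∧ τ ≤ η / 2 ∧ τ ≤ 10 * Real.exp (-3 / k) :=
    ⟨min _ _, by positivity, min_le_left _ _, min_le_right _ _⟩
  refine ⟨τ, 3 + k / τ + k / τ ^ 2, τ0, by linarith, by positivity, fun e ν q he hν en qn hq =>
    ⟨fun x => η * ⟪x - 0, ν⟫ + η * ‖x - 0‖ ^ 2 + k * Real.log (dd e (x - q)) -
      (k * Real.log 20 + 4 * η), fun x hx hd => ?_⟩⟩
  have d0 : 0 < dd e (x - q) := by linarith
  have t1 := abs_le.1 ((abs_inner_le hν x).trans hx)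
  have n1 : ‖x‖ ^ 2 ≤ 1 := pow_le_one₀ (norm_nonneg x) hx
  have b1 : η * ⟪x - 0, ν⟫ + η * ‖x - 0‖ ^ 2 ≤ 2 * η := by rw [sub_zero]; nlinarith
  refine ⟨?_, fun g => ?_, fun g => ?_, _, ((((Jet.inn ν 0 x).const_mul η).add
    ((Jet.nsq 0 x).const_mul η)).add ((jet_log he d0).const_mul k)).sub_const _ |>.congr rfl
      (by ring), ?_, ?_⟩
  · have := Real.log_le_log d0 (show dd e (x - q) ≤ 20 by
      linarith [dd_le he (x - q), norm_sub_le x q])
    nlinarith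
  · have := Real.log_le_log d0 (show dd e (x - q) ≤ 20 * Real.exp (-3 / k) by linarith)
    rw [Real.log_mul (by norm_num) (Real.exp_ne_zero _), Real.log_exp] at this
    have := mul_le_mul_of_nonneg_left this k0.le
    rw [mul_add, mul_div_cancel₀ _ k0.ne'] at this
    linarith
  · have := mul_le_mul_of_nonneg_left (Real.log_le_log hη g) k0.le
    have e1 : k * (Real.log 20 - Real.log η) = η := div_mul_cancel₀ _ l0.ne'
    simp only [sub_zero]
    nlinarith [sq_nonneg ‖x‖]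
  · refine (norm_add₃_le).trans ?_
    simp only [norm_smul, hν, sub_zero, Real.norm_of_nonneg hη.le, Real.norm_of_nonneg k0.le,
      Real.norm_ofNat, ← dd.eq_1, norm_inv, norm_pow, Real.norm_of_nonneg d0.le]
    have : k * ((dd e (x - q) ^ 2)⁻¹ * dd e (x - q)) ≤ k / τ := by
      rw [show k * ((dd e (x - q) ^ 2)⁻¹ * dd e (x - q)) = k / dd e (x - q) by field_simp]
      gcongr
      linarith
    have : 0 < k / τ ^ 2 := by positivity
    nlinarith [norm_nonneg x]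
  · simp only [inner_add_left, real_inner_smul_left, inner_sub_left (x - q), inner_sub_left x q,
      en, qn, inner_unit hν, sub_zero, mul_zero]
    have a1 : k * (dd e (x - q) ^ 2)⁻¹ ≤ k / τ ^ 2 := by
      rw [← div_eq_mul_inv]
      gcongr
      linarith
    have a2 : 0 < k * (dd e (x - q) ^ 2)⁻¹ := by positivity
    have a3 : 0 < k / τ := by positivity
    have a4 := neg_abs_le ⟪x, ν⟫
    have a5 := abs_nonneg ⟪x, ν⟫
    nlinarith [mul_le_mul_of_nonneg_left a4 a2.le, mul_le_mul_of_nonneg_left a4 hη.le,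
      mul_le_mul_of_nonneg_right a1 a5, mul_le_mul_of_nonneg_right h1 a5, mul_nonneg a3.le a5]

theorem exists_lin {η : ℝ} (hη : 0 < η) (h1 : η ≤ 1) : ∃ τ σ₀ : ℝ, 0 < τ ∧ 0 < σ₀ ∧
    ∀ (u : E → ℝ) (P D : Set E) (e ν q : E) (σ : ℝ), Visc u P D → ‖e‖ = 1 → ‖ν‖ = 1 →
      ⟪e, ν⟫ = 0 → ⟪q, ν⟫ = 0 → ‖q‖ ≤ 10 → {x | ‖x‖ ≤ 2 ∧ τ ≤ dd e (x - q)} ⊆ D → 0 < σ →
      σ ≤ σ₀ → Trap u P {x | ‖x‖ ≤ 2 ∧ τ ≤ dd e (x - q)} 0 ν (-σ) σ →
      ∃ (a : ℝ) (b : E), ⟪b, ν⟫ = 0 ∧ ‖b‖ ≤ 16 ∧ ∀ ρ, ρ ≤ 1 / 4 →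
        Trap u P {x | ‖x‖ ≤ ρ ∧ η ≤ dd e (x - q)} 0 (ν + σ • b)
          (σ * a - σ * (512 * ρ ^ 2 + 6 * η)) (σ * a + σ * (512 * ρ ^ 2 + 6 * η)) := by
  obtain ⟨τ, B, τ0, τ1, B0, hχ⟩ := exists_chi hη h1
  obtain ⟨s, s0, s1, hs⟩ := exists_osc (half_pos hη)
  obtain ⟨A, A0, hA⟩ := exists_sym_net (s := s * τ / 4) (by positivity) hη
  obtain ⟨σ₀, p0, p1, p2, p3⟩ : ∃ σ₀ : ℝ, 0 < σ₀ ∧ σ₀ ≤ s * τ / 32 ∧ σ₀ ≤ η / (4 * (A + B)) ∧
      σ₀ ≤ η / (2 * (A + B) ^ 2) :=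
    ⟨min _ (min _ _), by positivity, min_le_left _ _, (min_le_right _ _).trans (min_le_left _ _),
      (min_le_right _ _).trans (min_le_right _ _)⟩
  refine ⟨τ, σ₀, τ0, p0, fun u P D e ν q σ h he hν en qn hq hD σ0 σ1 hT => ?_⟩
  replace p1 := σ1.trans p1
  replace p2 := (le_div_iff₀ (by positivity)).1 (σ1.trans p2)
  replace p3 := (le_div_iff₀ (by positivity)).1 (σ1.trans p3)
  obtain ⟨χ, hχ⟩ := hχ e ν q he hν en qn hq
  set up : E → E := fun z => z + (|⟪z, ν⟫| - ⟪z, ν⟫ + 2 * σ) • ν with hup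
  obtain ⟨H, G, hH, h2, h3⟩ := hA ν (fun z => max (-1) (min 1 ((u (up z) - ⟪up z - 0, ν⟫) / σ))) hν
    (fun z => abs_le.2 ⟨le_max_left _ _, max_le (by norm_num) (min_le_left _ _)⟩) (fun z => by
      have : up (z - (2 * ⟪z, ν⟫) • ν) = up z := by
        simp only [hup, inner_sub_left, real_inner_smul_left, inner_unit hν]
        rw [show ⟪z, ν⟫ - 2 * ⟪z, ν⟫ * 1 = -⟪z, ν⟫ by ring, abs_neg]
        module
      rw [this])
  set K := closedBall (0 : E) 1 ∩ {x | 2 * τ ≤ dd e (x - q)} with hK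
  have Kc : IsCompact K :=
    (isCompact_closedBall 0 1).inter_right (isClosed_le continuous_const (by fun_prop))
  have KS : ∀ x ∈ K, closedBall x τ ⊆ {x | ‖x‖ ≤ 2 ∧ τ ≤ dd e (x - q)} := fun x hx y hy => by
    have a1 := mem_closedBall_iff_norm.1 hy
    have a2 := dd_le_add he (x - q) (y - q)
    rw [sub_sub_sub_cancel_right, norm_sub_rev] at a2
    exact ⟨by linarith [norm_le_norm_sub_add y x, mem_closedBall_zero_iff.1 hx.1],
      by linarith [show 2 * τ ≤ dd e (x - q) from hx.2]⟩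
  have KS' : ∀ x ∈ K, x ∈ {x | ‖x‖ ≤ 2 ∧ τ ≤ dd e (x - q)} := fun x hx =>
    KS x hx (mem_closedBall_self τ0.le)
  replace hχ := fun x (hx : x ∈ K) => hχ x (mem_closedBall_zero_iff.1 hx.1) hx.2
  have cχ : ContinuousOn χ K := fun x hx =>
    (hχ x hx).2.2.2.choose_spec.1.continuousAt.continuousWithinAt
  have cH := hH.continuous
  have bd : ∀ x ∈ K, (⟪x - 0, ν⟫ + σ * (H x + χ x) ≤ u x ∧
      (x ∈ P → u x ≤ ⟪x - 0, ν⟫ + σ * (H x - χ x))) ∨ K ∈ 𝓝 x := by
    intro x hx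
    have a0 := abs_le.1 (h2 x hx.1).1
    have a1 := hT x (KS' x hx)
    have a2 := h.nonneg x (hD (KS' x hx))
    have a3 := (hχ x hx).1
    rcases (show 2 * τ ≤ dd e (x - q) from hx.2).eq_or_lt with c | c
    · have a4 := (hχ x hx).2.1 c.symm
      exact Or.inl ⟨by nlinarith [a1.1], fun g => by nlinarith [a1.2 g]⟩
    rcases (mem_closedBall_zero_iff.1 hx.1).eq_or_lt with c' | c'
    swap
    · exact Or.inr (inter_mem (closedBall_mem_nhds_of_mem (mem_ball_zero_iff.2 c'))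
        (ge_nhds (f := fun x => dd e (x - q)) (by fun_prop) c))
    left
    rcases lt_or_ge ⟪x - 0, ν⟫ (-(3 * σ)) with g | g
    · exact ⟨by nlinarith, fun g => by linarith [a1.2 g]⟩
    obtain ⟨a, ha⟩ := hs u P D 0 x ν τ (-σ) (2 * σ) h ((KS x hx).trans hD) hν (by positivity)
      (by nlinarith [mul_pos s0 τ0]) (hT.mono (ball_subset_closedBall.trans (KS x hx)) le_rfl
        (by linarith))
    have a5 := ha x (mem_ball_self (by positivity))
    have a6 := h3 x (mem_sphere_zero_iff_norm.2 c') (a / σ) (a / σ + η) fun z hz => by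
      have b1 := (abs_le.1 (abs_inner_le hν (z - x))).1
      rw [sub_zero] at g
      rw [inner_sub_left] at b1
      have b2 : up z ∈ ball x (s * τ) := by
        rw [mem_ball_iff_norm, hup, add_sub_right_comm]
        refine (norm_add_le _ _).trans_lt ?_
        rw [norm_smul, hν, Real.norm_of_nonneg (by linarith [le_abs_self ⟪z, ν⟫])]
        rcases abs_cases ⟪z, ν⟫ with c | c <;> linarith [c.1, c.2, norm_nonneg (z - x)]
      have b3 := KS x hx (ball_subset_closedBall (ball_subset_ball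
        (mul_le_of_le_one_left τ0.le s1) b2))
      have b4 : ⟪up z - 0, ν⟫ = |⟪z, ν⟫| + 2 * σ := by
        simp only [hup, sub_zero, inner_add_left, real_inner_smul_left, inner_unit hν]
        ring
      have b5 := (hT _ b3).1
      have b6 := h.pos _ (hD b3) (by linarith [abs_nonneg ⟪z, ν⟫])
      have b7 := (hT _ b3).2 b6
      have b8 := ha _ b2
      rw [min_eq_right (by rw [div_le_one σ0]; linarith),
        max_eq_right (by rw [le_div_iff₀ σ0]; linarith)]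
      refine ⟨div_le_div_of_nonneg_right (by linarith [b8.1]) σ0.le, ?_⟩
      rw [div_le_iff₀ σ0, add_mul, div_mul_cancel₀ _ σ0.ne']
      linarith [b8.2 b6]
    have a7 := mul_le_mul_of_nonneg_left a6.1 σ0.le
    have a8 := mul_le_mul_of_nonneg_left a6.2 σ0.le
    rw [mul_sub, mul_div_cancel₀ _ σ0.ne'] at a7
    rw [mul_add, mul_add, mul_div_cancel₀ _ σ0.ne'] at a8
    exact ⟨by nlinarith [a5.1], fun g => by nlinarith [a5.2 g]⟩
  have lo := h.vp.cmp Kc (h.cont.mono fun x hx => hD (KS' x hx))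
    (φ := fun x => ⟪x - 0, ν⟫ + σ * (H x + χ x))
    (ContinuousOn.add (by fun_prop) (continuousOn_const.mul (cH.continuousOn.add cχ)))
    fun x hx g => by
      obtain ⟨a1, -, -, c, j, a2, a3⟩ := hχ x hx
      obtain ⟨a4, a5, a6⟩ := h2 x hx.1
      refine ⟨(bd x hx).resolve_left fun b => g.not_ge b.1, hD (KS' x hx), _, _,
        (Jet.inn ν 0 x).add (((hH x).add j).const_mul σ), by positivity,
        fun g' => one_lt_norm hν ?_⟩
      have a7 := (hT x (KS' x hx)).1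
      have a8 := h.nonneg x (hD (KS' x hx))
      simp only [sub_zero] at g a7
      have a9 : |⟪x, ν⟫| ≤ 2 * σ := abs_le.2 ⟨by nlinarith [(abs_le.1 a4).2], by linarith⟩
      rw [real_inner_smul_left, inner_add_left]
      refine mul_pos σ0 ?_
      nlinarith [(abs_le.1 a6).1, mul_le_mul_of_nonneg_left a9 (add_pos A0 B0).le]
  have hi := h.vm.cmp h.closed Kc (h.cont.mono fun x hx => hD (KS' x hx))
    (φ := fun x => ⟪x - 0, ν⟫ + σ * (H x - χ x))
    (ContinuousOn.add (by fun_prop) (continuousOn_const.mul (cH.continuousOn.sub cχ)))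
    fun x hx hP g => by
      obtain ⟨a1, -, -, c, j, a2, a3⟩ := hχ x hx
      obtain ⟨a4, a5, a6⟩ := h2 x hx.1
      refine ⟨mem_nhdsWithin_of_mem_nhds ((bd x hx).resolve_left fun b => g.not_ge (b.2 hP)),
        hD (KS' x hx), _, _, (Jet.inn ν 0 x).add (((hH x).sub j).const_mul σ), by
          nlinarith [mul_pos σ0 hη], fun g' => ?_⟩
      have a7 := hT x (KS' x hx)
      have a8 := h.nonneg x (hD (KS' x hx))
      simp only [sub_zero] at a7
      have a9 : |⟪x, ν⟫| ≤ 2 * σ := abs_le.2 ⟨by linarith [a7.2 hP], by linarith [a7.1]⟩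
      have b1 : ‖σ • (G x - c)‖ ≤ σ * (A + B) := by
        rw [norm_smul, Real.norm_of_nonneg σ0.le]
        exact mul_le_mul_of_nonneg_left ((norm_sub_le _ _).trans (add_le_add a5 a2)) σ0.le
      refine norm_lt_one hν (by linarith) ?_
      have b2 := pow_le_pow_left₀ (norm_nonneg _) b1 2
      have b3 : ⟪G x - c, ν⟫ ≤ -(η / 2) := by
        rw [inner_sub_left]
        nlinarith [(abs_le.1 a6).2, mul_le_mul_of_nonneg_left a9 (add_pos A0 B0).le]
      rw [real_inner_smul_left]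
      nlinarith [mul_le_mul_of_nonneg_left b3 σ0.le, mul_le_mul_of_nonneg_left p3 σ0.le,
        mul_pos σ0 hη]
  have hb : ∀ x ∈ closedBall (0 : E) 1, |H x| ≤ 2 := fun x hx => by linarith [(h2 x hx).1]
  refine ⟨H 0, G 0, by simpa using (h2 0 (mem_closedBall_self zero_le_one)).2.2, ?_,
    fun ρ hρ x hx => ?_⟩
  · exact (hH.grad_le two_pos (c := 0) one_half_pos (by simpa using hb)
      (mem_ball_self one_half_pos)).trans (by norm_num)
  · have a1 : x ∈ K := ⟨mem_closedBall_zero_iff.2 (by linarith [hx.1]), τ1.trans hx.2⟩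
    have a2 := abs_le.1 (hH.taylor two_pos (R := 1 / 4) (by norm_num) (by simpa using hb)
      (hx.1.trans hρ))
    have a3 := (hχ x a1).2.2.1 hx.2
    have a4 := pow_le_pow_left₀ (norm_nonneg x) hx.1 2
    have a5 := lo x a1
    have a6 := hi x a1
    simp only [sub_zero, inner_add_right, real_inner_smul_right] at a5 a6 ⊢
    norm_num at a2
    exact ⟨by nlinarith [a2.1], fun g => by nlinarith [a2.2, a6 g]⟩

end Pool.Agent.Lib.MP_155f9b_an
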