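import Pool.Agent.Lib.MP_155f9b_an.Lim

/-! Two consequences of compactness: flatness passes to smaller scales, initial flatness. -/

namespace Pool.Agent.Lib.MP_155f9b_an

open Filter Topology Metric
open scoped RealInnerProductSpace

/-- a closed ball minus the cylinder of twice the radius -/
def reg (e p : E) (r κ : ℝ) : Set E := {x | ‖x - p‖ ≤ r ∧ 2 * κ ≤ dd e x}

theorem half_space {U : E → ℝ} {Q : Set E} {ν : E} {M : ℝ} (h : Visc U Q (ball 0 1)) (h0 : 0 ∈ Q)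
    (u0 : U 0 = 0) (hν : ‖ν‖ = 1) (hQ : ∀ x ∈ Q, ‖x‖ < 1 → 0 ≤ ⟪x, ν⟫)
    (hs : VP (-1) U {x | ‖x‖ < 1 ∧ 0 < ⟪x, ν⟫}) (M0 : 0 < M) (hM : ∀ x, ‖x‖ < 1 → U x ≤ M) :
    ∀ x ∈ closedBall (0 : E) (1 / 8), ⟪x, ν⟫ - 1024 * (M + 1) * ‖x‖ ^ 2 ≤ U x ∧
      (x ∈ Q → U x ≤ ⟪x, ν⟫ + 1024 * (M + 1) * ‖x‖ ^ 2) := by
  have nn : ∀ x, ‖x‖ < 1 → 0 ≤ U x := fun x hx => h.nonneg x (mem_ball_zero_iff.2 hx)
  have z : ∀ x, ‖x‖ < 1 → ⟪x, ν⟫ ≤ 0 → U x = 0 := by
    intro x hx g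
    have c : Tendsto (fun t : ℝ => x - t • ν) (𝓝[>] 0) (𝓝 x) :=
      (Continuous.tendsto' (by fun_prop) _ _ (by simp)).mono_left nhdsWithin_le_nhds
    refine tendsto_nhds_unique_of_eventuallyEq ((h.cont.continuousAt (isOpen_ball.mem_nhds
      (mem_ball_zero_iff.2 hx))).tendsto.comp c) tendsto_const_nhds ?_
    filter_upwards [c.eventually (isOpen_ball.mem_nhds (mem_ball_zero_iff.2 hx)),
      self_mem_nhdsWithin] with t a1 a2
    refine h.zero a1 fun g' => ?_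
    have := hQ _ g' (mem_ball_zero_iff.1 a1)
    rw [inner_sub_left, real_inner_smul_left, inner_unit hν] at this
    linarith [show 0 < t from a2]
  obtain ⟨R, R1, R2⟩ := exists_refl hν
  have RR : ∀ x, R (R x) = x := fun x => by nth_rw 1 [← R1]; exact R.symm_apply_apply x
  have sb : closedBall (0 : E) (1 / 2) ⊆ ball 0 1 := closedBall_subset_ball (by norm_num)
  have s1 : ∀ n : ℕ, ∃ a ∈ Set.Icc (-(16 * (M + 1))) (16 * (M + 1)), ∀ x, ‖x‖ ≤ 1 / 8 →
      0 ≤ ⟪x, ν⟫ → |U x - a * ⟪x, ν⟫| ≤ 1024 * (M + 1) * ‖x‖ ^ 2 + 1 / (n + 1) := by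
    intro n
    have η0 : (0 : ℝ) < 1 / (n + 1) := by positivity
    have η1 : (1 : ℝ) / (n + 1) ≤ 1 := by
      rw [div_le_one (by positivity)]; linarith [n.cast_nonneg (α := ℝ)]
    generalize (1 : ℝ) / (n + 1) = η at η0 η1
    obtain ⟨H, G, hH, hb⟩ := exists_harm 0 one_half_pos (fun x => U x - U (R x))
      ((h.cont.mono (sphere_subset_closedBall.trans sb)).sub (h.cont.comp R.continuous.continuousOn
        fun x hx => by simpa using sb (sphere_subset_closedBall hx))) η0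
    have H' : Harm (fun y => 1 / 2 * (H y - H (0 + (1 : ℝ) • R y)))
        fun y => (1 / 2 : ℝ) • (G y - (1 : ℝ) • R.symm (G (0 + (1 : ℝ) • R y))) := fun x =>
      (((hH x).sub (Jet.sim R 0 1 (hH _))).const_mul _).congr rfl (by simp)
    simp only [zero_add, one_smul, R1] at H'
    have b1 : ∀ x ∈ sphere (0 : E) (1 / 2),
        |1 / 2 * (H x - H (R x)) - (U x - U (R x))| ≤ η := fun x hx => by
      have a1 := abs_le.1 (hb x hx)
      have a2 := abs_le.1 (hb (R x) (by simpa using hx))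
      rw [RR] at a2
      exact abs_le.2 ⟨by linarith, by linarith⟩
    have z0 : VP (-1) (fun _ : E => (0 : ℝ)) (ball 0 (1 / 2)) :=
      (Harm.vp (G := fun _ => 0) fun x => Jet.const 0 x).mono (Set.subset_univ _)
    have b2 := H'.abs_le z0 (by simpa using z0) continuousOn_const (η := M + 1) fun x hx => by
      have x1 : ‖x‖ < 1 := by linarith [mem_sphere_zero_iff_norm.1 hx]
      have x2 : ‖R x‖ < 1 := by simpa using x1
      have a1 := abs_le.1 (b1 x hx)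
      exact abs_le.2 ⟨by linarith [nn x x1, hM _ x2], by linarith [hM x x1, nn _ x2]⟩
    simp only [sub_zero] at b2
    have Kc : IsCompact (closedBall (0 : E) (1 / 2) ∩ {x | 0 ≤ ⟪x, ν⟫}) :=
      (isCompact_closedBall 0 _).inter_right (isClosed_le continuous_const (by fun_prop))
    have b3 : ∀ x ∈ closedBall (0 : E) (1 / 2) ∩ {x | 0 ≤ ⟪x, ν⟫},
        η < |1 / 2 * (H x - H (R x)) - U x| →
        closedBall (0 : E) (1 / 2) ∩ {x | 0 ≤ ⟪x, ν⟫} ∈ 𝓝 x ∧ 0 < ⟪x, ν⟫ := by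
      intro x hx g
      have x1 := mem_ball_zero_iff.1 (sb hx.1)
      have a1 : 0 < ⟪x, ν⟫ := lt_of_le_of_ne hx.2 fun c => by
        simp only [R2, ← c, z x x1 c.ge, mul_zero, zero_smul, sub_zero, sub_self, abs_zero] at g
        linarith
      refine ⟨inter_mem (closedBall_mem_nhds_of_mem
        (mem_ball.2 ((mem_closedBall.1 hx.1).lt_of_ne fun c => g.not_ge ?_)))
        (ge_nhds (f := fun x => ⟪x, ν⟫) (by fun_prop) a1), a1⟩
      have := b1 x c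
      rwa [z (R x) (by simpa using x1) (by
        rw [R2, inner_sub_left, real_inner_smul_left, inner_unit hν]; linarith), sub_zero] at this
    have b4 := (H'.add_const (-η)).le_of_bdry hs Kc (h.cont.mono fun x hx => sb hx.1) fun x hx g =>
      (b3 x hx (lt_abs.2 (Or.inl (by linarith)))).imp_right
        fun a => ⟨mem_ball_zero_iff.1 (sb hx.1), a⟩
    have b5 := (H'.neg.add_const (-η)).le_of_bdry h.sub Kc (h.cont.mono fun x hx => sb hx.1).neg
      fun x hx g => ⟨(b3 x hx (lt_abs.2 (Or.inr (by linarith)))).1, sb hx.1⟩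
    have g0 : (1 / 2 : ℝ) • (G 0 - R (G (R 0))) = ⟪G 0, ν⟫ • ν := by
      rw [map_zero, R2]
      module
    refine ⟨⟪G 0, ν⟫, ?_, fun x x1 x2 => ?_⟩
    · have := H'.grad_le (M := M + 1) (by linarith) (c := 0) (R := 1 / 4) (by norm_num)
        (by norm_num at b2 ⊢; exact b2) (mem_ball_self (by norm_num))
      simp only [g0, norm_smul, hν, mul_one, Real.norm_eq_abs] at this
      exact abs_le.1 (this.trans_eq (by ring))
    · have a1 := abs_le.1 (H'.taylor (M := M + 1) (by linarith) (R := 1 / 8) (by norm_num)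
        (by norm_num at b2 ⊢; exact b2) x1)
      simp only [g0] at a1
      simp only [map_zero, sub_self, mul_zero, sub_zero, real_inner_smul_right] at a1
      have a2 := b4 x ⟨mem_closedBall_zero_iff.2 (by linarith), x2⟩
      have a3 := b5 x ⟨mem_closedBall_zero_iff.2 (by linarith), x2⟩
      rw [show 16 * (M + 1) / (1 / 8) ^ 2 = 1024 * (M + 1) by ring] at a1
      exact abs_le.2 ⟨by linarith [a1.1], by linarith [a1.2]⟩
  choose a ha hb using s1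
  obtain ⟨α, -, φ, hφ, hα⟩ := isCompact_Icc.tendsto_subseq ha
  set c := 1024 * (M + 1) with hc
  have c0 : 0 < c := by positivity
  have s2 : ∀ x, ‖x‖ ≤ 1 / 8 → 0 ≤ ⟪x, ν⟫ → |U x - α * ⟪x, ν⟫| ≤ c * ‖x‖ ^ 2 := fun x x1 x2 => by
    simpa using le_of_tendsto_of_tendsto' ((hα.mul_const _).const_sub _).abs
      ((tendsto_one_div_add_atTop_nhds_zero_nat.comp hφ.tendsto_atTop).const_add _)
      fun n => hb (φ n) x x1 x2
  have sm : ∀ δ : ℝ, 0 < δ → ∀ᶠ x in 𝓝 (0 : E), ‖x‖ ≤ 1 / 8 ∧ (3 * c + 1) * |⟪x, ν⟫| ≤ δ :=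
    fun δ δ0 => Eventually.and (le_nhds (f := fun x => ‖x‖) (by fun_prop) (by norm_num))
      (le_nhds (f := fun x => (3 * c + 1) * |⟪x, ν⟫|) (by fun_prop) (by simpa using δ0))
  have j : ∀ a s : ℝ, Jet (fun x => a * ⟪x - 0, ν⟫ + s * ((3 * c + 1) * ⟪x - 0, ν⟫ ^ 2 -
      c * ‖x - 0‖ ^ 2)) 0 (a • ν) (s * 2) := fun a s =>
    (((Jet.inn ν 0 0).const_mul a).add ((((Jet.inn ν 0 0).sq.const_mul _).sub
      ((Jet.nsq 0 0).const_mul c)).const_mul s)).congr (by simp) (by rw [hν]; ring)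
  have s3 : α ≤ 1 := by
    by_contra! g
    have := (h.vp 0 (mem_ball_self one_pos) _ _ _ (j ((1 + α) / 2) 1) ?_ (by norm_num)).2
    · rw [norm_smul, hν, Real.norm_of_nonneg (by linarith)] at this
      linarith
    · filter_upwards [sm _ (half_pos (sub_pos.2 g)), sm _ one_pos] with x a1 a2
      simp only [sub_zero, u0, inner_zero_left, norm_zero]
      rcases le_total 0 ⟪x, ν⟫ with d | d
      · rw [abs_of_nonneg d] at a1
        nlinarith [(abs_le.1 (s2 x a1.1 d)).1, mul_le_mul_of_nonneg_right a1.2 d]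
      · rw [abs_of_nonpos d] at a2
        nlinarith [nn x (by linarith [a1.1]), mul_le_mul_of_nonneg_right a2.2 (neg_nonneg.2 d),
          mul_nonneg c0.le (sq_nonneg ‖x‖)]
  have s4 : 1 ≤ α := by
    by_contra! g
    have m0 : max α 0 < 1 := max_lt g one_pos
    have n1 : ‖((1 + max α 0) / 2) • ν‖ = (1 + max α 0) / 2 := by
      rw [norm_smul, hν, mul_one, Real.norm_of_nonneg (by positivity)]
    have := (h.vm 0 (mem_ball_self one_pos) h0 _ _ _ (j ((1 + max α 0) / 2) (-1)) ?_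
      (by norm_num)).2
    · rcases this with c | c
      · rw [c, norm_zero] at n1
        linarith [le_max_right α 0]
      · linarith
    · filter_upwards [mem_nhdsWithin_of_mem_nhds (sm _ (half_pos (sub_pos.2 m0))),
        self_mem_nhdsWithin] with x a1 a2
      have d := hQ x a2 (by linarith [a1.1])
      simp only [sub_zero, u0, inner_zero_left, norm_zero]
      rw [abs_of_nonneg d] at a1
      nlinarith [(abs_le.1 (s2 x a1.1 d)).2, mul_le_mul_of_nonneg_right a1.2 d,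
        mul_le_mul_of_nonneg_right (le_max_left α 0) d]
  obtain rfl := le_antisymm s3 s4
  intro x hx
  have x1 := mem_closedBall_zero_iff.1 hx
  refine ⟨?_, fun g => by linarith [(abs_le.1 (s2 x x1 (hQ x g (by linarith)))).2]⟩
  rcases le_total 0 ⟪x, ν⟫ with d | d
  · linarith [(abs_le.1 (s2 x x1 d)).1]
  · linarith [nn x (by linarith), mul_nonneg c0.le (sq_nonneg ‖x‖)]

section

variable {ι : Type} {l : Filter ι} {u : ι → E → ℝ} {P : ι → Set E} {U : E → ℝ} {Q : Set E} {e ν : E}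
  {κ : ι → ℝ} {r a b : ℝ}
  (conv : ∀ x, ‖x‖ < 1 → ∀ η : ℝ, 0 < η → ∀ᶠ z in l ×ˢ 𝓝 x,
    2 * κ z.1 ≤ dd e z.2 → |u z.1 z.2 - U x| < η)
  (hQ : ∀ y, y ∈ Q ↔ ∃ᶠ z in l ×ˢ 𝓝 y, z.2 ∈ P z.1 ∧ 2 * κ z.1 ≤ dd e z.2)

include conv hQ

theorem lim_up (hr : r < 1) {f g : E → ℝ} (hf : Continuous f) (hg : Continuous g)
    (h : ∀ x ∈ closedBall (0 : E) r, f x ≤ U x ∧ (x ∈ Q → U x ≤ g x)) {θ : ℝ} (hθ : 0 < θ) :
    ∀ᶠ j in l, ∀ x ∈ reg e 0 r (κ j), f x - θ ≤ u j x ∧ (x ∈ P j → u j x ≤ g x + θ) := by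
  refine (unif (isCompact_closedBall 0 r) (p := fun z => 2 * κ z.1 ≤ dd e z.2 →
    f z.2 - θ ≤ u z.1 z.2 ∧ (z.2 ∈ P z.1 → u z.1 z.2 ≤ g z.2 + θ))
    fun y hy => ?_).mono fun j hj x hx => hj x (mem_closedBall_iff_norm.2 hx.1) hx.2
  have k : ∀ᶠ z in l ×ˢ 𝓝 y, y ∈ Q ∨ ¬(z.2 ∈ P z.1 ∧ 2 * κ z.1 ≤ dd e z.2) := by
    by_cases c : y ∈ Q
    · exact Eventually.of_forall fun _ => Or.inl c
    · exact (not_frequently.1 (mt (hQ y).2 c)).mono fun _ => Or.inr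
  filter_upwards [k, conv y ((mem_closedBall_zero_iff.1 hy).trans_lt hr) _ (half_pos hθ),
    near_snd hf.continuousAt (half_pos hθ), near_snd hg.continuousAt (half_pos hθ)]
    with z c1 c2 c3 c3' c4
  have c5 := abs_lt.1 (c2 c4)
  rw [abs_lt] at c3 c3'
  exact ⟨by linarith [(h y hy).1], fun g => by
    linarith [(h y hy).2 (c1.resolve_right fun n => n ⟨g, c4⟩)]⟩

theorem Trap.down [l.NeBot] (hr : r ≤ 1) (hκ : Tendsto κ l (𝓝 0))
    (ax : ∀ x, ‖x‖ < 1 → dd e x = 0 → x ∈ Q)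
    (h : ∀ θ : ℝ, 0 < θ → ∀ᶠ j in l, Trap (u j) (P j) (reg e 0 r (κ j)) 0 ν (a - θ) (b + θ)) :
    Trap U Q (ball 0 r) 0 ν a b := by
  intro x hx
  have x1 := (mem_ball_zero_iff.1 hx).trans_le hr
  have k : ∀ θ : ℝ, 0 < θ → ∀ᶠ z in l ×ˢ 𝓝 x, 2 * κ z.1 ≤ dd e z.2 →
      ⟪x - 0, ν⟫ + a ≤ U x + θ ∧ (z.2 ∈ P z.1 → U x ≤ ⟪x - 0, ν⟫ + b + θ) := fun θ θ0 => by
    have t0 : 0 < θ / 3 := by positivity
    filter_upwards [conv x x1 _ t0, near_snd (f := fun x => ⟪x - 0, ν⟫) (by fun_prop) t0,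
      tendsto_fst.eventually (h _ t0), tendsto_snd.eventually (closedBall_mem_nhds_of_mem hx)]
      with z c1 c2 c3 c4 c5
    have c6 := abs_lt.1 (c1 c5)
    have c7 := c3 z.2 ⟨mem_closedBall_iff_norm.1 c4, c5⟩
    rw [abs_lt] at c2
    exact ⟨by linarith [c7.1], fun g => by linarith [c7.2 g]⟩
  refine ⟨le_of_forall_pos_le_add fun θ θ0 => ?_, fun g => le_of_forall_pos_le_add fun θ θ0 => ?_⟩
  · have : ∃ᶠ z in l ×ˢ 𝓝 x, 2 * κ z.1 ≤ dd e z.2 := by
      rcases (dd_nonneg e x).eq_or_lt with c | c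
      · exact ((hQ x).1 (ax x x1 c.symm)).mono fun _ h => h.2
      · refine Eventually.frequently ?_
        filter_upwards [tendsto_fst.eventually ((hκ.const_mul 2).eventually_lt_const
          (show 2 * 0 < dd e x / 2 by linarith)),
          near_snd (continuous_dd e).continuousAt (half_pos c)] with z c1 c2
        linarith [(abs_lt.1 c2).1]
    obtain ⟨z, c1, c2⟩ := (this.and_eventually (k θ θ0)).exists
    exact (c2 c1).1
  · obtain ⟨z, c1, c2⟩ := (((hQ x).1 g).and_eventually (k θ θ0)).exists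
    exact (c2 c1.2).2 c1.1

end

theorem tendsto_hyper {κ : ℕ → ℝ} (h0 : ∀ n, 0 < κ n) (h1 : ∀ n, κ n ≤ 1 / (n + 1)) :
    Tendsto κ (hyperfilter ℕ) (𝓝 0) :=
  (squeeze_zero (fun n => (h0 n).le) h1 tendsto_one_div_add_atTop_nhds_zero_nat).mono_left
    (Nat.cofinite_eq_atTop ▸ hyperfilter_le_cofinite)

theorem exists_pass : ∃ σ₀ : ℝ, 0 < σ₀ ∧ ∀ (e : E) (C s σ : ℝ), ‖e‖ = 1 → 0 < C → 0 < s →
    s ≤ 1 / 4 → 0 < σ → σ ≤ σ₀ → ∃ κ₀ : ℝ, 0 < κ₀ ∧ ∀ (u : E → ℝ) (P : Set E) (κ : ℝ) (ν : E),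
      Adm e u P κ → (∀ x, ‖x‖ < 1 → 2 * κ ≤ dd e x → u x ≤ C * dd e x) → κ ≤ κ₀ → ‖ν‖ = 1 →
      Trap u P (reg e 0 (1 / 2) κ) 0 ν (-σ) σ → ∃ ν', ‖ν'‖ = 1 ∧ ⟪e, ν'⟫ = 0 ∧
        Trap u P (reg e 0 s κ) 0 ν' (-(2 ^ 26 * σ * s)) (2 ^ 26 * σ * s) := by
  obtain ⟨σ₀, p0, H⟩ := exists_reg
  refine ⟨σ₀ / 4, by positivity, fun e C s σ he C0 s0 s1 σ0 σ1 => ?_⟩
  by_contra! c
  choose u P κ ν hA hG hκ hν hT hn using fun n : ℕ => c (1 / (n + 1)) (by positivity)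
  have kt := tendsto_hyper (fun n => (hA n).pos) hκ
  obtain ⟨U, Q, hV, ax, -, conv, hQ, -⟩ := exists_lim (hyperfilter ℕ) he C0 hA kt hG
  obtain ⟨v, hv, vt⟩ := (isCompact_sphere (0 : E) 1).ultrafilter_le_nhds' ((hyperfilter ℕ).map ν)
    (mem_map.2 (Eventually.of_forall fun n => mem_sphere_zero_iff_norm.2 (hν n)))
  have h1 := Trap.down conv hQ (r := 1 / 2) (ν := v) (a := -σ) (b := σ) (by norm_num) kt
    (fun x h1 h2 => (ax x h1 h2).1) fun θ θ0 => by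
      filter_upwards [Metric.tendsto_nhds.1 (show Tendsto ν _ _ from vt) θ θ0] with n hn
      exact ((hT n).tilt ((dist_eq_norm _ _).symm.trans_le hn.le) fun x hx => hx.1).mono subset_rfl
        (by linarith) (by linarith)
  have a0 := ax 0 (by simp) (by simp [dd])
  obtain ⟨w, w1, -, w2, w3⟩ := H U Q _ 0 v (1 / 4) (4 * σ) hV (by norm_num)
    (closedBall_subset_ball (by norm_num)) a0.2.le a0.1 (mem_sphere_zero_iff_norm.1 hv)
    (by positivity) (by linarith)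
    (h1.mono (closedBall_subset_ball (by norm_num)) (by linarith) (by linarith))
  have ew : ⟪e, w⟫ = 0 := abs_nonpos_iff.1 (le_of_forall_pos_le_add fun ε ε0 => by
    obtain ⟨t, t0, ht⟩ := w3 ε ε0
    have m0 : 0 < min t (1 / 2) := by positivity
    have n1 : ‖min t (1 / 2) • e‖ = min t (1 / 2) := by
      rw [norm_smul, he, mul_one, Real.norm_of_nonneg m0.le]
    have a1 := ax (min t (1 / 2) • e) (by linarith [min_le_right t (1 / 2)]) (by
      rw [← add_zero (_ • e), dd_add he]; simp [dd])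
    have a2 := ht _ m0 (min_le_left _ _) _ (mem_closedBall_zero_iff.2 n1.le)
    rw [a1.2, sub_zero, real_inner_smul_left] at a2
    exact abs_le.2 ⟨by nlinarith [a2.2 a1.1], by nlinarith [a2.1]⟩)
  obtain ⟨n, h2⟩ := (lim_up conv hQ (by linarith) (by fun_prop) (by fun_prop) (w2 s s0 s1)
    (show 0 < 2 ^ 25 * σ * s by positivity)).exists
  exact hn n w w1 ew fun x hx => ⟨by linarith [(h2 x hx).1], fun g => by linarith [(h2 x hx).2 g]⟩

theorem exists_init {e ν : E} (he : ‖e‖ = 1) (hν : ‖ν‖ = 1) (en : ⟪e, ν⟫ = 0) {C θ : ℝ}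
    (C0 : 0 < C) (θ0 : 0 < θ) : ∃ ε : ℝ, 0 < ε ∧ ∀ (u : E → ℝ) (P : Set E) (κ : ℝ),
      Adm e u P κ → (∀ x, ‖x‖ < 1 → 2 * κ ≤ dd e x → u x ≤ C * dd e x) → κ ≤ ε →
      (∀ x, ‖x‖ < 1 → κ < dd e x → ε < ⟪x, ν⟫ → 0 < u x) → (∀ x ∈ P, ‖x‖ < 1 → -ε ≤ ⟪x, ν⟫) →
      ∀ r, r ≤ 1 / 8 → Trap u P (reg e 0 r κ) 0 ν (-(1024 * (C + 1) * r ^ 2 + θ))
        (1024 * (C + 1) * r ^ 2 + θ) := by
  by_contra! c
  choose u P κ hA hG hκ h1 h2 r hr hn using fun n : ℕ => c (1 / (n + 1)) (by positivity)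
  have kt := tendsto_hyper (fun n => (hA n).pos) hκ
  have et := tendsto_hyper (κ := fun n => 1 / (n + 1)) (fun n => by positivity) fun _ => le_rfl
  obtain ⟨U, Q, hV, ax, hle, conv, hQ, sup⟩ := exists_lim (hyperfilter ℕ) he C0 hA kt hG
  have a0 := ax 0 (by simp) (by simp [dd])
  have nb : ∀ x : E, ‖x‖ < 1 → ∀ᶠ z : ℕ × E in (hyperfilter ℕ : Filter ℕ) ×ˢ 𝓝 x, ‖z.2‖ < 1 :=
    fun x hx => tendsto_snd.eventually ((isOpen_lt continuous_norm continuous_const).mem_nhds hx)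
  have key := half_space hV a0.1 a0.2 hν (fun x hx x1 => ?_) (fun x hx => ?_) C0
    fun x hx => (hle x hx).trans (mul_le_of_le_one_right C0.le ((dd_le he x).trans hx.le))
  · obtain ⟨n, h3⟩ := (lim_up conv hQ (by norm_num) (by fun_prop) (by fun_prop) key θ0).exists
    refine hn n fun x hx => ?_
    have a1 := h3 x ⟨hx.1.trans (hr n), hx.2⟩
    have a2 := mul_le_mul_of_nonneg_left (pow_le_pow_left₀ (norm_nonneg _) hx.1 2)
      (show 0 ≤ 1024 * (C + 1) by positivity)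
    rw [sub_zero] at a2 ⊢
    exact ⟨by linarith [a1.1], fun g => by linarith [a1.2 g]⟩
  · refine le_of_forall_pos_le_add fun η η0 => ?_
    obtain ⟨z, c1, c2, c3, c4⟩ := (((hQ x).1 hx).and_eventually ((nb x x1).and
      ((near_snd (f := fun x => ⟪x, ν⟫) (by fun_prop) (half_pos η0)).and
      (tendsto_fst.eventually (et.eventually_lt_const (half_pos η0)))))).exists
    linarith [h2 _ _ c1.1 c2, (abs_lt.1 c3).2]
  · have d0 := (abs_le.1 (inner_le_dd hν en x)).2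
    refine sup x hx.1 (hx.2.trans_le d0) ?_ x rfl
    filter_upwards [nb x hx.1, near_snd (f := fun x => ⟪x, ν⟫) (by fun_prop) (half_pos hx.2),
      tendsto_fst.eventually (et.eventually_lt_const (half_pos hx.2))] with z c1 c2 c3
    have := (abs_le.1 (inner_le_dd hν en z.2)).2
    exact h1 _ _ c1 (by linarith [hκ z.1, (abs_lt.1 c2).1]) (by linarith [(abs_lt.1 c2).1])

end Pool.Agent.Lib.MP_155f9b_an
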