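import Pool.Agent.Lib.MP_155f9b_an.Bar

/-! The Harnack inequality for flat solutions and decay of the oscillation. -/

namespace Pool.Agent.Lib.MP_155f9b_an

open Filter Topology Metric
open scoped RealInnerProductSpace

/-- `u` is trapped on `S` between two translates of a linear function -/
def Trap (u : E → ℝ) (P S : Set E) (p ν : E) (a b : ℝ) : Prop :=
  ∀ x ∈ S, ⟪x - p, ν⟫ + a ≤ u x ∧ (x ∈ P → u x ≤ ⟪x - p, ν⟫ + b)

variable {u : E → ℝ} {P D S : Set E} {p ν : E} {a b : ℝ}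

theorem Trap.mono (h : Trap u P S p ν a b) {S' : Set E} {a' b' : ℝ} (hS : S' ⊆ S) (ha : a' ≤ a)
    (hb : b ≤ b') : Trap u P S' p ν a' b' := fun x hx =>
  ⟨by linarith [(h x (hS hx)).1], fun g => by linarith [(h x (hS hx)).2 g]⟩

theorem Trap.rebase (h : Trap u P S p ν a b) (q : E) :
    Trap u P S q ν (a + ⟪q - p, ν⟫) (b + ⟪q - p, ν⟫) := fun x hx => by
  have := h x hx
  simp only [inner_sub_left] at this ⊢
  exact ⟨by linarith [this.1], fun g => by linarith [this.2 g]⟩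

theorem Trap.scale (h : Trap u P S p ν a b) {r : ℝ} (hr : 0 < r) {S' : Set E}
    (hS : ∀ y ∈ S', p + r • y ∈ S) : Trap (fun y => r⁻¹ * u (p + r • y))
      ((fun y => p + r • y) ⁻¹' P) S' 0 ν (a / r) (b / r) := fun x hx => by
  have := h _ (hS x hx)
  simp only [add_sub_cancel_left, real_inner_smul_left, sub_zero] at this ⊢
  refine ⟨?_, fun g => ?_⟩
  · rw [le_inv_mul_iff₀ hr, mul_add, mul_div_cancel₀ _ hr.ne']
    exact this.1
  · rw [inv_mul_le_iff₀ hr, mul_add, mul_div_cancel₀ _ hr.ne']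
    exact this.2 g

theorem Trap.unscale {r : ℝ} (hr : 0 < r) {S' : Set E} (h : Trap (fun y => r⁻¹ * u (p + r • y))
    ((fun y => p + r • y) ⁻¹' P) S' 0 ν a b) (hS : ∀ x ∈ S, r⁻¹ • (x - p) ∈ S') :
    Trap u P S p ν (r * a) (r * b) := fun x hx => by
  have := h _ (hS x hx)
  simp only [sim_inv' p hr.ne', real_inner_smul_left, sub_zero, Set.mem_preimage,
    le_inv_mul_iff₀ hr, inv_mul_le_iff₀ hr, mul_add, mul_inv_cancel_left₀ hr.ne'] at this
  exact this

theorem norm_scale {r : ℝ} (hr : 0 < r) (p y : E) : ‖p + r • y - p‖ = r * ‖y‖ := by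
  rw [add_sub_cancel_left, norm_smul, Real.norm_of_nonneg hr.le]

theorem norm_unscale {r : ℝ} (hr : 0 < r) (v : E) : ‖r⁻¹ • v‖ = ‖v‖ / r := by
  rw [norm_smul, norm_inv, Real.norm_of_nonneg hr.le, div_eq_inv_mul]

theorem scale_ball {r R : ℝ} (hr : 0 < r) (p : E) {y : E} (hy : y ∈ ball (0 : E) R) :
    p + r • y ∈ ball p (r * R) := by
  rw [mem_ball_iff_norm, norm_scale hr]
  exact mul_lt_mul_of_pos_left (mem_ball_zero_iff.1 hy) hr

theorem scale_closedBall {r R : ℝ} (hr : 0 < r) (p : E) {y : E} (hy : y ∈ closedBall (0 : E) R) :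
    p + r • y ∈ closedBall p (r * R) := by
  rw [mem_closedBall_iff_norm, norm_scale hr]
  exact mul_le_mul_of_nonneg_left (mem_closedBall_zero_iff.1 hy) hr.le

theorem unscale_ball {r R : ℝ} (hr : 0 < r) {p x : E} (hx : x ∈ ball p (r * R)) :
    r⁻¹ • (x - p) ∈ ball (0 : E) R := by
  rw [mem_ball_zero_iff, norm_unscale hr, div_lt_iff₀' hr]
  exact mem_ball_iff_norm.1 hx

theorem abs_inner_le (hν : ‖ν‖ = 1) (v : E) : |⟪v, ν⟫| ≤ ‖v‖ := by
  simpa [hν] using abs_real_inner_le_norm v ν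

theorem inner_unit (hν : ‖ν‖ = 1) : ⟪ν, ν⟫ = 1 := by
  rw [real_inner_self_eq_norm_sq, hν, one_pow]

theorem one_lt_norm (hν : ‖ν‖ = 1) {v : E} (h : 0 < ⟪v, ν⟫) : 1 < ‖ν + v‖ := by
  have := (le_abs_self _).trans (abs_inner_le hν (ν + v))
  rw [inner_add_left, inner_unit hν] at this
  linarith

theorem norm_lt_one (hν : ‖ν‖ = 1) {v : E} (h1 : ‖v‖ < 1) (h : ‖v‖ ^ 2 + 2 * ⟪v, ν⟫ < 0) :
    ν + v ≠ 0 ∧ ‖ν + v‖ < 1 := by
  refine ⟨fun c => ?_, lt_of_pow_lt_pow_left₀ 2 zero_le_one ?_⟩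
  · rw [eq_neg_of_add_eq_zero_left c, norm_neg] at hν
    linarith
  · rw [norm_add_sq_real, hν, real_inner_comm]
    linarith

theorem harnack_unit (h : Visc u P D) (hD : closedBall 0 1 ⊆ D) (hν : ‖ν‖ = 1) {σ : ℝ}
    (h0 : 0 < σ) (h1 : σ ≤ 1 / 20) (hT : Trap u P (ball 0 1) 0 ν a (a + σ)) :
    ∃ a', Trap u P (ball 0 (1 / 20)) 0 ν a' (a' + (1 - 1 / 10 ^ 6) * σ) := by
  have sm : ball (0 : E) (1 / 20) ⊆ ball 0 1 := ball_subset_ball (by norm_num)
  rcases le_or_gt (a + σ) (-(1 / 20)) with c | c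
  · refine ⟨a, fun x hx => ⟨(hT x (sm hx)).1, fun g => ?_⟩⟩
    have a1 := (hT x (sm hx)).2 g
    have a2 := h.nonneg x (hD (ball_subset_closedBall (sm hx)))
    have a3 := (le_abs_self _).trans (abs_inner_le hν (x - 0))
    have a4 := mem_ball_iff_norm.1 hx
    linarith
  set z : E := (1 / 5 : ℝ) • ν with hz
  have z1 : ‖z‖ = 1 / 5 := by rw [hz, norm_smul, hν]; norm_num
  have z2 : ∀ x, ⟪x - 0, ν⟫ = ⟪x - z, ν⟫ + 1 / 5 := fun x => by
    simp [hz, inner_sub_left, real_inner_smul_left, hν]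
  have sb : closedBall z (1 / 2) ⊆ ball 0 1 :=
    closedBall_subset_ball' (by rw [dist_zero_right]; linarith)
  have sD := (sb.trans ball_subset_closedBall).trans hD
  have s2 : closedBall z (1 / 20) ⊆ closedBall z (1 / 2) := closedBall_subset_closedBall (by norm_num)
  have hp : ∀ x ∈ closedBall z (1 / 20), 0 < u x := fun x hx => by
    have a1 := (hT x (sb (s2 hx))).1
    have a2 := (abs_le.1 ((abs_inner_le hν (x - z)).trans (mem_closedBall_iff_norm.1 hx))).1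
    linarith [z2 x]
  have hl : ∀ x, ‖x - z‖ = 1 / 640 →
      |u x + -(⟪x - 0, ν⟫ + a) - (u z + -(⟪z - 0, ν⟫ + a))| ≤ σ / 4 := fun x hx => by
    refine (vh_lip (w := fun x => u x + -(⟪x - 0, ν⟫ + a)) (c := z) (R := 1 / 20) (M := σ)
      (by norm_num) (VP.add_jet (h.super.mono fun y hy =>
        ⟨sD (s2 (ball_subset_closedBall hy)), hp y (ball_subset_closedBall hy)⟩)
        fun y _ => ⟨_, (((Jet.inn ν 0 y).add_const a).neg).congr rfl neg_zero⟩) ?_
      ((h.cont.mono (s2.trans sD)).add (by fun_prop)) (fun y hy => ?_) (x := x)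
      (by linarith)).trans (by rw [hx]; linarith)
    · simpa only [neg_add_rev, neg_neg, add_comm] using VP.add_jet (h.sub.mono
        (ball_subset_closedBall.trans (s2.trans sD))) fun y _ => ⟨_, (Jet.inn ν 0 y).add_const a⟩
    · have a1 := hT y (sb (s2 hy))
      exact abs_le.2 ⟨by linarith [a1.1], by linarith [a1.2 (h.pos y (sD (s2 hy)) (hp y hy))]⟩
  set k : ℝ := σ / 4 / 640 ^ 2 with hk
  have k0 : 0 < k := by positivity
  have cw : ContinuousOn (fun x : E => k * ((‖x - z‖ ^ 2)⁻¹ - 4))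
      (closedBall z (1 / 2) ∩ {y | 1 / 640 ≤ ‖y - z‖}) :=
    continuousOn_const.mul ((shell_cont z (by norm_num) fun _ h => h.2).sub continuousOn_const)
  have fin : ∀ x ∈ ball (0 : E) (1 / 20), x ∈ closedBall z (1 / 2) ∩ {y | 1 / 640 ≤ ‖y - z‖} ∧
      1 / 10 ^ 6 * σ ≤ k * ((‖x - z‖ ^ 2)⁻¹ - 4) := fun x hx => by
    have a1 := mem_ball_zero_iff.1 hx
    have a2 := norm_sub_le x z
    have a3 : 3 / 20 ≤ ‖x - z‖ := by linarith [norm_le_norm_sub_add z x, norm_sub_rev x z]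
    have a4 : 16 ≤ (‖x - z‖ ^ 2)⁻¹ := by
      rw [le_inv_comm₀ (by norm_num) (by positivity)]
      nlinarith
    exact ⟨⟨mem_closedBall_iff_norm.2 (by linarith), le_trans (by norm_num) a3⟩, by nlinarith⟩
  have nb : ∀ x ∈ closedBall z (1 / 2) ∩ {y | 1 / 640 ≤ ‖y - z‖},
      (k * ((‖x - z‖ ^ 2)⁻¹ - 4) = 0 ∨
        ‖x - z‖ = 1 / 640 ∧ k * ((‖x - z‖ ^ 2)⁻¹ - 4) ≤ σ / 4) ∨
      closedBall z (1 / 2) ∩ {y | 1 / 640 ≤ ‖y - z‖} ∈ 𝓝 x := fun x hx => by
    rcases (mem_closedBall_iff_norm.1 hx.1).eq_or_lt with e | e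
    · exact Or.inl (Or.inl (by rw [e]; norm_num))
    rcases (show 1 / 640 ≤ ‖x - z‖ from hx.2).eq_or_lt with e' | e'
    · exact Or.inl (Or.inr ⟨e'.symm, by rw [← e', hk]; norm_num; linarith⟩)
    exact Or.inr (inter_mem (closedBall_mem_nhds_of_mem (mem_ball_iff_norm.2 e))
      (ge_nhds (f := fun y => ‖y - z‖) (by fun_prop) e'))
  have jw : ∀ x ∈ closedBall z (1 / 2) ∩ {y | 1 / 640 ≤ ‖y - z‖}, 0 < ‖x - z‖ ∧
      Jet (fun x : E => k * ((‖x - z‖ ^ 2)⁻¹ - 4)) x (k • -(2 / ‖x - z‖ ^ 4) • (x - z))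
        (k * (2 / ‖x - z‖ ^ 4)) := fun x hx => by
    have : 0 < ‖x - z‖ := lt_of_lt_of_le (by norm_num) hx.2
    exact ⟨this, ((jet_inv (sub_ne_zero.1 (norm_pos_iff.1 this))).sub_const _).const_mul _⟩
  have lo : ∀ x ∈ closedBall z (1 / 2), u x ≤ 0 → ⟪x - z, ν⟫ < -(1 / 10) := fun x hx g => by
    linarith [(hT x (sb hx)).1, z2 x]
  rcases le_total (σ / 2) (u z + -(⟪z - 0, ν⟫ + a)) with g | g
  · have := h.vp.cmp (shell_compact z (1 / 640) (1 / 2)) (h.cont.mono fun x hx => sD hx.1)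
      (φ := fun x => ⟪x - 0, ν⟫ + a + k * ((‖x - z‖ ^ 2)⁻¹ - 4))
      (ContinuousOn.add (by fun_prop) cw) fun x hx e => ?_
    · refine ⟨a + 1 / 10 ^ 6 * σ, fun x hx => ⟨?_, fun g => ?_⟩⟩
      · linarith [this x (fin x hx).1, (fin x hx).2]
      · linarith [(hT x (sm hx)).2 g]
    · obtain ⟨r0, j⟩ := jw x hx
      refine ⟨(nb x hx).resolve_left ?_, sD hx.1, _, _, ((Jet.inn ν 0 x).add_const a).add j,
        by positivity, fun g => one_lt_norm hν ?_⟩
      · rintro (b | ⟨b1, b2⟩)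
        · linarith [(hT x (sb hx.1)).1]
        · linarith [(abs_le.1 (hl x b1)).1]
      · simp only [real_inner_smul_left]
        exact mul_pos k0 (mul_pos_of_neg_of_neg (neg_neg_of_pos (by positivity))
          (by linarith [lo x hx.1 g]))
  · have := h.vm.cmp h.closed (shell_compact z (1 / 640) (1 / 2))
      (h.cont.mono fun x hx => sD hx.1)
      (φ := fun x => ⟪x - 0, ν⟫ + (a + σ) + -(k * ((‖x - z‖ ^ 2)⁻¹ - 4)))
      (ContinuousOn.add (by fun_prop) cw.neg) fun x hx hxP e => ?_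
    · refine ⟨a, fun x hx => ⟨(hT x (sm hx)).1, fun g => ?_⟩⟩
      linarith [this x (fin x hx).1 g, (fin x hx).2]
    · obtain ⟨r0, j⟩ := jw x hx
      refine ⟨mem_nhdsWithin_of_mem_nhds ((nb x hx).resolve_left ?_), sD hx.1, _, _,
        ((Jet.inn ν 0 x).add_const _).add j.neg, by
          rw [zero_add]; exact neg_neg_of_pos (by positivity), fun g => ?_⟩
      · rintro (b | ⟨b1, b2⟩)
        · linarith [(hT x (sb hx.1)).2 hxP]
        · linarith [(abs_le.1 (hl x b1)).2]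
      · have a1 := lo x hx.1 g
        have a2 : 1 / 10 ≤ ‖x - z‖ := by linarith [(abs_le.1 (abs_inner_le hν (x - z))).1]
        have a3 : 2 * k / ‖x - z‖ ^ 3 ≤ 1 / 10 := by
          rw [div_le_iff₀ (by positivity)]
          linarith [pow_le_pow_left₀ (by norm_num) a2 3]
        have a4 : 0 < 2 * k / ‖x - z‖ ^ 3 := by positivity
        refine norm_lt_one hν (by rw [norm_neg, norm_grad_inv _ k0.le r0]; linarith) ?_
        rw [norm_neg, norm_grad_inv _ k0.le r0, inner_neg_left, real_inner_smul_left,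
          real_inner_smul_left]
        have a5 : k * (-(2 / ‖x - z‖ ^ 4) * ⟪x - z, ν⟫) =
            2 * k / ‖x - z‖ ^ 3 * (-⟪x - z, ν⟫ / ‖x - z‖) := by field_simp
        have a6 : 1 / 5 ≤ -⟪x - z, ν⟫ / ‖x - z‖ := by
          rw [le_div_iff₀ r0]
          linarith [mem_closedBall_iff_norm.1 hx.1]
        rw [a5]
        nlinarith

theorem harnack (h : Visc u P D) {r : ℝ} (hr : 0 < r) (hD : closedBall p r ⊆ D) (hν : ‖ν‖ = 1)
    {σ : ℝ} (h0 : 0 < σ) (h1 : σ ≤ r / 20) (hT : Trap u P (ball p r) p ν a (a + σ)) :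
    ∃ a', Trap u P (ball p (r / 20)) p ν a' (a' + (1 - 1 / 10 ^ 6) * σ) := by
  obtain ⟨a', h'⟩ := harnack_unit (h.scale p hr) (a := a / r) (σ := σ / r)
    (fun y hy => hD (by simpa using scale_closedBall hr p hy)) hν (by positivity)
    (by rw [div_le_iff₀ hr]; linarith)
    (by simpa only [add_div] using hT.scale hr fun y hy => by simpa using scale_ball hr p hy)
  refine ⟨r * a', (h'.unscale hr fun x hx => unscale_ball hr (by rwa [mul_one_div])).mono
    subset_rfl le_rfl (le_of_eq ?_)⟩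
  field_simp

theorem exists_osc {η : ℝ} (hη : 0 < η) : ∃ s : ℝ, 0 < s ∧ s ≤ 1 ∧ ∀ (u : E → ℝ) (P D : Set E)
    (p x ν : E) (r a σ : ℝ), Visc u P D → closedBall x r ⊆ D → ‖ν‖ = 1 → 0 < σ → σ ≤ s * r →
      Trap u P (ball x r) p ν a (a + σ) → ∃ a', Trap u P (ball x (s * r)) p ν a' (a' + η * σ) := by
  obtain ⟨n, hn⟩ := exists_pow_lt_of_lt_one hη (show (1 - 1 / 10 ^ 6 : ℝ) < 1 by norm_num)
  refine ⟨1 / 20 ^ n, by positivity, by rw [div_le_one (by positivity)]; exact one_le_pow₀ (by norm_num),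
    fun u P D p x ν r a σ h hD hν h0 h1 hT => ?_⟩
  have r0 : 0 < r := pos_of_mul_pos_left (mul_comm r _ ▸ h0.trans_le h1) (by positivity)
  have key : ∀ k, k ≤ n → ∃ a', Trap u P (ball x (1 / 20 ^ k * r)) x ν a'
      (a' + (1 - 1 / 10 ^ 6) ^ k * σ) := by
    intro k
    induction k with
    | zero => exact fun _ => ⟨_, (hT.rebase x).mono (by simp) le_rfl (by simp; linarith)⟩
    | succ k ih =>
      intro hk
      obtain ⟨a', h'⟩ := ih (by omega)
      have e : 1 / 20 ^ k * r / 20 = 1 / 20 ^ (k + 1) * r := by rw [pow_succ]; field_simp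
      obtain ⟨a'', h''⟩ := harnack h (by positivity) ((closedBall_subset_closedBall
        (mul_le_of_le_one_left r0.le (by
          rw [div_le_one (by positivity)]; exact one_le_pow₀ (by norm_num)))).trans hD) hν
        (by positivity) ((mul_le_of_le_one_left h0.le (pow_le_one₀ (by norm_num) (by norm_num))).trans
          (h1.trans (by
            rw [e]
            gcongr
            norm_num))) h'
      exact ⟨a'', by rw [← e, pow_succ' (1 - 1 / 10 ^ 6 : ℝ), mul_assoc]; exact h''⟩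
  obtain ⟨a', h'⟩ := key n le_rfl
  exact ⟨_, (h'.rebase p).mono subset_rfl le_rfl (by nlinarith)⟩

end Pool.Agent.Lib.MP_155f9b_an
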