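import Pool.Agent.Lib.MP_155f9b_an.Non

/-! The recursion between three scales and the weighted estimate. -/

namespace Pool.Agent.Lib.MP_155f9b_an

open Filter Topology Metric
open scoped RealInnerProductSpace

/-- flatness at the point `t • e` of the axis, at scale `r`, in direction `ν` -/
def FlatD (e : E) (u : E → ℝ) (P : Set E) (δ t r σ : ℝ) (ν : E) : Prop :=
  ‖ν‖ = 1 ∧ ⟪e, ν⟫ = 0 ∧ Trap u P (reg e (t • e) r δ) (t • e) ν (-(σ * r)) (σ * r)

variable {e ν : E} {u : E → ℝ} {P : Set E} {δ t r σ : ℝ}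

theorem FlatD.mono (h : FlatD e u P δ t r σ ν) {σ' : ℝ} (hr : 0 ≤ r) (hσ : σ ≤ σ') :
    FlatD e u P δ t r σ' ν :=
  ⟨h.1, h.2.1, h.2.2.mono subset_rfl (neg_le_neg (mul_le_mul_of_nonneg_right hσ hr))
    (mul_le_mul_of_nonneg_right hσ hr)⟩

theorem reg_scale (he : ‖e‖ = 1) {ρ R κ : ℝ} (hρ : 0 < ρ) {y : E} (h1 : ‖y‖ ≤ R)
    (h2 : κ ≤ dd e y) : ‖t • e + ρ • y - t • e‖ ≤ ρ * R ∧ ρ * κ ≤ dd e (t • e + ρ • y) := by
  rw [norm_scale hρ, dd_axis he hρ]
  exact ⟨mul_le_mul_of_nonneg_left h1 hρ.le, mul_le_mul_of_nonneg_left h2 hρ.le⟩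

theorem reg_unscale (he : ‖e‖ = 1) {ρ R κ : ℝ} (hρ : 0 < ρ) {x : E} (h1 : ‖x - t • e‖ ≤ ρ * R)
    (h2 : ρ * κ ≤ dd e x) : ‖ρ⁻¹ • (x - t • e)‖ ≤ R ∧ κ ≤ dd e (ρ⁻¹ • (x - t • e)) := by
  rw [norm_unscale hρ, dd_smul _ _ (inv_pos.2 hρ).le, sub_eq_neg_add x, ← neg_smul, dd_add he,
    div_le_iff₀' hρ, le_inv_mul_iff₀ hρ, neg_smul, ← sub_eq_neg_add]
  exact ⟨h1, h2⟩

theorem Adm.dom (he : ‖e‖ = 1) (h : Adm e u P δ) (ht : |t| + r < 1) {x : E}
    (hx : x ∈ reg e (t • e) r δ) : x ∈ {x | ‖x‖ < 1 ∧ δ < dd e x} := by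
  have := norm_le_norm_sub_add x (t • e)
  rw [norm_smul, he, mul_one, Real.norm_eq_abs] at this
  exact ⟨by linarith [hx.1], by linarith [hx.2, h.pos]⟩

theorem Adm.pin (he : ‖e‖ = 1) (h : Adm e u P δ) (ht : |t| + r < 1) {v : E} (hv : ‖v‖ ≤ 2)
    {A Θ s : ℝ} (hT : Trap u P (reg e (t • e) r δ) (t • e) v (A - Θ) (A + Θ))
    (hs : |s| + 2 * δ ≤ r) : |s * ⟪e, v⟫ + A| ≤ Θ + 4 * δ := by
  have δ0 := h.pos
  have k : ∀ z ∈ circ e (t + s) (2 * δ), z ∈ reg e (t • e) r δ ∧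
      |⟪z - t • e, v⟫ - s * ⟪e, v⟫| ≤ 4 * δ := fun z hz => by
    have a1 := circ_dist hz
    have e1 : z - t • e = z - (t + s) • e + s • e := by module
    refine ⟨⟨?_, hz.2.ge⟩, ?_⟩
    · rw [e1]
      refine (norm_add_le _ _).trans ?_
      rw [a1, norm_smul, he, mul_one, Real.norm_eq_abs]
      linarith
    · rw [e1, inner_add_left, real_inner_smul_left, add_sub_cancel_right]
      refine (abs_real_inner_le_norm _ _).trans ?_
      rw [a1]
      nlinarith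
  have l1 : |t + s| + 2 * δ < 1 := by linarith [abs_add_le t s]
  obtain ⟨z, z1, z2⟩ := h.hitZ (t + s) (2 * δ) (by linarith) l1
  obtain ⟨y, y1, y2⟩ := h.hitP (t + s) (2 * δ) (by linarith) l1
  have q1 := (hT y (k y y1).1).2 y2
  have q2 := h.visc.nonneg y (h.dom he ht (k y y1).1)
  have q3 := (hT z (k z z1).1).1
  exact abs_le.2 ⟨by linarith [(abs_le.1 (k y y1).2).2], by linarith [(abs_le.1 (k z z1).2).1]⟩

theorem exists_rec {l : ℝ} (l0 : 0 < l) (l1 : l ≤ 1 / 16) : ∃ τ σ₀ : ℝ, 0 < τ ∧ 0 < σ₀ ∧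
    ∀ (e : E) (u : E → ℝ) (P : Set E) (δ t r σ σ' : ℝ), ‖e‖ = 1 → Adm e u P δ → |t| + r < 1 →
      0 < σ → σ ≤ σ₀ → 0 ≤ σ' → δ ≤ τ * r → (∃ ν, FlatD e u P δ t r σ ν) →
      (∀ t', |t' - t| ≤ l * r → ∃ ν, FlatD e u P δ t' (l ^ 4 * r) σ' ν) →
      ∃ ν, FlatD e u P δ t (l * r) (2 ^ 20 * l * σ + 72 * l ^ 3 * σ' + 20 * δ / (l * r)) ν := by
  have l4 : l ^ 4 ≤ l := pow_le_of_le_one l0.le (by linarith) four_ne_zero
  have l5 : 0 < l ^ 4 := by positivity
  obtain ⟨τ, σ₀, τ0, p0, H⟩ := exists_lin (η := l ^ 4 / 5) (by positivity) (by linarith)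
  refine ⟨min (τ / 4) (l ^ 4 / 20), min (σ₀ / 2) (l ^ 4 / 10), by positivity, by positivity,
    fun e u P δ t r σ σ' he h ht σ0 σ1 σ'0 hδ ⟨ν, hν, en, hT⟩ hS => ?_⟩
  have δ0 := h.pos
  have r0 : 0 < r := pos_of_mul_pos_left (mul_comm r _ ▸ δ0.trans_le hδ) (by positivity)
  have r1 := half_pos r0
  have δ1 := hδ.trans (mul_le_mul_of_nonneg_right (min_le_left _ _) r0.le)
  have δ2 := hδ.trans (mul_le_mul_of_nonneg_right (min_le_right _ _) r0.le)
  have σ2 := σ1.trans (min_le_left _ _)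
  have σ3 := σ1.trans (min_le_right _ _)
  have lr : l ^ 4 * r ≤ l * r := mul_le_mul_of_nonneg_right l4 r0.le
  have lr' : l * r ≤ 1 / 16 * r := mul_le_mul_of_nonneg_right l1 r0.le
  have lr0 : 0 < l ^ 4 * r := by positivity
  have sb : ∀ y ∈ {x : E | ‖x‖ ≤ 2 ∧ τ ≤ dd e (x - 0)}, t • e + (r / 2) • y ∈ reg e (t • e) r δ :=
    fun y hy => by
      have := reg_scale (t := t) he r1 hy.1 (sub_zero y ▸ hy.2)
      exact ⟨by linarith [this.1], by linarith [this.2]⟩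
  obtain ⟨a, b, b1, b2, hb⟩ := H _ _ _ e ν 0 (2 * σ) (h.visc.scale (t • e) r1) he hν en
    (inner_zero_left _) (by simp) (fun y hy => h.dom he ht (sb y hy)) (by positivity) (by linarith)
    ((hT.scale r1 sb).mono subset_rfl (le_of_eq (by field_simp)) (le_of_eq (by field_simp)))
  obtain ⟨v, hv⟩ : ∃ v, v = ν + (2 * σ) • b := ⟨_, rfl⟩
  obtain ⟨θ, hθ⟩ : ∃ θ, θ = 8194 * l ^ 2 * σ * r := ⟨_, rfl⟩
  have e0 : r / 2 * (2 * σ * (512 * (4 * l) ^ 2 + 6 * (l ^ 4 / 5))) ≤ θ := by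
    have : l ^ 4 ≤ l ^ 2 := pow_le_pow_of_le_one l0.le (by linarith) (by norm_num)
    nlinarith [mul_le_mul_of_nonneg_left this (mul_pos σ0 r0).le]
  replace hb : Trap u P {x | ‖x - t • e‖ ≤ 2 * (l * r) ∧ l ^ 4 * r / 10 ≤ dd e x} (t • e) v
      (r * σ * a - θ) (r * σ * a + θ) := hv ▸ (Trap.unscale r1 (hb (4 * l) (by linarith))
    fun x hx => by
      simpa only [Set.mem_ofPred_eq, sub_zero] using reg_unscale he r1 (by linarith [hx.1])
        (by linarith [hx.2])).mono subset_rfl (by linarith) (by linarith)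
  have θ0 : 0 < θ := by rw [hθ]; positivity
  have θ2 : 0 ≤ σ' * (l ^ 4 * r) := by positivity
  have ext : Trap u P (reg e (t • e) (l * r) δ) (t • e) v
      (r * σ * a - (11 * θ + 12 * (σ' * (l ^ 4 * r))))
      (r * σ * a + (11 * θ + 12 * (σ' * (l ^ 4 * r)))) := by
    intro x hx
    rcases le_total (l ^ 4 * r / 10) (dd e x) with c | c
    · have := hb x ⟨by linarith [hx.1], c⟩
      exact ⟨by linarith [this.1], fun g => by linarith [this.2 g]⟩
    have t1 : |⟪x, e⟫ - t| ≤ l * r := by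
      have := (abs_inner_le he (x - t • e)).trans hx.1
      rwa [inner_sub_left, real_inner_smul_left, inner_unit he, mul_one] at this
    obtain ⟨w, -, -, hw⟩ := hS _ t1
    have cmp : ∀ y, ‖y - (⟪x, e⟫ • e + (l ^ 4 * r / 2) • ν)‖ ≤ l ^ 4 * r / 10 →
        |⟪y - t • e, v⟫ + r * σ * a - ⟪y - ⟪x, e⟫ • e, w⟫| ≤ θ + σ' * (l ^ 4 * r) := by
      intro y hy
      have a1 := (abs_le.1 ((abs_inner_le hν _).trans hy)).1
      simp only [inner_sub_left, inner_add_left, real_inner_smul_left, en, inner_unit hν] at a1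
      have a2 := (abs_le.1 (inner_le_dd hν en y)).2
      have a3 := norm_sub_le_norm_sub_add_norm_sub y (⟪x, e⟫ • e + (l ^ 4 * r / 2) • ν) (⟪x, e⟫ • e)
      rw [add_sub_cancel_left, norm_smul, hν, Real.norm_of_nonneg (by positivity)] at a3
      have a4 := norm_sub_le_norm_sub_add_norm_sub y (⟪x, e⟫ • e) (t • e)
      rw [← sub_smul, norm_smul, he, Real.norm_eq_abs] at a4
      have a5 : y ∈ reg e (t • e) r δ := ⟨by linarith, by linarith⟩
      have a6 := (hT y a5).1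
      rw [inner_sub_left, real_inner_smul_left, en] at a6
      have a7 := h.visc.pos y (h.dom he ht a5)
        (by linarith [mul_le_mul_of_nonneg_right σ3 r0.le])
      have a8 := hb y ⟨by linarith, by linarith⟩
      have a9 := hw y ⟨by linarith, by linarith⟩
      exact abs_le.2 ⟨by linarith [a8.2 a7, a9.1], by linarith [a8.1, a9.2 a7]⟩
    have n1 : ‖x - (⟪x, e⟫ • e + (l ^ 4 * r / 2) • ν)‖ ≤ 6 * (l ^ 4 * r / 10) := by
      rw [← sub_sub]
      refine (norm_sub_le _ _).trans ?_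
      rw [norm_smul, hν, Real.norm_of_nonneg (by positivity), ← dd]
      linarith
    set m := ⟪x, e⟫ • e + (l ^ 4 * r / 2) • ν
    have c1 := abs_le.1 (cmp m (by rw [sub_self, norm_zero]; positivity))
    have c2 := abs_le.1 (cmp (m + (1 / 6 : ℝ) • (x - m)) (by
      rw [add_sub_cancel_left, norm_smul]; norm_num; linarith))
    have c3 := hw x ⟨by rw [← dd]; linarith, hx.2⟩
    simp only [inner_sub_left, inner_add_left m, real_inner_smul_left (x - m)] at c1 c2 c3 ⊢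
    exact ⟨by linarith [c3.1], fun g => by linarith [c3.2 g]⟩
  obtain ⟨Θ, hΘ⟩ : ∃ Θ, Θ = 11 * θ + 12 * (σ' * (l ^ 4 * r)) := ⟨_, rfl⟩
  rw [← hΘ] at ext
  have n1 : ‖(2 * σ) • b‖ ≤ 32 * σ := by
    rw [norm_smul, Real.norm_of_nonneg (by positivity)]
    nlinarith
  have n2 : ‖v‖ ≤ 2 := by
    rw [hv]
    linarith [norm_add_le ν ((2 * σ) • b)]
  have lr1 : 0 < l * r := by positivity
  have p1 := abs_le.1 (h.pin he (by linarith) n2 ext (s := 0) (by rw [abs_zero]; linarith))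
  have p2 := abs_le.1 (h.pin he (by linarith) n2 ext (s := l * r / 2)
    (by rw [abs_of_pos (half_pos lr1)]; linarith))
  have ev : ⟪(2 * σ) • b, e⟫ = ⟪e, v⟫ := by
    rw [hv, inner_add_right, en, zero_add, real_inner_comm]
  obtain ⟨c, c1, c2, -⟩ := exists_normalize hν (w := (2 * σ) • b - ⟪(2 * σ) • b, e⟫ • e) (by
    rw [inner_sub_left, real_inner_smul_left, real_inner_smul_left e, b1, en]; ring)
  have n3 := pow_le_pow_left₀ (dd_nonneg _ _) ((dd_le he _).trans n1) 2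
  have n4 : ‖v - c • (ν + ((2 * σ) • b - ⟪(2 * σ) • b, e⟫ • e))‖ ≤ |⟪e, v⟫| + (32 * σ) ^ 2 := by
    refine (norm_sub_le_norm_sub_add_norm_sub _ _ _).trans (add_le_add (le_of_eq ?_) (c2.trans n3))
    rw [← ev, hv, add_sub_add_left_eq_sub, sub_sub_cancel, norm_smul, he, mul_one, Real.norm_eq_abs]
  have e1 : (2 ^ 20 * l * σ + 72 * l ^ 3 * σ' + 20 * δ / (l * r)) * (l * r) =
      2 ^ 20 * (l ^ 2 * σ * r) + 72 * (σ' * (l ^ 4 * r)) + 20 * δ := by field_simp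
  have e2 : |⟪e, v⟫| * (l * r) ≤ 4 * (Θ + 4 * δ) := by
    rw [← abs_of_pos lr1, ← abs_mul]
    exact abs_le.2 ⟨by linarith [p1.2, p2.1], by linarith [p1.1, p2.2]⟩
  have e3 : (32 * σ) ^ 2 * (l * r) ≤ 1024 * (l ^ 2 * σ * r) := by
    nlinarith [mul_le_mul_of_nonneg_left (show σ ≤ l by linarith) (mul_pos σ0 lr1).le]
  have e4 : 0 < l ^ 2 * σ * r := by positivity
  refine ⟨_, c1, ?_, (ext.tilt n4 fun x hx => hx.1).mono subset_rfl ?_ ?_⟩
  · rw [real_inner_smul_right, inner_add_right, inner_sub_right, en, real_inner_smul_right e e,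
      inner_unit he, real_inner_comm]
    ring
  · rw [e1]
    linarith [p1.1]
  · rw [e1]
    linarith [p1.2]

theorem sqrt_le_div {a b c : ℝ} (hc : 0 < c) (h : a * c ^ 2 ≤ b) : √a ≤ √b / c := by
  rw [le_div_iff₀ hc, ← Real.sqrt_sq hc.le, ← Real.sqrt_mul' _ (sq_nonneg c)]
  exact Real.sqrt_le_sqrt h

theorem exists_weight : ∃ τ σ₀ B : ℝ, 0 < τ ∧ 0 < σ₀ ∧ 0 < B ∧
    ∀ (e : E) (u : E → ℝ) (P : Set E) (δ t₀ T b : ℝ), ‖e‖ = 1 → Adm e u P δ → |t₀| + 2 * T < 1 →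
      δ ≤ τ * b → (∀ t r, |t - t₀| < T → b ≤ r → r ≤ T → ∃ ν, FlatD e u P δ t r σ₀ ν) →
      ∀ r, b ≤ r → r ≤ T → ∃ ν, FlatD e u P δ t₀ r (B * (√(r / T) + √(b / r))) ν := by
  obtain ⟨m, m0, m1⟩ : ∃ m : ℝ, 0 < m ∧ m ≤ 1 / 2 ^ 22 := ⟨_, by norm_num, le_rfl⟩
  have m2 : ∀ k, k ≠ 0 → m ^ k ≤ 1 / 2 ^ 22 := fun k hk =>
    (pow_le_of_le_one m0.le (by linarith) hk).trans m1
  obtain ⟨τ, σ₀, τ0, p0, H⟩ := exists_rec (l := m ^ 2) (by positivity)
    (by linarith [m2 2 two_ne_zero])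
  obtain ⟨B, B1, B2⟩ : ∃ B : ℝ, 1 ≤ B ∧ B * m ^ 3 = 1 :=
    ⟨(m ^ 3)⁻¹, (one_le_inv₀ (by positivity)).2 (by linarith [m2 3 three_ne_zero]),
      inv_mul_cancel₀ (by positivity)⟩
  refine ⟨min τ (1 / 80), min σ₀ 1, 2 * B, by positivity, by positivity, by positivity,
    fun e u P δ t₀ T b he h hT hδ hG => ?_⟩
  have δ0 := h.pos
  have b0 : 0 < b := pos_of_mul_pos_left (mul_comm b _ ▸ δ0.trans_le hδ) (by positivity)
  have δ1 := hδ.trans (mul_le_mul_of_nonneg_right (min_le_left _ _) b0.le)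
  have δ2 := hδ.trans (mul_le_mul_of_nonneg_right (min_le_right _ _) b0.le)
  let S : ℝ → Prop := fun M => ∀ t r, |t - t₀| < T → b ≤ r → r ≤ T →
    ∃ ν, FlatD e u P δ t r (M * (√(r / (T - |t - t₀|)) + √(b / r))) ν
  have step : ∀ M M', B ≤ M → B ≤ M' → 3 / 4 * M ≤ M' → S M → S M' := by
    intro M M' h1 h2 h3 hS t r t1 r1 r2
    have r0 : 0 < r := by linarith
    obtain ⟨d, hd⟩ : ∃ d, d = T - |t - t₀| := ⟨_, rfl⟩
    have d0 : 0 < d := by linarith
    have d1 : d ≤ T := by linarith [abs_nonneg (t - t₀)]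
    rw [← hd]
    have w1 := Real.sqrt_nonneg (r / d)
    have w2 := Real.sqrt_nonneg (b / r)
    by_cases c : b ≤ m ^ 6 * r ∧ r ≤ m ^ 2 * d
    swap
    · obtain ⟨ν, hν⟩ := hG t r t1 r1 r2
      refine ⟨ν, hν.mono r0.le ((min_le_right _ _).trans ?_)⟩
      have : m ^ 3 ≤ √(r / d) + √(b / r) := by
        rcases not_and_or.1 c with c | c
        · refine le_add_of_nonneg_of_le w1 (Real.le_sqrt_of_sq_le ?_)
          rw [le_div_iff₀ r0]
          linarith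
        · refine le_add_of_le_of_nonneg (Real.le_sqrt_of_sq_le ?_) w2
          rw [le_div_iff₀ d0, ← pow_mul]
          nlinarith [mul_le_mul_of_nonneg_right
            (pow_le_pow_of_le_one m0.le (by linarith) (show 2 ≤ 3 * 2 by norm_num)) d0.le]
      nlinarith
    obtain ⟨c1, c2⟩ := c
    obtain ⟨R, rfl⟩ : ∃ R, r = m ^ 2 * R := ⟨r / m ^ 2, by field_simp⟩
    have R0 : 0 < R := pos_of_mul_pos_left (mul_comm R _ ▸ r0) (by positivity)
    have R1 : R ≤ d := le_of_mul_le_mul_left c2 (by positivity)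
    have R2 : m ^ 2 * R ≤ R / 2 := by nlinarith [m2 2 two_ne_zero]
    have R3 : m ^ 6 * (m ^ 2 * R) ≤ m ^ 2 * R :=
      mul_le_of_le_one_left r0.le (by linarith [m2 6 (by norm_num)])
    set w := √(m ^ 2 * R / d) + √(b / (m ^ 2 * R)) with hw
    have w3 : b / (m ^ 2 * R) ≤ w := le_add_of_nonneg_of_le w1 (Real.le_sqrt_of_sq_le (by
      rw [sq]; exact mul_le_of_le_one_left (by positivity) ((div_le_one r0).2 r1)))
    have w0 : 0 < w := lt_of_lt_of_le (by positivity) w3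
    have M0 : 0 < M := by linarith
    have a1 : √(R / d) + √(b / R) ≤ w / m := by
      rw [hw, add_div]
      refine add_le_add (sqrt_le_div m0 (le_of_eq (by ring))) (sqrt_le_div m0 ?_)
      rw [le_div_iff₀ r0, show b / R * m ^ 2 * (m ^ 2 * R) = m ^ 4 * b by field_simp]
      exact mul_le_of_le_one_left b0.le (by linarith [m2 4 (by norm_num)])
    obtain ⟨ν, hν⟩ := H e u P δ t R (min (min σ₀ 1) (M * (w / m))) (M * (w / m ^ 3)) he h
      (by linarith [abs_sub_abs_le_abs_sub t t₀]) (by positivity)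
      ((min_le_left _ _).trans (min_le_left _ _)) (by positivity)
      (δ1.trans (mul_le_mul_of_nonneg_left (by linarith) τ0.le)) (by
        rcases min_choice (min σ₀ 1) (M * (w / m)) with c | c <;> rw [c]
        · exact hG t R t1 (by linarith) (by linarith)
        · obtain ⟨ν, hν⟩ := hS t R t1 (by linarith) (by linarith)
          exact ⟨ν, hν.mono R0.le (mul_le_mul_of_nonneg_left (hd ▸ a1) M0.le)⟩) fun t' ht' => by
      have b1 := abs_sub_le t' t t₀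
      have e1 : (m ^ 2) ^ 4 * R = m ^ 6 * (m ^ 2 * R) := by ring
      rw [e1]
      obtain ⟨ν, hν⟩ := hS t' _ (by linarith) c1 (by linarith)
      refine ⟨ν, hν.mono (by positivity) (mul_le_mul_of_nonneg_left ?_ M0.le)⟩
      rw [hw, add_div]
      refine add_le_add (sqrt_le_div (by positivity) ?_)
        (sqrt_le_div (by positivity) (le_of_eq (by field_simp)))
      rw [div_mul_eq_mul_div, div_le_div_iff₀ (by linarith) d0]
      have b2 : m ^ 6 * (m ^ 3) ^ 2 * d ≤ T - |t' - t₀| := by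
        have b3 := mul_le_mul_of_nonneg_right (m2 12 (by norm_num)) d0.le
        rw [show m ^ 6 * (m ^ 3) ^ 2 = m ^ 12 by ring]
        norm_num at b3
        linarith
      nlinarith [mul_le_mul_of_nonneg_left b2 r0.le]
    refine ⟨ν, hν.mono r0.le ?_⟩
    have a2 : 2 ^ 20 * m ^ 2 * min (min σ₀ 1) (M * (w / m)) ≤ 2 ^ 20 * m * (M * w) :=
      (mul_le_mul_of_nonneg_left (min_le_right _ _) (by positivity)).trans_eq (by field_simp)
    have a3 : 72 * (m ^ 2) ^ 3 * (M * (w / m ^ 3)) = 72 * m ^ 3 * (M * w) := by field_simp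
    have a4 : 20 * δ / (m ^ 2 * R) ≤ b / (m ^ 2 * R) / 4 := by
      rw [div_right_comm]
      exact div_le_div_of_nonneg_right (by linarith) r0.le
    have a5 : w ≤ M * w := le_mul_of_one_le_left w0.le (by linarith)
    nlinarith [mul_le_mul_of_nonneg_right m1 (mul_pos M0 w0).le,
      mul_le_mul_of_nonneg_right (m2 3 three_ne_zero) (mul_pos M0 w0).le,
      mul_le_mul_of_nonneg_right h3 w0.le]
  intro r r1 r2
  have T0 : 0 < T := by linarith
  have s0 : 0 < √(b / T) := Real.sqrt_pos.2 (by positivity)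
  have key : ∀ n : ℕ, S (B + (3 / 4) ^ n * (√(b / T))⁻¹) := by
    intro n
    induction n with
    | zero =>
      intro t r t1 r1 r2
      obtain ⟨ν, hν⟩ := hG t r t1 r1 r2
      refine ⟨ν, hν.mono (by linarith) ((min_le_right _ _).trans ?_)⟩
      have a1 : √(b / T) ≤ √(b / r) :=
        Real.sqrt_le_sqrt (div_le_div_of_nonneg_left b0.le (by linarith) r2)
      refine le_trans (inv_mul_cancel₀ s0.ne').ge (mul_le_mul (by linarith)
        (le_add_of_nonneg_of_le (Real.sqrt_nonneg _) a1) s0.le (by positivity))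
    | succ n ih =>
      exact step _ _ (le_add_of_nonneg_right (by positivity)) (le_add_of_nonneg_right (by positivity))
        (by rw [pow_succ]; linarith) ih
  obtain ⟨n, hn⟩ := exists_pow_lt_of_lt_one s0 (show (3 / 4 : ℝ) < 1 by norm_num)
  obtain ⟨ν, hν⟩ := key n t₀ r (by simpa using T0) r1 r2
  rw [sub_self, abs_zero, sub_zero] at hν
  refine ⟨ν, hν.mono (by linarith) (mul_le_mul_of_nonneg_right ?_ (by positivity))⟩
  linarith [(div_le_one s0).2 hn.le, div_eq_mul_inv ((3 / 4 : ℝ) ^ n) (√(b / T))]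

end Pool.Agent.Lib.MP_155f9b_an
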