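import Pool.Agent.Lib.MP_155f9b_an.Axis

/-! The axis is a removable singularity for solutions of linear growth. -/

namespace Pool.Agent.Lib.MP_155f9b_an

open Filter Topology Metric
open scoped RealInnerProductSpace

/-- solutions in the unit ball minus the axis, of linear growth away from the axis -/
structure Lim (e : E) (U : E → ℝ) (P : Set E) (C : ℝ) : Prop where
  visc : Visc U P {x | ‖x‖ < 1 ∧ 0 < dd e x}
  nonneg : ∀ x, ‖x‖ < 1 → 0 ≤ U x
  le : ∀ x, ‖x‖ < 1 → U x ≤ C * dd e x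
  hitP : ∀ t s, 0 < s → |t| + s < 1 → ∃ x ∈ circ e t s, x ∈ P

variable {e n : E} {U : E → ℝ} {P : Set E} {C : ℝ}

theorem Lim.scale (he : ‖e‖ = 1) (h : Lim e U P C) {t r : ℝ} (hr : 0 < r) (ht : |t| + r ≤ 1) :
    Lim e (fun y => r⁻¹ * U (t • e + r • y)) ((fun y => t • e + r • y) ⁻¹' P) C := by
  have k : ∀ y : E, ‖y‖ < 1 → ‖t • e + r • y‖ < 1 := fun y hy =>
    (norm_axis he hr t y).trans_lt (by nlinarith)
  refine ⟨by simpa only [zero_div] using h.visc.axis he hr ht,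
    fun y hy => mul_nonneg (inv_pos.2 hr).le (h.nonneg _ (k y hy)), fun y hy => ?_,
    fun t' s h1 h2 => ?_⟩
  · rw [inv_mul_le_iff₀ hr, mul_left_comm, ← dd_axis he hr t]
    exact h.le _ (k y hy)
  · obtain ⟨x, a1, a2⟩ := h.hitP _ _ (mul_pos hr h1) (circ_lt hr ht h2)
    exact ⟨_, circ_unscale he hr a1, by rwa [Set.mem_preimage, sim_inv' _ hr.ne']⟩

theorem Lim.zero (h : Lim e U P C) {x : E} (hx : ‖x‖ < 1) (h0 : dd e x = 0 ∨ x ∉ P) : U x = 0 := by
  rcases (dd_nonneg e x).eq_or_lt with c | c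
  · exact le_antisymm (by simpa [← c] using h.le x hx) (h.nonneg x hx)
  · exact h.visc.zero ⟨hx, c⟩ (h0.resolve_left c.ne')

theorem Lim.cont (h : Lim e U P C) : ContinuousOn U (ball 0 1) := by
  intro x hx
  rw [mem_ball_zero_iff] at hx
  rcases (dd_nonneg e x).eq_or_lt with c | c
  · refine tendsto_of_tendsto_of_tendsto_of_le_of_le' (g := fun _ => 0) (h := fun y => C * dd e y)
      (by rw [h.zero hx (Or.inl c.symm)]; exact tendsto_const_nhds)
      (Tendsto.mono_left (Continuous.tendsto' (by fun_prop) _ _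
        (by rw [h.zero hx (Or.inl c.symm), ← c, mul_zero])) nhdsWithin_le_nhds)
      (eventually_nhdsWithin_of_forall fun y hy => h.nonneg y (mem_ball_zero_iff.1 hy))
      (eventually_nhdsWithin_of_forall fun y hy => h.le y (mem_ball_zero_iff.1 hy))
  · exact (h.visc.cont.continuousAt (h.visc.isOpen.mem_nhds ⟨hx, c⟩)).continuousWithinAt

theorem Lim.sub (h : Lim e U P C) : VP (-1) (fun y => -U y) (ball 0 1) := by
  intro x hx φ b l j hm l0
  rcases (dd_nonneg e x).eq_or_lt with c | c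
  · refine absurd (j.nonpos_of_max ?_) l0.not_ge
    filter_upwards [hm, isOpen_ball.mem_nhds hx] with y h1 h2
    linarith [h.nonneg y (mem_ball_zero_iff.1 h2), h.zero (mem_ball_zero_iff.1 hx) (Or.inl c.symm)]
  · exact h.visc.sub x ⟨mem_ball_zero_iff.1 hx, c⟩ φ b l j hm l0

theorem hopf {w : E → ℝ} {O : Set E} {z : E} {s k : ℝ} (hw : VP (-1) w O)
    (hs : 0 < s) (hk : 0 < k) (hc : ContinuousOn w (closedBall z (1 / 2)))
    (h0 : ∀ x, ‖x - z‖ ≤ 1 / 2 → 0 ≤ ⟪x - z, n⟫ → 0 ≤ w x)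
    (hO : ∀ x, ‖x - z‖ ≤ 1 / 2 → 0 < ⟪x - z, n⟫ → x ∈ O)
    (h1 : ∀ x, ‖x - z‖ = s → 0 ≤ ⟪x - z, n⟫ → k * ⟪x - z, n⟫ ≤ s ^ 4 * w x)
    {x : E} (x1 : s ≤ ‖x - z‖) (x2 : ‖x - z‖ ≤ 2 / 5) (x3 : 0 ≤ ⟪x - z, n⟫) :
    k * ⟪x - z, n⟫ ≤ w x := by
  have := hw.cmp (K := closedBall z (1 / 2) ∩ {y | s ≤ ‖y - z‖} ∩ {y | 0 ≤ ⟪y - z, n⟫})
    ((shell_compact z s _).inter_right (isClosed_le continuous_const (by fun_prop)))
    (hc.mono fun _ h => h.1.1) (φ := fun y => k * (⟪y - z, n⟫ * (((‖y - z‖ ^ 2)⁻¹) ^ 2 - 16)))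
    (continuousOn_const.mul (ContinuousOn.mul (by fun_prop)
      (((shell_cont z hs fun _ h => h.1.2).pow 2).sub continuousOn_const)))
    (fun y hy g => ?_) x ⟨⟨mem_closedBall_iff_norm.2 (by linarith), x1⟩, x3⟩
  · have a0 : 0 < ‖x - z‖ := by linarith
    have a1 : 25 / 4 ≤ (‖x - z‖ ^ 2)⁻¹ := by
      rw [le_inv_comm₀ (by norm_num) (by positivity)]
      nlinarith
    refine le_trans (mul_le_mul_of_nonneg_left (le_mul_of_one_le_right x3 ?_) hk.le) this
    nlinarith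
  · have b1 : ‖y - z‖ ≤ 1 / 2 := mem_closedBall_iff_norm.1 hy.1.1
    have b2 : s ≤ ‖y - z‖ := hy.1.2
    have b3 : 0 ≤ ⟪y - z, n⟫ := hy.2
    have b4 : 0 < ‖y - z‖ := by linarith
    have b5 := h0 y b1 b3
    have b6 : 0 < ⟪y - z, n⟫ := b3.lt_of_ne fun c => by
      simp only [← c, zero_mul, mul_zero] at g
      linarith
    refine ⟨inter_mem (inter_mem (closedBall_mem_nhds_of_mem
      (mem_ball_iff_norm.2 (b1.lt_of_ne fun c => ?_)))
      (ge_nhds (f := fun y => ‖y - z‖) (by fun_prop) (b2.lt_of_ne fun c => ?_)))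
      (ge_nhds (f := fun y => ⟪y - z, n⟫) (by fun_prop) b6), hO y b1 b6, _, _,
      ((Jet.inn n z y).mul ((jet_inv (sub_ne_zero.1 (norm_pos_iff.1 b4))).sq.sub_const 16)).const_mul
        k, mul_pos hk ?_, fun _ => lt_of_lt_of_le (by norm_num) (norm_nonneg _)⟩
    · simp only [c] at g
      norm_num at g
      linarith
    · have := h1 y c.symm b3
      simp only [← c] at g
      rw [← div_le_iff₀' (by positivity)] at this
      have e1 : k * (⟪y - z, n⟫ * (((s ^ 2)⁻¹) ^ 2 - 16)) =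
          k * ⟪y - z, n⟫ / s ^ 4 - 16 * (k * ⟪y - z, n⟫) := by field_simp
      linarith [mul_pos hk b6]
    · rw [norm_smul, norm_neg, Real.norm_of_nonneg (by positivity), real_inner_smul_right,
        real_inner_smul_right, real_inner_comm (y - z) n]
      refine lt_of_lt_of_eq (show 0 < 4 * ⟪y - z, n⟫ / ‖y - z‖ ^ 6 by positivity) ?_
      field_simp
      ring

theorem exists_side (he : ‖e‖ = 1) (hn : ‖n‖ = 1) (en : ⟪e, n⟫ = 0) : ∃ z : E, ‖z‖ = 1 / 4 ∧
    ⟪z, n⟫ = 0 ∧ closedBall z (1 / 8) ⊆ {x | ‖x‖ < 1 ∧ 0 < dd e x} := by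
  obtain ⟨β, h⟩ := Orthonormal.exists_orthonormalBasis_extension_of_card_eq (𝕜 := ℝ) (E := E)
    (ι := Fin 3) (by simp) (v := ![e, n, 0]) (s := {0, 1}) ⟨by
      rintro ⟨i, rfl | rfl⟩ <;> simpa, by
      rintro ⟨i, rfl | rfl⟩ ⟨j, rfl | rfl⟩ h <;> simp_all [real_inner_comm]⟩
  obtain rfl : β 0 = e := h 0 (by simp)
  obtain rfl : β 1 = n := h 1 (by simp)
  have n1 : ‖(1 / 4 : ℝ) • β 2‖ = 1 / 4 := by rw [norm_smul, β.orthonormal.1]; norm_num
  refine ⟨_, n1, by rw [real_inner_smul_left, β.orthonormal.2 (by decide), mul_zero],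
    fun x hx => ?_⟩
  have a1 := mem_closedBall_iff_norm.1 hx
  have a2 := inner_le_dd (β.orthonormal.1 2) (β.orthonormal.2 (show (0 : Fin 3) ≠ 2 by decide)) x
  have a3 := abs_inner_le (β.orthonormal.1 2) (x - (1 / 4 : ℝ) • β 2)
  rw [inner_sub_left, real_inner_smul_left, inner_unit (β.orthonormal.1 2)] at a3
  exact ⟨by linarith [norm_le_norm_sub_add x ((1 / 4 : ℝ) • β 2)],
    show 0 < dd (β 0) x by linarith [(abs_le.1 a2).2, (abs_le.1 a3).1]⟩

theorem exists_stepP {α₀ A : ℝ} (h0 : 1 < α₀) (hA : 1 ≤ A) : ∃ c γ₀ : ℝ, 0 < c ∧ 0 < γ₀ ∧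
    ∀ (e n : E) (U : E → ℝ) (P : Set E) (C α γ : ℝ), ‖e‖ = 1 → ‖n‖ = 1 → ⟪e, n⟫ = 0 → Lim e U P C →
      α₀ ≤ α → α ≤ A → 0 < γ → γ ≤ γ₀ → (∀ x, ‖x‖ < 1 → α * (⟪x, n⟫ - γ) ≤ U x) →
      ∀ x, ‖x‖ < 1 / 8 → (α + c) * (⟪x, n⟫ - γ) ≤ U x := by
  obtain ⟨m, m0, m1, m2⟩ : ∃ m : ℝ, 0 < m ∧ m ≤ 1 ∧ m ≤ α₀ - 1 :=
    ⟨min _ _, lt_min one_pos (by linarith), min_le_left _ _, min_le_right _ _⟩
  obtain ⟨s, s0, s1⟩ : ∃ s : ℝ, 0 < s ∧ A * s = m / 4096 :=
    ⟨m / 4096 / A, by positivity, by field_simp⟩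
  have s2 : s ≤ 1 / 4096 := by nlinarith
  refine ⟨m / 1024 * s ^ 3, s, by positivity, s0,
    fun e n U P C α γ he hn en h α0 α1 γ0 γ1 hU x hx => ?_⟩
  obtain ⟨z, z1, z2, z3⟩ := exists_side he hn en
  have zi : ∀ y, ⟪y - z, n⟫ = ⟪y, n⟫ := fun y => by rw [inner_sub_left, z2, sub_zero]
  have αγ : α * γ ≤ m / 4096 := s1 ▸ mul_le_mul α1 γ1 γ0.le (by linarith)
  have k1 := h.visc.vp.cmp (isCompact_closedBall z (1 / 8)) (h.visc.cont.mono z3)
    (φ := fun y => (1 + m / 2) * ⟪y - z, n⟫ - m / 4 * ‖y - z‖ ^ 2 + m * ⟪y - z, n⟫ ^ 2 + m / 512)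
    (by fun_prop) fun y hy g => by
      have b1 := mem_closedBall_iff_norm.1 hy
      have b2 := abs_le.1 ((abs_inner_le hn (y - z)).trans b1)
      refine ⟨closedBall_mem_nhds_of_mem (mem_ball_iff_norm.2 (b1.lt_of_ne fun c => ?_)), z3 hy,
        _, _, ((((Jet.inn n z y).const_mul _).sub ((Jet.nsq z y).const_mul _)).add
          ((Jet.inn n z y).sq.const_mul _)).add_const _, by rw [hn]; linarith, fun _ => ?_⟩
      · have b3 := hU y (z3 hy).1
        have b4 := h.nonneg y (z3 hy).1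
        rw [← zi] at b3
        simp only [c] at g
        rcases le_total ⟪y - z, n⟫ 0 with d | d <;>
          nlinarith [mul_le_mul_of_nonneg_left b2.1 m0.le, mul_le_mul_of_nonneg_left b2.2 m0.le]
      · refine lt_of_lt_of_le ?_ ((le_abs_self _).trans (abs_inner_le hn _))
        simp only [inner_add_left, inner_sub_left _ ((m / 4) • (2 : ℝ) • (y - z)),
          real_inner_smul_left, inner_unit hn]
        nlinarith
  have zi' : ∀ y, ⟪y - (z + γ • n), n⟫ = ⟪y, n⟫ - γ := fun y => by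
    rw [inner_sub_left, inner_add_left, z2, real_inner_smul_left, inner_unit hn]
    ring
  have n1 : ‖γ • n‖ = γ := by rw [norm_smul, hn, mul_one, Real.norm_of_nonneg γ0.le]
  have n2 : ∀ y, ‖y - z‖ ≤ ‖y - (z + γ • n)‖ + γ := fun y => by
    have := norm_sub_le_norm_sub_add_norm_sub y (z + γ • n) z
    rwa [add_sub_cancel_left, n1] at this
  have n3 : ∀ y, ‖y - (z + γ • n)‖ ≤ 1 / 2 → ‖y‖ < 1 := fun y hy => by
    linarith [n2 y, norm_le_norm_sub_add y z]
  rcases le_total (⟪x, n⟫ - γ) 0 with d | d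
  · exact (mul_nonpos_of_nonneg_of_nonpos (add_nonneg (by linarith) (by positivity)) d).trans
      (h.nonneg x (by linarith))
  have := hopf (w := fun y => U y + -α * ⟪y - (z + γ • n), n⟫) (z := z + γ • n)
    (k := m / 1024 * s ^ 3) (h.visc.super.add_jet fun y _ =>
      ⟨_, ((Jet.inn n _ y).const_mul _).congr rfl (mul_zero _)⟩) s0 (by positivity)
    ((h.cont.mono fun y hy => mem_ball_zero_iff.2 (n3 y (mem_closedBall_iff_norm.1 hy))).add
      (by fun_prop)) (fun y y1 _ => by rw [zi']; linarith [hU y (n3 y y1)])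
    (fun y y1 y2 => by
      rw [zi'] at y2
      exact ⟨⟨n3 y y1, by linarith [(abs_le.1 (inner_le_dd hn en y)).2]⟩,
        (mul_pos (by linarith) y2).trans_le (hU y (n3 y y1))⟩)
    (fun y y1 y2 => ?_) (x := x) (by linarith [n2 x, norm_le_norm_sub_add z x, norm_sub_rev x z])
    (by linarith [norm_sub_le x (z + γ • n), norm_add_le z (γ • n)]) (by rwa [zi'])
  · rw [zi'] at this
    linarith
  · have b1 := n2 y
    have b2 := k1 y (mem_closedBall_iff_norm.2 (by linarith))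
    have b3 := (le_abs_self _).trans (abs_inner_le hn (y - (z + γ • n)))
    have b4 : ‖y - z‖ ^ 2 ≤ (2 * s) ^ 2 := pow_le_pow_left₀ (norm_nonneg _) (by linarith) 2
    have b5 : α * ⟪y - (z + γ • n), n⟫ ≤ m / 4096 := s1 ▸ mul_le_mul α1 (by linarith) y2 (by linarith)
    have b6 : 0 ≤ ⟪y - z, n⟫ := by rw [zi]; rw [zi'] at y2; linarith
    have b7 : m / 1024 ≤ U y + -α * ⟪y - (z + γ • n), n⟫ := by
      nlinarith [mul_le_mul_of_nonneg_left b4 m0.le, mul_nonneg m0.le (sq_nonneg ⟪y - z, n⟫),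
        mul_nonneg m0.le b6, mul_le_mul_of_nonneg_left (mul_le_mul s2 s2 s0.le (by norm_num)) m0.le]
    refine le_trans ?_ (mul_le_mul_of_nonneg_left b7 (by positivity))
    rw [y1] at b3
    exact (mul_le_mul_of_nonneg_left b3 (by positivity)).trans_eq (by ring)

theorem exists_stepM {α₀ : ℝ} (h0 : α₀ < 1) : ∃ c γ₀ : ℝ, 0 < c ∧ c < 1 ∧ 0 < γ₀ ∧
    ∀ (e n : E) (U : E → ℝ) (P : Set E) (C α γ : ℝ), ‖e‖ = 1 → ‖n‖ = 1 → ⟪e, n⟫ = 0 → Lim e U P C →
      0 < α → α ≤ α₀ → 0 < γ → γ ≤ γ₀ → (∀ x ∈ P, ‖x‖ < 1 → U x ≤ α * (⟪x, n⟫ + γ)) →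
      ∀ x ∈ P, ‖x‖ < 1 / 8 → U x ≤ (1 - c) * α * (⟪x, n⟫ + γ) := by
  obtain ⟨m, m0, m1, m2⟩ : ∃ m : ℝ, 0 < m ∧ m ≤ 1 ∧ m ≤ 1 - α₀ :=
    ⟨min _ _, lt_min one_pos (by linarith), min_le_left _ _, min_le_right _ _⟩
  obtain ⟨s, s1⟩ : ∃ s : ℝ, s = m / 4096 := ⟨_, rfl⟩
  have s0 : 0 < s := by linarith
  refine ⟨s ^ 4, s, by positivity, pow_lt_one₀ s0.le (by linarith) four_ne_zero, s0,
    fun e n U P C α γ he hn en h α0 α1 γ0 γ1 hU x hxP hx => ?_⟩
  obtain ⟨z, z1, z2, z3⟩ := exists_side he hn en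
  have zi : ∀ y, ⟪y - z, n⟫ = ⟪y, n⟫ := fun y => by rw [inner_sub_left, z2, sub_zero]
  have lo : ∀ y ∈ P, ‖y‖ < 1 → 0 ≤ ⟪y, n⟫ + γ := fun y y1 y2 =>
    nonneg_of_mul_nonneg_right ((h.nonneg y y2).trans (hU y y1 y2)) α0
  have k1 := h.visc.vm.cmp h.visc.closed (isCompact_closedBall z (1 / 8)) (h.visc.cont.mono z3)
    (φ := fun y => (1 - m / 2) * ⟪y - z, n⟫ + (m / 4 * ‖y - z‖ ^ 2 - m * ⟪y - z, n⟫ ^ 2) - m / 512)
    (by fun_prop) fun y hy hP g => by
      have b1 := mem_closedBall_iff_norm.1 hy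
      have b0 := (abs_inner_le hn (y - z)).trans b1
      have b2 := abs_le.1 b0
      refine ⟨mem_nhdsWithin_of_mem_nhds (closedBall_mem_nhds_of_mem
        (mem_ball_iff_norm.2 (b1.lt_of_ne fun c => ?_))), z3 hy,
        _, _, (((Jet.inn n z y).const_mul _).add (((Jet.nsq z y).const_mul _).sub
          ((Jet.inn n z y).sq.const_mul _))).sub_const _, by rw [hn]; linarith, fun _ => ?_⟩
      · have b3 := hU y hP (z3 hy).1
        have b4 := lo y hP (z3 hy).1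
        rw [← zi] at b3 b4
        simp only [c] at g
        rcases le_total ⟪y - z, n⟫ 0 with d | d <;>
          nlinarith [mul_le_mul_of_nonneg_left b2.1 m0.le, mul_le_mul_of_nonneg_left b2.2 m0.le,
            mul_le_mul_of_nonneg_right α1 b4]
      · have b3 : ‖(m / 4) • (2 : ℝ) • (y - z) - m • (2 * ⟪y - z, n⟫) • n‖ ≤ 5 * m / 16 := by
          refine (norm_sub_le _ _).trans ?_
          simp only [norm_smul, hn, norm_mul, Real.norm_ofNat, Real.norm_eq_abs, abs_div,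
            abs_of_pos m0, Nat.abs_ofNat]
          nlinarith
        have b4 : ‖(1 - m / 2) • n‖ = 1 - m / 2 := by
          rw [norm_smul, hn, mul_one, Real.norm_of_nonneg (by linarith)]
        refine ⟨fun c => ?_, (norm_add_le _ _).trans_lt (by linarith)⟩
        rw [eq_neg_of_add_eq_zero_left c, norm_neg] at b4
        linarith
  have zi' : ∀ y, ⟪y - (z - γ • n), n⟫ = ⟪y, n⟫ + γ := fun y => by
    rw [inner_sub_left, inner_sub_left, z2, real_inner_smul_left, inner_unit hn]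
    ring
  have n1 : ‖γ • n‖ = γ := by rw [norm_smul, hn, mul_one, Real.norm_of_nonneg γ0.le]
  have n2 : ∀ y, ‖y - z‖ ≤ ‖y - (z - γ • n)‖ + γ := fun y => by
    have := norm_sub_le_norm_sub_add_norm_sub y (z - γ • n) z
    rwa [sub_sub_cancel_left, norm_neg, n1] at this
  have n3 : ∀ y, ‖y - (z - γ • n)‖ ≤ 1 / 2 → ‖y‖ < 1 := fun y hy => by
    linarith [n2 y, norm_le_norm_sub_add y z]
  have := hopf (w := fun y => -U y + α * ⟪y - (z - γ • n), n⟫) (z := z - γ • n)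
    (k := s ^ 4 * α) (h.sub.add_jet fun y _ =>
      ⟨_, ((Jet.inn n _ y).const_mul _).congr rfl (mul_zero _)⟩) s0 (by positivity)
    ((h.cont.mono fun y hy => mem_ball_zero_iff.2 (n3 y (mem_closedBall_iff_norm.1 hy))).neg.add
      (by fun_prop)) (fun y y1 y2 => ?_) (fun y y1 _ => mem_ball_zero_iff.2 (n3 y y1))
    (fun y y1 y2 => ?_) (x := x) (by linarith [n2 x, norm_le_norm_sub_add z x, norm_sub_rev x z])
    (by linarith [norm_sub_le x (z - γ • n), norm_sub_le z (γ • n)])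
    (by rw [zi']; exact lo x hxP (by linarith))
  · rw [zi'] at this
    linarith
  · by_cases c : y ∈ P
    · rw [zi']
      linarith [hU y c (n3 y y1)]
    · rw [h.zero (n3 y y1) (Or.inr c), neg_zero, zero_add]
      positivity
  · rw [h.zero (n3 y (by linarith)) (Or.inr fun c => ?_), neg_zero, zero_add, mul_assoc]
    have b1 := n2 y
    have b2 := k1 y (mem_closedBall_iff_norm.2 (by linarith)) c
    have b3 := (le_abs_self _).trans (abs_inner_le hn (y - z))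
    have b4 : ‖y - z‖ ^ 2 ≤ (1 / 2048) ^ 2 := pow_le_pow_left₀ (norm_nonneg _) (by linarith) 2
    have b5 : (1 - m / 2) * ⟪y - z, n⟫ ≤ 2 * s := by nlinarith
    nlinarith [mul_le_mul_of_nonneg_left b4 m0.le, mul_nonneg m0.le (sq_nonneg ⟪y - z, n⟫),
      h.nonneg y (n3 y (by linarith))]

theorem exists_noP {α₀ : ℝ} (h0 : 1 < α₀) (C : ℝ) : ∃ γ : ℝ, 0 < γ ∧
    ∀ (e n : E) (U : E → ℝ) (P : Set E), ‖e‖ = 1 → ‖n‖ = 1 → ⟪e, n⟫ = 0 → Lim e U P C →
      ¬∀ x, ‖x‖ < 1 → α₀ * (⟪x, n⟫ - γ) ≤ U x := by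
  obtain ⟨c, γ₀, c0, g0, H⟩ := exists_stepP h0 (A := 4 * |C| + 1) (by linarith [abs_nonneg C])
  obtain ⟨N, hN⟩ := exists_nat_ge ((4 * |C| + 1) / c)
  rw [div_le_iff₀ c0] at hN
  have key : ∀ (k : ℕ) (e n : E) (U : E → ℝ) (P : Set E) (α γ : ℝ), ‖e‖ = 1 → ‖n‖ = 1 →
      ⟪e, n⟫ = 0 → Lim e U P C → α₀ ≤ α → 4 * |C| + 1 ≤ α + k * c → 0 < γ →
      8 ^ k * γ ≤ min γ₀ (1 / 8) → ¬∀ x, ‖x‖ < 1 → α * (⟪x, n⟫ - γ) ≤ U x := by
    intro k
    induction k using Nat.strong_induction_on with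
    | _ k ih =>
      intro e n U P α γ he hn en h a0 a1 γ0 γ1 hU
      have γ2 := (le_mul_of_one_le_left γ0.le (one_le_pow₀ (by norm_num))).trans γ1
      rcases le_or_gt (4 * |C| + 1) α with g | g
      · have n1 : ‖(1 / 2 : ℝ) • n‖ = 1 / 2 := by rw [norm_smul, hn]; norm_num
        have b1 := hU _ (n1.trans_lt (by norm_num))
        have b2 := h.le _ (n1.trans_lt (by norm_num))
        have b3 := dd_le he ((1 / 2 : ℝ) • n)
        rw [real_inner_smul_left, inner_unit hn] at b1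
        have b4 := γ2.trans (min_le_right _ _)
        nlinarith [mul_le_mul_of_nonneg_right (le_abs_self C) (dd_nonneg e ((1 / 2 : ℝ) • n)),
          abs_nonneg C]
      obtain ⟨k, rfl⟩ : ∃ j, k = j + 1 := Nat.exists_eq_succ_of_ne_zero (by
        rintro rfl
        simp only [Nat.cast_zero, zero_mul, add_zero] at a1
        linarith)
      refine ih k k.lt_succ_self e n _ _ (α + c) (8 * γ) he hn en
        (h.scale he (t := 0) (r := 1 / 8) (by norm_num) (by norm_num)) (by linarith)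
        (by push_cast at a1; linarith) (by positivity) (by rwa [← mul_assoc, ← pow_succ])
        fun x hx => ?_
      have := H e n U P C α γ he hn en h a0 g.le γ0 (γ2.trans (min_le_left _ _)) hU
        ((1 / 8 : ℝ) • x) (by rw [norm_smul]; norm_num; linarith)
      rw [real_inner_smul_left] at this
      simp only [zero_smul, zero_add]
      linarith
  exact ⟨min γ₀ (1 / 8) / 8 ^ N, by positivity, fun e n U P he hn en h =>
    key N e n U P _ _ he hn en h le_rfl (by linarith) (by positivity) (le_of_eq (by field_simp))⟩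

theorem exists_noM {α₀ : ℝ} (h1 : 0 < α₀) (h0 : α₀ < 1) : ∃ γ : ℝ, 0 < γ ∧
    ∀ (e n : E) (U : E → ℝ) (P : Set E) (C : ℝ), ‖e‖ = 1 → ‖n‖ = 1 → ⟪e, n⟫ = 0 → Lim e U P C →
      ¬∀ x ∈ P, ‖x‖ < 1 → U x ≤ α₀ * (⟪x, n⟫ + γ) := by
  obtain ⟨c, γ₀, c0, c1, g0, H⟩ := exists_stepM h0
  obtain ⟨N, hN⟩ := exists_pow_lt_of_lt_one (show (0 : ℝ) < 1 / 1600 by norm_num)
    (show 1 - c < 1 by linarith)
  have key : ∀ (k : ℕ) (e n : E) (U : E → ℝ) (P : Set E) (C α γ : ℝ), ‖e‖ = 1 → ‖n‖ = 1 →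
      ⟪e, n⟫ = 0 → Lim e U P C → 0 < α → α ≤ α₀ → (1 - c) ^ k * α ≤ 1 / 1600 → 0 < γ →
      8 ^ k * γ ≤ min γ₀ (1 / 8) → ¬∀ x ∈ P, ‖x‖ < 1 → U x ≤ α * (⟪x, n⟫ + γ) := by
    intro k
    induction k with
    | zero =>
      intro e n U P C α γ he hn en h a0 _ a1 γ0 γ1 hU
      replace γ1 := γ1.trans (min_le_right _ _)
      rw [pow_zero, one_mul] at a1 γ1
      have n1 : ‖(-(1 / 2) : ℝ) • n‖ = 1 / 2 := by rw [norm_smul, hn]; norm_num
      have e0 : ⟪(-(1 / 2) : ℝ) • n, e⟫ = 0 := by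
        rw [real_inner_smul_left, real_inner_comm, en, mul_zero]
      obtain ⟨y, hy, hyP⟩ := h.hitP 0 (1 / 2) (by norm_num) (by norm_num)
      obtain ⟨w, w0, w1, hw⟩ := exists_chain he (show (-(1 / 2) : ℝ) • n ∈ circ e 0 (1 / 2) from
        ⟨e0, by rw [dd, e0, zero_smul, sub_zero, n1]⟩) hy
      have : ∀ k, ∀ x ∈ P, 1 / 8 ≤ ‖x - w k‖ := by
        intro k
        induction k with
        | zero =>
          intro x hx
          by_contra! g
          rw [w0] at g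
          have b1 : ‖x‖ < 1 := by linarith [norm_le_norm_sub_add x ((-(1 / 2) : ℝ) • n)]
          have b2 := nonneg_of_mul_nonneg_right ((h.nonneg x b1).trans (hU x hx b1)) a0
          have b3 := (le_abs_self _).trans (abs_inner_le hn (x - (-(1 / 2) : ℝ) • n))
          rw [inner_sub_left, real_inner_smul_left, inner_unit hn] at b3
          linarith
        | succ k ih =>
          have sb : ∀ x ∈ closedBall (w k) (2 * (1 / 8)), ‖x‖ < 1 ∧ 0 < dd e x := fun x hx => by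
            have b1 := mem_closedBall_iff_norm.1 hx
            have b2 := dd_le_add he (w k) x
            have b3 := circ_norm he (hw k).1
            rw [(hw k).1.2, norm_sub_rev] at b2
            rw [abs_zero] at b3
            exact ⟨by linarith [norm_le_norm_sub_add x (w k)], by linarith⟩
          intro x hx
          have := h.visc.spread (by norm_num) sb ih (fun y hy => ?_) x hx
          · linarith [norm_sub_le_norm_sub_add_norm_sub x (w (k + 1)) (w k), (hw k).2,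
              norm_sub_rev (w k) (w (k + 1))]
          · by_cases g : y ∈ P
            · have b1 := (le_abs_self _).trans (abs_inner_le hn y)
              nlinarith [hU y g (sb y hy).1, (sb y hy).1]
            · rw [h.zero (sb y hy).1 (Or.inr g)]
              norm_num
      have := this 100 y hyP
      rw [w1, sub_self, norm_zero] at this
      linarith
    | succ k ih =>
      intro e n U P C α γ he hn en h a0 a1 a2 γ0 γ1 hU
      have γ2 := (le_mul_of_one_le_left γ0.le (one_le_pow₀ (by norm_num))).trans γ1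
      refine ih e n _ _ C ((1 - c) * α) (8 * γ) he hn en
        (h.scale he (t := 0) (r := 1 / 8) (by norm_num) (by norm_num))
        (mul_pos (by linarith) a0) (by nlinarith) (by rwa [← mul_assoc, ← pow_succ])
        (by positivity) (by rwa [← mul_assoc, ← pow_succ]) fun x hP hx => ?_
      have := H e n U P C α γ he hn en h a0 a1 γ0 (γ2.trans (min_le_left _ _)) hU
        ((1 / 8 : ℝ) • x) (by simpa using hP) (by rw [norm_smul]; norm_num; linarith)
      rw [real_inner_smul_left] at this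
      simp only [zero_smul, zero_add]
      linarith
  exact ⟨min γ₀ (1 / 8) / 8 ^ N, by positivity, fun e n U P C he hn en h =>
    key N e n U P C _ _ he hn en h h1 le_rfl
      ((mul_le_of_le_one_right (pow_nonneg (by linarith) N) h0.le).trans hN.le) (by positivity)
      (le_of_eq (by field_simp))⟩

theorem Lim.blow (he : ‖e‖ = 1) (h : Lim e U P C) {x b : E} (hx : ‖x‖ < 1) (h0 : dd e x = 0)
    {φ : E → ℝ} {l : ℝ} (j : Jet φ x b l) (hm : ∀ᶠ y in 𝓝 x, dd e y = 0 → φ y ≤ φ x)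
    {Q : E → Prop} (hQ : ∀ᶠ y in 𝓝 x, Q y) {γ : ℝ} (hγ : 0 < γ) : ⟪e, b⟫ = 0 ∧ ∃ r : ℝ, 0 < r ∧
      Lim e (fun y => r⁻¹ * U (x + r • y)) ((fun y => x + r • y) ⁻¹' P) C ∧ ∀ y, ‖y‖ < 1 →
        Q (x + r • y) ∧ |φ (x + r • y) - φ x - r * ⟪y, b⟫| ≤ r * γ := by
  obtain ⟨t, rfl⟩ : ∃ t : ℝ, x = t • e := ⟨_, sub_eq_zero.1 (norm_eq_zero.1 h0)⟩
  have t1 : |t| < 1 := by rwa [norm_smul, he, mul_one] at hx
  have c : Tendsto (fun y => t • e + y) (𝓝 0) (𝓝 (t • e)) :=
    (continuous_const.add continuous_id).tendsto' 0 _ (add_zero _)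
  constructor
  · have d : HasDerivAt (fun s : ℝ => t • e + s • e) e 0 := by
      simpa using ((hasDerivAt_id (0 : ℝ)).smul_const e).const_add (t • e)
    have := IsLocalMax.hasDerivAt_eq_zero ?_
      (j.hasFDerivAt.comp_hasDerivAt_of_eq 0 d (by simp))
    · rwa [innerSL_apply_apply, real_inner_comm] at this
    · have d' : Tendsto (fun s : ℝ => t • e + s • e) (𝓝 0) (𝓝 (t • e)) := by
        simpa using d.continuousAt.tendsto
      filter_upwards [d'.eventually hm] with s hs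
      simpa using hs (by rw [dd_add he, ← add_zero (s • e), dd_add he]; simp [dd])
  · obtain ⟨r, r0, hr⟩ := Metric.eventually_nhds_iff_ball.1 ((c.eventually hQ).and
      ((hasFDerivAt_iff_isLittleO_nhds_zero.1 j.hasFDerivAt).def hγ))
    refine ⟨min r (1 - |t|), lt_min r0 (by linarith), h.scale he (lt_min r0 (by linarith))
      (by linarith [min_le_right r (1 - |t|)]), fun y hy => ?_⟩
    have p0 : 0 < min r (1 - |t|) := lt_min r0 (by linarith)
    have n1 : ‖min r (1 - |t|) • y‖ < min r (1 - |t|) := by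
      rw [norm_smul, Real.norm_of_nonneg p0.le]
      exact mul_lt_of_lt_one_right p0 hy
    obtain ⟨a1, a2⟩ := hr _ (mem_ball_zero_iff.2 (n1.trans_le (min_le_left _ _)))
    rw [innerSL_apply_apply, real_inner_smul_right, real_inner_comm] at a2
    exact ⟨a1, a2.trans (by nlinarith)⟩

theorem Lim.remove (he : ‖e‖ = 1) (h : Lim e U P C) (hP : ∀ x, ‖x‖ < 1 → dd e x = 0 → x ∈ P) :
    Visc U P (ball 0 1) := by
  have un : ∀ b : E, b ≠ 0 → ⟪e, b⟫ = 0 → ∃ n : E, ‖n‖ = 1 ∧ ⟪e, n⟫ = 0 ∧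
      ∀ y, ⟪y, b⟫ = ‖b‖ * ⟪y, n⟫ := fun b b0 eb => by
    have := norm_pos_iff.2 b0
    exact ⟨‖b‖⁻¹ • b, by rw [norm_unscale this, div_self this.ne'],
      by rw [real_inner_smul_right, eb, mul_zero],
      fun y => by rw [real_inner_smul_right, mul_inv_cancel_left₀ this.ne']⟩
  refine ⟨isOpen_ball, h.cont, fun x hx => h.nonneg x (mem_ball_zero_iff.1 hx), h.visc.closed,
    fun x hx g => not_not.1 fun c => g.ne' (h.zero (mem_ball_zero_iff.1 hx) (Or.inr c)),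
    fun x hx φ b l j hm l0 => ?_, fun x hx hxP φ b l j hm l0 => ?_⟩
  · have x1 := mem_ball_zero_iff.1 hx
    rcases (dd_nonneg e x).eq_or_lt with c | c
    swap
    · exact h.visc.vp x ⟨x1, c⟩ φ b l j hm l0
    have z := h.zero x1 (Or.inl c.symm)
    refine ⟨z.le, not_lt.1 fun g => ?_⟩
    obtain ⟨γ, γ0, H⟩ := exists_noP g C
    obtain ⟨eb, r, r0, h1, h2⟩ := h.blow he x1 c.symm j (by
      filter_upwards [hm, isOpen_ball.mem_nhds hx] with y a1 a2 a3
      linarith [h.zero (mem_ball_zero_iff.1 a2) (Or.inl a3)]) hm γ0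
    obtain ⟨n, n1, n2, n3⟩ := un b (norm_pos_iff.1 (by linarith)) eb
    refine H e n _ _ he n1 n2 h1 fun y hy => ?_
    obtain ⟨a1, a2⟩ := h2 y hy
    rw [n3] at a2
    rw [le_inv_mul_iff₀ r0]
    nlinarith [(abs_le.1 a2).1, mul_pos r0 γ0]
  · have x1 := mem_ball_zero_iff.1 hx
    rcases (dd_nonneg e x).eq_or_lt with c | c
    swap
    · exact h.visc.vm x ⟨x1, c⟩ hxP φ b l j hm l0
    have z := h.zero x1 (Or.inl c.symm)
    refine ⟨z.le, or_iff_not_imp_left.2 fun b0 => not_lt.1 fun g => ?_⟩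
    have b1 := norm_pos_iff.2 b0
    obtain ⟨γ, γ0, H⟩ := exists_noM b1 g
    have hm' := eventually_nhdsWithin_iff.1 hm
    obtain ⟨eb, r, r0, h1, h2⟩ := h.blow he x1 c.symm j.neg (by
      filter_upwards [hm', isOpen_ball.mem_nhds hx] with y a1 a2 a3
      linarith [h.zero (mem_ball_zero_iff.1 a2) (Or.inl a3),
        a1 (hP y (mem_ball_zero_iff.1 a2) a3)]) hm' (mul_pos b1 γ0)
    obtain ⟨n, n1, n2, n3⟩ := un b b0 (by simpa using eb)
    refine H e n _ _ C he n1 n2 h1 fun y hyP hy => ?_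
    obtain ⟨a1, a2⟩ := h2 y hy
    rw [inner_neg_right, n3] at a2
    rw [inv_mul_le_iff₀ r0]
    linarith [(abs_le.1 a2).1, a1 hyP]

end Pool.Agent.Lib.MP_155f9b_an
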