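import Pool.Agent.Lib.MP_155f9b_an.Rec

/-! The selection argument and flatness at all intermediate scales. -/

namespace Pool.Agent.Lib.MP_155f9b_an

open Filter Topology Metric
open scoped RealInnerProductSpace

variable {e ν : E} {u : E → ℝ} {P : Set E} {δ t r σ : ℝ}

theorem Adm.rot (he : ‖e‖ = 1) (h : Adm e u P δ) {ν' : E} {r' σ' : ℝ} (ht : |t| + r' < 1)
    (hr : r' ≤ r) (hσ : σ' ≤ 1 / 8) (hδ : 8 * δ ≤ r') (h1 : FlatD e u P δ t r σ ν)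
    (h2 : FlatD e u P δ t r' σ' ν') : ‖ν - ν'‖ * r' ≤ 4 * (σ * r + σ' * r') := by
  have δ0 := h.pos
  have r0 : 0 < r' := by linarith
  have k : ∀ w : E, ‖w‖ ≤ r' / 4 → |⟪(r' / 2) • ν' + w, ν - ν'⟫| ≤ σ * r + σ' * r' := fun w hw => by
    have a1 : ‖t • e + ((r' / 2) • ν' + w) - t • e‖ ≤ r' := by
      rw [add_sub_cancel_left]
      refine (norm_add_le _ _).trans ?_
      rw [norm_smul, h2.1, Real.norm_of_nonneg (by positivity)]
      linarith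
    have a2 : r' / 4 ≤ ⟪(r' / 2) • ν' + w, ν'⟫ := by
      rw [inner_add_left, real_inner_smul_left, inner_unit h2.1]
      linarith [(abs_le.1 ((abs_inner_le h2.1 w).trans hw)).1]
    have a3 : 2 * δ ≤ dd e (t • e + ((r' / 2) • ν' + w)) := by
      rw [dd_add he]
      linarith [(abs_le.1 (inner_le_dd h2.1 h2.2.1 ((r' / 2) • ν' + w))).2]
    have a4 := h1.2.2 _ ⟨a1.trans hr, a3⟩
    have a5 := h2.2.2 _ ⟨a1, a3⟩
    rw [add_sub_cancel_left] at a4 a5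
    have a6 := h.visc.pos _ (h.dom he ht ⟨a1, a3⟩)
      (by linarith [a5.1, mul_le_mul_of_nonneg_right hσ r0.le])
    rw [inner_sub_right]
    exact abs_le.2 ⟨by linarith [a4.2 a6, a5.1], by linarith [a4.1, a5.2 a6]⟩
  rcases eq_or_ne (ν - ν') 0 with c | c
  · have := k 0 (by rw [norm_zero]; positivity)
    rw [c, norm_zero, zero_mul]
    linarith [abs_nonneg ⟪(r' / 2) • ν' + 0, ν - ν'⟫]
  have n0 := norm_pos_iff.2 c
  have n1 : ‖(r' / 4 / ‖ν - ν'‖) • (ν - ν')‖ ≤ r' / 4 := by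
    rw [norm_smul, Real.norm_of_nonneg (by positivity), div_mul_cancel₀ _ n0.ne']
  have b1 := (abs_le.1 (k _ n1)).2
  have b2 := (abs_le.1 (k (-((r' / 4 / ‖ν - ν'‖) • (ν - ν'))) (by rwa [norm_neg]))).1
  have b3 : ⟪(r' / 4 / ‖ν - ν'‖) • (ν - ν'), ν - ν'⟫ = ‖ν - ν'‖ * r' / 4 := by
    rw [real_inner_smul_left, real_inner_self_eq_norm_sq]
    field_simp
  rw [inner_add_left, inner_neg_left, b3] at b2
  rw [inner_add_left, b3] at b1
  linarith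

theorem growth_scale (he : ‖e‖ = 1) {C ρ : ℝ}
    (hC : ∀ x, ‖x‖ ≤ 1 / 4 → 2 * δ ≤ dd e x → u x ≤ C * dd e x) (ht : |t| ≤ 1 / 8) (ρ0 : 0 < ρ)
    (ρ1 : ρ ≤ 1 / 8) (y : E) (h1 : ‖y‖ < 1) (h2 : 2 * (δ / ρ) ≤ dd e y) :
    ρ⁻¹ * u (t • e + ρ • y) ≤ C * dd e y := by
  have := hC (t • e + ρ • y) ((norm_axis he ρ0 t y).trans (by nlinarith [norm_nonneg y])) (by
    rw [dd_axis he ρ0]
    rwa [← mul_div_assoc, div_le_iff₀' ρ0] at h2)
  rw [dd_axis he ρ0] at this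
  rw [inv_mul_le_iff₀ ρ0]
  linarith

theorem reg_down (he : ‖e‖ = 1) {ρ R : ℝ} (ρ0 : 0 < ρ) {y : E} (hy : y ∈ reg e 0 R (δ / ρ)) :
    t • e + ρ • y ∈ reg e (t • e) (ρ * R) δ := by
  have := reg_scale (t := t) he ρ0 (sub_zero y ▸ hy.1) hy.2
  refine ⟨this.1, le_of_eq_of_le ?_ this.2⟩
  field_simp

theorem reg_up (he : ‖e‖ = 1) {ρ R : ℝ} (ρ0 : 0 < ρ) {x : E} (hx : x ∈ reg e (t • e) (ρ * R) δ) :
    ρ⁻¹ • (x - t • e) ∈ reg e 0 R (δ / ρ) := by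
  have := reg_unscale (κ := 2 * (δ / ρ)) he ρ0 hx.1 (le_of_eq_of_le (by field_simp) hx.2)
  exact ⟨by rw [sub_zero]; exact this.1, this.2⟩

theorem exists_pass' : ∃ σ₀ : ℝ, 0 < σ₀ ∧ ∀ (e : E) (L σ : ℝ), ‖e‖ = 1 → 2 ≤ L → 0 < σ → σ ≤ σ₀ →
    ∃ κ₀ : ℝ, 0 < κ₀ ∧ ∀ (u : E → ℝ) (P : Set E) (δ t r : ℝ) (ν : E), Adm e u P δ → |t| ≤ 1 / 8 →
      L * r ≤ 1 / 16 → δ ≤ κ₀ * r → FlatD e u P δ t (L * r) σ ν →
      ∃ ν', FlatD e u P δ t r (2 ^ 25 * σ) ν' := by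
  obtain ⟨σ₀, p0, H⟩ := exists_pass
  obtain ⟨C, C0, hC⟩ := exists_growth
  refine ⟨σ₀, p0, fun e L σ he L2 σ0 σ1 => ?_⟩
  have L0 : 0 < L := by linarith
  obtain ⟨κ₀, κ0, H⟩ := H e C (1 / (2 * L)) (σ / 2) he C0 (by positivity)
    (one_div_le_one_div_of_le (by norm_num) (by linarith)) (by positivity) (by linarith)
  refine ⟨κ₀, κ0, fun u P δ t r ν h ht hr hδ hF => ?_⟩
  have r0 : 0 < r := pos_of_mul_pos_left (mul_comm r _ ▸ h.pos.trans_le hδ) κ0.le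
  have ρ0 : 0 < 2 * (L * r) := by positivity
  obtain ⟨ν', n1, n2, hT⟩ := H _ _ _ ν (h.scale (t := t) he ρ0 (by linarith))
    (growth_scale he (hC e u P δ he h) ht ρ0 (by linarith))
    ((div_le_iff₀ ρ0).2 (hδ.trans (mul_le_mul_of_nonneg_left (by nlinarith) κ0.le))) hF.1
    ((hF.2.2.scale ρ0 fun y hy => by
      simpa only [show 2 * (L * r) * (1 / 2) = L * r by ring] using reg_down (t := t) he ρ0 hy).mono
      subset_rfl (le_of_eq (by field_simp)) (le_of_eq (by field_simp)))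
  have e1 : 2 * (L * r) * (1 / (2 * L)) = r := by field_simp
  refine ⟨ν', n1, n2, (hT.unscale ρ0 fun x hx => reg_up he ρ0 (e1.symm ▸ hx)).mono subset_rfl
    (le_of_eq ?_) (le_of_eq ?_)⟩ <;> field_simp

/-- the flatness hypothesis -/
def Fl (e ν : E) (u : E → ℝ) (P : Set E) (δ ε : ℝ) : Prop :=
  δ ≤ ε ∧ (∀ x, ‖x‖ < 1 → δ < dd e x → ε < ⟪x, ν⟫ → 0 < u x) ∧ ∀ x ∈ P, -ε ≤ ⟪x, ν⟫

theorem Fl.mono {ε ε' : ℝ} (h : Fl e ν u P δ ε) (hε : ε ≤ ε') : Fl e ν u P δ ε' :=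
  ⟨h.1.trans hε, fun x a b c => h.2.1 x a b (hε.trans_lt c),
    fun x hx => (neg_le_neg hε).trans (h.2.2 x hx)⟩

theorem exists_init' : ∃ C₁ : ℝ, 0 < C₁ ∧ ∀ (e ν : E) (θ : ℝ), ‖e‖ = 1 → ‖ν‖ = 1 → ⟪e, ν⟫ = 0 →
    0 < θ → ∃ ε : ℝ, 0 < ε ∧ ∀ (u : E → ℝ) (P : Set E) (δ t r : ℝ), Adm e u P δ →
      Fl e ν u P δ ε → |t| ≤ 1 / 8 → 0 < r → r ≤ 1 / 64 → FlatD e u P δ t r (C₁ * r + θ / r) ν := by
  obtain ⟨C, C0, hC⟩ := exists_growth
  refine ⟨8192 * (C + 1), by positivity, fun e ν θ he hν en θ0 => ?_⟩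
  obtain ⟨ε, ε0, H⟩ := exists_init he hν en C0 (θ := 8 * θ) (by positivity)
  refine ⟨ε / 8, by positivity, fun u P δ t r h hF ht r0 r1 => ⟨hν, en, ?_⟩⟩
  have ρ0 : (0 : ℝ) < 1 / 8 := by norm_num
  have i1 : ∀ y : E, ⟪t • e + (1 / 8 : ℝ) • y, ν⟫ = ⟪y, ν⟫ / 8 := fun y => by
    rw [inner_add_left, real_inner_smul_left, real_inner_smul_left, en]
    ring
  have hT := H _ _ _ (h.scale (t := t) he ρ0 (by linarith))
    (growth_scale he (hC e u P δ he h) ht ρ0 le_rfl) (by linarith [hF.1])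
    (fun y y1 y2 y3 => mul_pos (by norm_num) (hF.2.1 _ ((norm_axis he ρ0 t y).trans_lt (by linarith))
      (by rw [dd_axis he ρ0]; linarith) (by rw [i1]; linarith)))
    (fun y y1 _ => by linarith [hF.2.2 _ y1, i1 y]) (8 * r) (by linarith)
  have e1 : 1 / 8 * (8 * r) = r := by ring
  refine (hT.unscale ρ0 fun x hx => reg_up he ρ0 (e1.symm ▸ hx)).mono subset_rfl
    (le_of_eq ?_) (le_of_eq ?_) <;> field_simp <;> ring

theorem exists_good (he : ‖e‖ = 1) (hν : ‖ν‖ = 1) (en : ⟪e, ν⟫ = 0) : ∃ K T ε B : ℝ, 0 < K ∧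
    0 < T ∧ T ≤ 1 / 64 ∧ 0 < ε ∧ 0 < B ∧ ∀ (u : E → ℝ) (P : Set E) (δ t r : ℝ), Adm e u P δ →
      Fl e ν u P δ ε → |t| ≤ 1 / 32 → K * δ ≤ r → r ≤ T →
      ∃ ν', FlatD e u P δ t r (B * (√(r / T) + √(K * δ / r))) ν' := by
  obtain ⟨τ, σ₀, B, τ0, p0, B0, W⟩ := exists_weight
  obtain ⟨σ₁, p1, H⟩ := exists_pass'
  obtain ⟨C₁, C0, I⟩ := exists_init'
  obtain ⟨σ, σ0, σ1, σ2⟩ : ∃ σ : ℝ, 0 < σ ∧ σ ≤ σ₁ ∧ 2 ^ 25 * σ ≤ σ₀ :=
    ⟨min σ₁ (σ₀ / 2 ^ 25), by positivity, min_le_left _ _,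
      (le_div_iff₀' (by positivity)).1 (min_le_right _ _)⟩
  obtain ⟨N, N2, N3⟩ : ∃ N : ℝ, 2 ≤ N ∧ 3 * B ≤ σ * N :=
    ⟨max 2 (3 * B / σ), le_max_left _ _, (div_le_iff₀' σ0).1 (le_max_right _ _)⟩
  have N0 : 0 < N := by linarith
  obtain ⟨L, hL⟩ : ∃ L, L = N ^ 2 := ⟨_, rfl⟩
  have L2 : 4 ≤ L := by nlinarith
  have L0 : 0 < L := by linarith
  have L3 : L ≤ L ^ 2 := by nlinarith
  obtain ⟨κ₀, κ0, H⟩ := H e L σ he (by linarith) σ0 σ1
  obtain ⟨T, T0, T1, T2⟩ : ∃ T : ℝ, 0 < T ∧ L ^ 2 * T ≤ 1 / 16 ∧ C₁ * T ≤ σ₀ / 2 :=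
    ⟨min (1 / 16 / L ^ 2) (σ₀ / 2 / C₁), by positivity,
      (le_div_iff₀' (by positivity)).1 (min_le_left _ _), (le_div_iff₀' C0).1 (min_le_right _ _)⟩
  have T3 : T ≤ 1 / 64 := by nlinarith
  obtain ⟨ε, ε0, I⟩ := I e ν (σ₀ / 2 * (T / L ^ 2)) he hν en (by positivity)
  obtain ⟨K, K0, K1, K2⟩ : ∃ K : ℝ, 0 < K ∧ 1 ≤ τ * K ∧ 1 ≤ κ₀ * K :=
    ⟨max (1 / τ) (1 / κ₀), by positivity, (div_le_iff₀' τ0).1 (le_max_left _ _),
      (div_le_iff₀' κ0).1 (le_max_right _ _)⟩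
  refine ⟨K, T, ε, B, K0, T0, T3, ε0, B0, fun u P δ t₀ r₀ h hF => ?_⟩
  have δ0 := h.pos
  have Kδ : 0 < K * δ := by positivity
  have key : ∀ n : ℕ, ∀ t r, (1 / 2) ^ n * (T / L ^ 2) ≤ r → |t| ≤ 1 / 16 + L ^ 2 * r →
      K * δ ≤ r → r ≤ T → ∃ ν', FlatD e u P δ t r σ₀ ν' := by
    have base : ∀ t r, T / L ^ 2 ≤ r → |t| ≤ 1 / 16 + L ^ 2 * r → r ≤ T →
        ∃ ν', FlatD e u P δ t r σ₀ ν' := fun t r r1 t1 r2 => by
      have r0 : 0 < r := lt_of_lt_of_le (by positivity) r1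
      refine ⟨ν, (I u P δ t r h hF (by nlinarith) r0 (by linarith)).mono r0.le ?_⟩
      have : σ₀ / 2 * (T / L ^ 2) / r ≤ σ₀ / 2 :=
        (div_le_iff₀ r0).2 (mul_le_mul_of_nonneg_left r1 (by positivity))
      nlinarith
    intro n
    induction n with
    | zero => exact fun t r r1 t1 _ r2 => base t r (by simpa using r1) t1 r2
    | succ n ih =>
      intro t r r1 t1 r2 r3
      rcases le_total (T / L ^ 2) r with c | c
      · exact base t r c t1 r3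
      rw [le_div_iff₀' (by positivity)] at c
      have r0 : 0 < r := by linarith
      have a1 : L * r ≤ L ^ 2 * r := mul_le_mul_of_nonneg_right L3 r0.le
      have a2 : 4 * r ≤ L * r := mul_le_mul_of_nonneg_right L2 r0.le
      obtain ⟨ν', hν'⟩ := W e u P δ t (L ^ 2 * r) (2 * r) he h (by linarith) (by nlinarith)
        (fun t' r' t2 r4 r5 => ih t' r' (by rw [pow_succ] at r1; linarith)
          (by nlinarith [abs_sub_abs_le_abs_sub t' t]) (by linarith) (by linarith))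
        (L * r) (by linarith) a1
      have a3 : √(L * r / (L ^ 2 * r)) ≤ √1 / N := sqrt_le_div N0 (le_of_eq (by rw [← hL]; field_simp))
      have a4 : √(2 * r / (L * r)) ≤ √(2 ^ 2) / N := sqrt_le_div N0 (by
        rw [← hL, show 2 * r / (L * r) * L = 2 by field_simp]; norm_num)
      rw [Real.sqrt_one] at a3
      rw [Real.sqrt_sq (by norm_num)] at a4
      obtain ⟨ν'', h2⟩ := H u P δ t r ν' h (by linarith) (by linarith) (by nlinarith)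
        (hν'.mono (by linarith) ((mul_le_mul_of_nonneg_left (add_le_add a3 a4) B0.le).trans (by
          rw [← add_div, ← mul_div_assoc, div_le_iff₀ N0]; linarith)))
      exact ⟨ν'', h2.mono r0.le σ2⟩
  intro t1
  refine W e u P δ t₀ T (K * δ) he h (by linarith) (by nlinarith) (fun t r t2 r1 r2 => ?_) r₀
  have r0 : 0 < r := by linarith
  obtain ⟨n, hn⟩ := exists_pow_lt_of_lt_one (show 0 < r / (T / L ^ 2) by positivity)
    (show (1 / 2 : ℝ) < 1 by norm_num)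
  exact key n t r ((lt_div_iff₀ (by positivity)).1 hn).le
    (by nlinarith [abs_sub_abs_le_abs_sub t t₀]) r1 r2

theorem sqrt_four (x : ℝ) : √(4 * x) = 2 * √x := by
  rw [Real.sqrt_mul (by norm_num), show (4 : ℝ) = 2 ^ 2 by norm_num, Real.sqrt_sq (by norm_num)]

theorem exists_flat (he : ‖e‖ = 1) (hν : ‖ν‖ = 1) (en : ⟪e, ν⟫ = 0) {ω : ℝ} (ω0 : 0 < ω) :
    ∃ K T ε : ℝ, 8 ≤ K ∧ 0 < T ∧ T ≤ 1 / 64 ∧ 0 < ε ∧ ∀ (u : E → ℝ) (P : Set E) (δ t r : ℝ),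
      Adm e u P δ → Fl e ν u P δ ε → |t| ≤ 1 / 32 → K * δ ≤ r → r ≤ T → FlatD e u P δ t r ω ν := by
  obtain ⟨K, T, ε, B, K0, T0, T1, ε0, B0, G⟩ := exists_good he hν en
  obtain ⟨C₁, C0, I⟩ := exists_init'
  obtain ⟨η, η0, η1, η2, η3⟩ : ∃ η : ℝ, 0 < η ∧ η ≤ 1 ∧ 16 * B * η ≤ 1 ∧
      (4 * C₁ * T + 65 * B) * η ≤ ω / 2 :=
    ⟨min 1 (min (1 / (16 * B)) (ω / 2 / (4 * C₁ * T + 65 * B))), by positivity, min_le_left _ _,
      (le_div_iff₀' (by positivity)).1 ((min_le_right _ _).trans (min_le_left _ _)),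
      (le_div_iff₀' (by positivity)).1 ((min_le_right _ _).trans (min_le_right _ _))⟩
  obtain ⟨R, hR⟩ : ∃ R, R = η ^ 2 * T := ⟨_, rfl⟩
  have R0 : 0 < R := by rw [hR]; positivity
  have R1 : R ≤ η * T := by rw [hR]; exact mul_le_mul_of_nonneg_right (by nlinarith) T0.le
  have R2 : R ≤ T := by nlinarith
  obtain ⟨ε', ε1, I⟩ := I e ν (ω * R / 32) he hν en (by positivity)
  refine ⟨max 8 (K / η ^ 2), R, min ε ε', le_max_left _ _, R0, by linarith, by positivity,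
    fun u P δ t r h hF ht => ?_⟩
  have δ0 := h.pos
  have pre : ∀ r, max 8 (K / η ^ 2) * δ ≤ r → r ≤ R → 8 * δ ≤ r ∧ √(r / T) ≤ η ∧
      √(K * δ / r) ≤ η ∧ ∃ ν', FlatD e u P δ t r (B * (√(r / T) + √(K * δ / r))) ν' := by
    intro r r1 r2
    have a1 := (mul_le_mul_of_nonneg_right (le_max_left _ _) δ0.le).trans r1
    have a2 := (mul_le_mul_of_nonneg_right (le_max_right _ _) δ0.le).trans r1
    rw [div_mul_eq_mul_div, div_le_iff₀ (by positivity)] at a2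
    have r0 : 0 < r := by linarith
    exact ⟨a1, Real.sqrt_le_iff.2 ⟨η0.le, (div_le_iff₀ T0).2 (hR ▸ r2)⟩,
      Real.sqrt_le_iff.2 ⟨η0.le, (div_le_iff₀' r0).2 a2⟩, G u P δ t r h
        (hF.mono (min_le_left _ _)) ht (a2.trans (mul_le_of_le_one_right r0.le (by nlinarith)))
        (by linarith)⟩
  have key : ∀ n : ℕ, ∀ r, (1 / 4) ^ n * (R / 4) ≤ r → max 8 (K / η ^ 2) * δ ≤ r → r ≤ R →
      ∀ ν', FlatD e u P δ t r (B * (√(r / T) + √(K * δ / r))) ν' → ‖ν - ν'‖ ≤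
        4 * C₁ * R + ω / 2 + 40 * B * η - 36 * B * √(r / T) + 24 * B * √(K * δ / r) := by
    have base : ∀ r, R / 4 ≤ r → max 8 (K / η ^ 2) * δ ≤ r → r ≤ R →
        ∀ ν', FlatD e u P δ t r (B * (√(r / T) + √(K * δ / r))) ν' → ‖ν - ν'‖ ≤
          4 * C₁ * R + ω / 2 + 40 * B * η - 36 * B * √(r / T) + 24 * B * √(K * δ / r) := by
      intro r r1 r2 r3 ν' hν'
      have r0 : 0 < r := by linarith
      obtain ⟨a1, a2, a3, -⟩ := pre r r2 r3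
      have a4 := h.rot he (by linarith) le_rfl (by nlinarith) a1 (I u P δ t r h
        (hF.mono (min_le_right _ _)) (by linarith) r0 (by linarith)) hν'
      rw [← add_mul, ← mul_assoc] at a4
      have a5 : ω * R / 32 / r ≤ ω / 8 := (div_le_iff₀ r0).2 (by nlinarith)
      nlinarith [le_of_mul_le_mul_right a4 r0, Real.sqrt_nonneg (K * δ / r)]
    intro n
    induction n with
    | zero => exact fun r r1 => base r (by simpa using r1)
    | succ n ih =>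
      intro r r1 r2 r3 ν' hν'
      rcases le_total (R / 4) r with c | c
      · exact base r c r2 r3 ν' hν'
      obtain ⟨a1, a2, a3, -⟩ := pre r r2 r3
      have r0 : 0 < r := by linarith
      obtain ⟨-, -, -, ν'', h2⟩ := pre (4 * r) (by linarith) (by linarith)
      have a4 := ih (4 * r) (by rw [pow_succ] at r1; linarith) (by linarith) (by linarith) ν'' h2
      have a5 := h.rot he (by linarith) (by linarith) (by nlinarith) a1 h2 hν'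
      have e1 : √(4 * r / T) = 2 * √(r / T) := by rw [mul_div_assoc, sqrt_four]
      have e2 : √(K * δ / r) = 2 * √(K * δ / (4 * r)) := by
        rw [← sqrt_four]
        congr 1
        field_simp
      have a6 : ‖ν'' - ν'‖ ≤ 36 * B * √(r / T) + 24 * B * √(K * δ / (4 * r)) :=
        le_of_mul_le_mul_right (a5.trans_eq (by rw [e1, e2]; ring)) r0
      rw [e1] at a4
      rw [e2]
      linarith [norm_sub_le_norm_sub_add_norm_sub ν ν'' ν']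
  intro r1 r2
  obtain ⟨a1, a2, a3, ν', hν'⟩ := pre r r1 r2
  have r0 : 0 < r := by linarith
  obtain ⟨n, hn⟩ := exists_pow_lt_of_lt_one (show 0 < r / (R / 4) by positivity)
    (show (1 / 4 : ℝ) < 1 by norm_num)
  have a4 := key n r ((lt_div_iff₀ (by positivity)).1 hn).le r1 r2 ν' hν'
  rw [norm_sub_rev] at a4
  have a5 : B * (√(r / T) + √(K * δ / r)) + (4 * C₁ * R + ω / 2 + 40 * B * η - 36 * B * √(r / T) +
      24 * B * √(K * δ / r)) ≤ ω := by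
    nlinarith [Real.sqrt_nonneg (r / T), mul_le_mul_of_nonneg_left R1 C0.le]
  have a6 := mul_le_mul_of_nonneg_right a5 r0.le
  exact ⟨hν, en, (hν'.2.2.tilt a4 fun x hx => hx.1).mono subset_rfl (by linarith) (by linarith)⟩

end Pool.Agent.Lib.MP_155f9b_an
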