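import Pool.Agent.Lib.MP_155f9b_an.Jet

/-! Viscosity solutions of the one-phase problem, comparison, entire harmonic functions. -/

namespace Pool.Agent.Lib.MP_155f9b_an

open Filter Topology Metric
open scoped RealInnerProductSpace

/-- supersolution property; for `θ < 0` it is superharmonicity -/
def VP (θ : ℝ) (u : E → ℝ) (D : Set E) : Prop :=
  ∀ x ∈ D, ∀ φ b l, Jet φ x b l → IsLocalMax (fun y => φ y - u y) x → 0 < l → u x ≤ 0 ∧ ‖b‖ ≤ θ

/-- subsolution property relative to the closed set `P` -/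
def VM (u : E → ℝ) (P D : Set E) : Prop :=
  ∀ x ∈ D, x ∈ P → ∀ φ b l, Jet φ x b l → IsLocalMaxOn (fun y => u y - φ y) P x → l < 0 →
    u x ≤ 0 ∧ (b = 0 ∨ 1 ≤ ‖b‖)

/-- viscosity solutions -/
structure Visc (u : E → ℝ) (P D : Set E) : Prop where
  isOpen : IsOpen D
  cont : ContinuousOn u D
  nonneg : ∀ x ∈ D, 0 ≤ u x
  closed : IsClosed P
  pos : ∀ x ∈ D, 0 < u x → x ∈ P
  vp : VP 1 u D
  vm : VM u P D

/-- entire harmonic functions with their gradient -/
def Harm (h : E → ℝ) (G : E → E) : Prop := ∀ x, Jet h x (G x) 0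

variable {θ : ℝ} {u φ : E → ℝ} {P D K : Set E}

theorem VP.mono (h : VP θ u D) {D' : Set E} (s : D' ⊆ D) : VP θ u D' := fun x hx => h x (s hx)

theorem Visc.mono (h : Visc u P D) {D' : Set E} (o : IsOpen D') (s : D' ⊆ D) : Visc u P D' :=
  ⟨o, h.cont.mono s, fun x hx => h.nonneg x (s hx), h.closed, fun x hx => h.pos x (s hx),
    h.vp.mono s, fun x hx => h.vm x (s hx)⟩

theorem Visc.zero (h : Visc u P D) {x : E} (hx : x ∈ D) (hP : x ∉ P) : u x = 0 :=
  le_antisymm (not_lt.1 fun c => hP (h.pos x hx c)) (h.nonneg x hx)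

theorem VP.cmp (h : VP θ u D) (hK : IsCompact K) (hu : ContinuousOn u K) (hφ : ContinuousOn φ K)
    (H : ∀ x ∈ K, u x < φ x → K ∈ 𝓝 x ∧ x ∈ D ∧ ∃ b l, Jet φ x b l ∧ 0 < l ∧
      (u x ≤ 0 → θ < ‖b‖)) : ∀ x ∈ K, φ x ≤ u x := by
  intro x hx
  obtain ⟨z, hz, hm⟩ := hK.exists_isMaxOn ⟨x, hx⟩ (hφ.sub hu)
  by_contra c
  have h1 : φ x - u x ≤ φ z - u z := hm hx
  obtain ⟨a1, a2, b, l, j, l0, a3⟩ := H z hz (by linarith)
  obtain ⟨a4, a5⟩ := h z a2 φ b l j (hm.isLocalMax a1) l0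
  exact (a3 a4).not_ge a5

theorem VM.cmp (h : VM u P D) (hP : IsClosed P) (hK : IsCompact K) (hu : ContinuousOn u K)
    (hφ : ContinuousOn φ K)
    (H : ∀ x ∈ K, x ∈ P → φ x < u x → K ∈ 𝓝[P] x ∧ x ∈ D ∧ ∃ b l, Jet φ x b l ∧ l < 0 ∧
      (u x ≤ 0 → b ≠ 0 ∧ ‖b‖ < 1)) : ∀ x ∈ K, x ∈ P → u x ≤ φ x := by
  intro x hx hxP
  obtain ⟨z, hz, hm⟩ := (hK.inter_right hP).exists_isMaxOn ⟨x, hx, hxP⟩
    ((hu.sub hφ).mono Set.inter_subset_left)
  by_contra c
  have h1 : u x - φ x ≤ u z - φ z := hm ⟨hx, hxP⟩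
  obtain ⟨a1, a2, b, l, j, l0, a3⟩ := H z hz.1 hz.2 (by linarith)
  obtain ⟨a4, a5⟩ := h z a2 hz.2 φ b l j
    (mem_of_superset (inter_mem a1 self_mem_nhdsWithin) hm) l0
  exact a5.elim (a3 a4).1 (a3 a4).2.not_ge

theorem max_principle (hK : IsCompact K) (hφ : ContinuousOn φ K)
    (H : ∀ x ∈ K, 0 < φ x → K ∈ 𝓝 x ∧ ∃ b l, Jet φ x b l ∧ 0 < l) : ∀ x ∈ K, φ x ≤ 0 := by
  intro x hx
  obtain ⟨z, hz, hm⟩ := hK.exists_isMaxOn ⟨x, hx⟩ hφ
  by_contra c
  obtain ⟨a1, b, l, j, l0⟩ := H z hz ((not_le.1 c).trans_le (hm hx))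
  exact l0.not_ge (j.nonpos_of_max (hm.isLocalMax a1))

theorem VP.add_jet (h : VP (-1) u D) {w : E → ℝ} (hw : ∀ x ∈ D, ∃ b, Jet w x b 0) :
    VP (-1) (fun y => u y + w y) D := by
  intro x hx φ b l j hm l0
  obtain ⟨c, jc⟩ := hw x hx
  have := (h x hx _ _ _ (j.sub jc) (by simpa only [sub_add_eq_sub_sub_swap] using hm)
    (by simpa using l0)).2
  linarith [norm_nonneg (b - c)]

theorem Visc.super (h : Visc u P D) : VP (-1) u {x | x ∈ D ∧ 0 < u x} :=
  fun x hx φ b l j hm l0 => absurd (h.vp x hx.1 φ b l j hm l0).1 hx.2.not_ge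

theorem Visc.sub (h : Visc u P D) : VP (-1) (fun y => -u y) D := by
  intro x hx φ b l j hm l0
  exfalso
  rcases (h.nonneg x hx).eq_or_lt with e | e
  · refine l0.not_ge (j.nonpos_of_max ?_)
    filter_upwards [hm, h.isOpen.mem_nhds hx] with y h1 h2
    linarith [h.nonneg y h2]
  · refine e.not_ge (h.vm x hx (h.pos x hx e) _ _ _ j.neg (IsLocalMax.on ?_ _) (by linarith)).1
    filter_upwards [hm] with y h1
    linarith

theorem sim_inv (p : E) {r : ℝ} (hr : r ≠ 0) (x : E) : r⁻¹ • (p + r • x - p) = x := by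
  rw [add_sub_cancel_left, inv_smul_smul₀ hr]

theorem sim_inv' (p : E) {r : ℝ} (hr : r ≠ 0) (x : E) : p + r • r⁻¹ • (x - p) = x := by
  rw [smul_inv_smul₀ hr, add_sub_cancel]

theorem Jet.unscale {x b : E} {l : ℝ} (p : E) {r : ℝ} (hr : r ≠ 0) (j : Jet φ x b l) :
    Jet (fun y => r * φ (r⁻¹ • (y - p))) (p + r • x) b (r⁻¹ * l) := by
  have := (Jet.scale (φ := φ) (x := p + r • x) (b := b) (l := l) (-r⁻¹ • p) r⁻¹
    (by rwa [neg_smul, neg_add_eq_sub, ← smul_sub, sim_inv p hr])).const_mul r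
  refine (this.congr_fun (Eventually.of_forall fun y => ?_)).congr (smul_inv_smul₀ hr b)
    (by field_simp)
  simp only [neg_smul, neg_add_eq_sub, smul_sub]

theorem VP.scale (h : VP θ u D) (p : E) {r : ℝ} (hr : 0 < r) :
    VP θ (fun y => r⁻¹ * u (p + r • y)) ((fun y => p + r • y) ⁻¹' D) := by
  intro x hx φ b l j hm l0
  have c : Tendsto (fun y => r⁻¹ • (y - p)) (𝓝 (p + r • x)) (𝓝 x) :=
    Continuous.tendsto' (by fun_prop) _ _ (sim_inv p hr.ne' x)
  obtain ⟨a1, a2⟩ := h _ hx _ _ _ (j.unscale p hr.ne') (by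
    filter_upwards [c.eventually hm] with y hy
    rw [sim_inv' p hr.ne'] at hy
    have := mul_le_mul_of_nonneg_left hy hr.le
    simpa only [mul_sub, mul_inv_cancel_left₀ hr.ne', sim_inv p hr.ne'] using this)
    (by positivity)
  exact ⟨mul_nonpos_of_nonneg_of_nonpos (by positivity) a1, a2⟩

theorem Visc.scale (h : Visc u P D) (p : E) {r : ℝ} (hr : 0 < r) :
    Visc (fun y => r⁻¹ * u (p + r • y)) ((fun y => p + r • y) ⁻¹' P)
      ((fun y => p + r • y) ⁻¹' D) := by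
  have c0 : Continuous fun y : E => p + r • y := by fun_prop
  refine ⟨h.isOpen.preimage c0, continuousOn_const.mul (h.cont.comp c0.continuousOn fun _ h => h),
    fun x hx => mul_nonneg (by positivity) (h.nonneg _ hx), h.closed.preimage c0,
    fun x hx g => h.pos _ hx (pos_of_mul_pos_left (mul_comm r⁻¹ _ ▸ g) (by positivity)),
    h.vp.scale p hr, fun x hx hP φ b l j hm l0 => ?_⟩
  have c : Tendsto (fun y => r⁻¹ • (y - p)) (𝓝[P] (p + r • x))
      (𝓝[(fun y => p + r • y) ⁻¹' P] x) :=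
    tendsto_nhdsWithin_of_tendsto_nhds_of_eventually_within _
      ((Continuous.tendsto' (f := fun y => r⁻¹ • (y - p)) (by fun_prop) _ _
        (sim_inv p hr.ne' x)).mono_left nhdsWithin_le_nhds)
      (eventually_nhdsWithin_of_forall fun y hy => by
        rwa [Set.mem_preimage, sim_inv' p hr.ne'])
  obtain ⟨a1, a2⟩ := h.vm _ hx hP _ _ _ (j.unscale p hr.ne') (by
    filter_upwards [c.eventually hm] with y hy
    rw [sim_inv' p hr.ne'] at hy
    have := mul_le_mul_of_nonneg_left hy hr.le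
    simpa only [mul_sub, mul_inv_cancel_left₀ hr.ne', sim_inv p hr.ne'] using this)
    (mul_neg_of_pos_of_neg (by positivity) l0)
  exact ⟨mul_nonpos_of_nonneg_of_nonpos (by positivity) a1, a2⟩

theorem ge_nhds {f : E → ℝ} {a : ℝ} {x : E} (hf : ContinuousAt f x) (h : a < f x) :
    {z | a ≤ f z} ∈ 𝓝 x := (hf.eventually (lt_mem_nhds h)).mono fun _ => le_of_lt

theorem le_nhds {f : E → ℝ} {a : ℝ} {x : E} (hf : ContinuousAt f x) (h : f x < a) :
    {z | f z ≤ a} ∈ 𝓝 x := (hf.eventually (gt_mem_nhds h)).mono fun _ => le_of_lt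

namespace Harm

variable {h : E → ℝ} {G : E → E} {M : ℝ}

theorem continuous (H : Harm h G) : Continuous h :=
  continuous_iff_continuousAt.2 fun x => (H x).continuousAt

theorem le_of_bdry (H : Harm h G) (hu : VP (-1) u D) (hK : IsCompact K) (hc : ContinuousOn u K)
    (hb : ∀ x ∈ K, u x < h x → K ∈ 𝓝 x ∧ x ∈ D) : ∀ x ∈ K, h x ≤ u x := by
  obtain ⟨B, hB⟩ := hK.isBounded.exists_norm_le
  intro x hx
  refine le_of_forall_pos_le_add fun ε ε0 => ?_
  have e0 : 0 < ε / (B ^ 2 + 1) := by positivity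
  have := hu.cmp hK hc (φ := fun y => h y + ε / (B ^ 2 + 1) * ‖y - 0‖ ^ 2 - ε)
    (by have := H.continuous; fun_prop) (fun y hy g => ?_) x hx
  · nlinarith [mul_nonneg e0.le (sq_nonneg ‖x - 0‖)]
  · have a1 : ‖y - 0‖ ^ 2 ≤ B ^ 2 + 1 := by
      rw [sub_zero]
      nlinarith [hB y hy, norm_nonneg y]
    have a2 := mul_le_mul_of_nonneg_left a1 e0.le
    rw [div_mul_cancel₀ _ (by positivity)] at a2
    obtain ⟨a3, a4⟩ := hb y hy (by linarith)
    exact ⟨a3, a4, _, _, ((H y).add ((Jet.nsq 0 y).const_mul _)).sub_const _, by linarith,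
      fun _ => lt_of_lt_of_le (by norm_num) (norm_nonneg _)⟩

theorem neg (H : Harm h G) : Harm (fun y => -h y) fun y => -G y := fun x => by
  simpa using (H x).neg

theorem add_const (H : Harm h G) (a : ℝ) : Harm (fun y => h y + a) G := fun x => (H x).add_const a

theorem vp (H : Harm h G) : VP (-1) h Set.univ := fun x _ φ b l j hm l0 =>
  absurd ((j.sub (H x)).nonpos_of_max hm) (by simpa using l0)

theorem odd_le (H : Harm h G) (hM : 0 < M) (hb : ∀ x ∈ closedBall (0 : E) 1, |h x| ≤ M) {v : E}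
    (hv : ‖v‖ ≤ 1) : h v - h (-v) ≤ 8 * M * ‖v‖ := by
  rcases eq_or_ne v 0 with rfl | v0
  · simp
  have n0 : 0 < ‖v‖ := norm_pos_iff.2 v0
  obtain ⟨e, he, ev⟩ : ∃ e : E, ‖e‖ = 1 ∧ v = ‖v‖ • e :=
    ⟨‖v‖⁻¹ • v, by simp [norm_smul, n0.ne'], by simp [n0.ne']⟩
  obtain ⟨A, -, hA⟩ := exists_refl he
  have i1 : ⟪v - 0, e⟫ = ‖v‖ := by
    rw [sub_zero]
    nth_rw 1 [ev]
    simp [inner_smul_left, he]
  have := max_principle (K := closedBall 0 1 ∩ {z | 0 ≤ ⟪z - 0, e⟫})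
    (φ := fun z => h z - h (0 + (1 : ℝ) • A z) -
      2 * M * (‖z - 0‖ ^ 2 + 4 * ⟪z - 0, e⟫ - 4 * ⟪z - 0, e⟫ ^ 2))
    ((isCompact_closedBall 0 1).inter_right (isClosed_le continuous_const (by fun_prop)))
    (by have := H.continuous; fun_prop) (fun z hz g => ?_) v
    ⟨mem_closedBall_zero_iff.2 hv, i1.ge.trans' n0.le⟩
  · have e2 : A v = -v := by
      rw [hA, ← sub_zero v, i1, sub_zero]
      nth_rw 1 3 [ev]
      module
    rw [i1] at this
    simp only [sub_zero, zero_add, one_smul, e2] at this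
    nlinarith [mul_pos hM (mul_pos n0 n0)]
  · have a0 : 0 ≤ ⟪z - 0, e⟫ := hz.2
    have a1 : ‖z‖ ≤ 1 := mem_closedBall_zero_iff.1 hz.1
    have a2 : ⟪z - 0, e⟫ ≤ 1 := by
      have := real_inner_le_norm (z - 0) e
      rw [he, sub_zero] at this
      rw [sub_zero]
      linarith
    refine ⟨inter_mem (closedBall_mem_nhds_of_mem (mem_ball_zero_iff.2 (a1.lt_of_ne fun c => ?_)))
      (ge_nhds (f := fun z => ⟪z - 0, e⟫) (by fun_prop) (a0.lt_of_ne fun c => ?_)),
      _, _, ((H z).sub (Jet.sim A 0 1 (H _))).sub (Jet.const_mul _ (((Jet.nsq 0 z).add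
        ((Jet.inn e 0 z).const_mul 4)).sub ((Jet.inn e 0 z).sq.const_mul 4))), by
          rw [he]; linarith⟩
    · have b1 := (abs_le.1 (hb z hz.1)).2
      have b2 := (abs_le.1 (hb (A z) (by simpa using a1))).1
      simp only [zero_add, one_smul] at g
      rw [sub_zero z, c] at g
      rw [sub_zero] at a0 a2
      nlinarith [mul_nonneg hM.le (mul_nonneg a0 (sub_nonneg.2 a2))]
    · rw [← c] at g
      rw [sub_zero] at c
      simp only [zero_add, one_smul, hA, ← c, mul_zero, zero_smul, sub_zero] at g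
      nlinarith [mul_nonneg hM.le (sq_nonneg ‖z‖)]

theorem lip (H : Harm h G) (hM : 0 < M) {c : E} {R : ℝ} (hR : 0 < R)
    (hb : ∀ x ∈ closedBall c (2 * R), |h x| ≤ M) {x y : E} (hx : x ∈ closedBall c R)
    (hy : y ∈ closedBall c R) : |h x - h y| ≤ 4 * M / R * ‖x - y‖ := by
  have key : ∀ x ∈ closedBall c R, ∀ y ∈ closedBall c R, h x - h y ≤ 4 * M / R * ‖x - y‖ := by
    intro x hx y hy
    have hm : (1 / 2 : ℝ) • x + (1 / 2 : ℝ) • y ∈ closedBall c R :=
      convex_closedBall c R hx hy (by norm_num) (by norm_num) (by norm_num)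
    have n1 : ‖(2 * R)⁻¹ • (x - y)‖ = (2 * R)⁻¹ * ‖x - y‖ := by
      rw [norm_smul, Real.norm_of_nonneg (by positivity)]
    have := odd_le (h := fun z => h ((1 / 2 : ℝ) • x + (1 / 2 : ℝ) • y + R • z))
      (G := fun z => R • G ((1 / 2 : ℝ) • x + (1 / 2 : ℝ) • y + R • z))
      (fun z => (Jet.scale _ R (H _)).congr rfl (mul_zero _)) hM (fun z hz => hb _ ?_)
      (v := (2 * R)⁻¹ • (x - y)) ?_
    · have e1 : (1 / 2 : ℝ) • x + (1 / 2 : ℝ) • y + R • (2 * R)⁻¹ • (x - y) = x := by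
        rw [smul_smul, show R * (2 * R)⁻¹ = 1 / 2 by field_simp]
        module
      have e2 : (1 / 2 : ℝ) • x + (1 / 2 : ℝ) • y + R • -((2 * R)⁻¹ • (x - y)) = y := by
        rw [smul_neg, smul_smul, show R * (2 * R)⁻¹ = 1 / 2 by field_simp]
        module
      simp only [e1, e2, n1] at this
      refine this.trans_eq ?_
      field_simp
      ring
    · rw [mem_closedBall, dist_eq_norm, add_sub_right_comm]
      refine (norm_add_le _ _).trans ?_
      rw [norm_smul, Real.norm_of_nonneg hR.le, ← dist_eq_norm]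
      nlinarith [mem_closedBall.1 hm, mem_closedBall_zero_iff.1 hz]
    · rw [n1, inv_mul_le_iff₀ (by positivity), ← dist_eq_norm]
      linarith [dist_triangle_right x y c, mem_closedBall.1 hx, mem_closedBall.1 hy]
  exact abs_sub_le_iff.2 ⟨key x hx y hy, by rw [norm_sub_rev]; exact key y hy x hx⟩

theorem grad_le (H : Harm h G) (hM : 0 < M) {c : E} {R : ℝ} (hR : 0 < R)
    (hb : ∀ x ∈ closedBall c (2 * R), |h x| ≤ M) {x : E} (hx : x ∈ ball c R) :
    ‖G x‖ ≤ 4 * M / R := by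
  rw [← innerSL_apply_norm ℝ]
  refine (H x).hasFDerivAt.le_of_lip' (by positivity) ?_
  filter_upwards [isOpen_ball.mem_nhds hx] with y hy
  exact H.lip hM hR hb (ball_subset_closedBall hy) (ball_subset_closedBall hx)

theorem grad_lip (H : Harm h G) (hM : 0 < M) {R : ℝ} (hR : 0 < R)
    (hb : ∀ x ∈ closedBall (0 : E) (4 * R), |h x| ≤ M) {x y : E} (hx : ‖x‖ ≤ R) (hy : ‖y‖ ≤ R) :
    ‖G x - G y‖ ≤ 16 * M / R ^ 2 * ‖x - y‖ := by
  rcases eq_or_ne x y with rfl | ne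
  · simp
  have n0 : 0 < ‖x - y‖ := norm_pos_iff.2 (sub_ne_zero.2 ne)
  have := grad_le (h := fun z => h (x - y + z) - h z) (G := fun z => G (x - y + z) - G z)
    (fun z => ((Jet.shift _ (H _)).sub (H z)).congr rfl (sub_zero _))
    (M := 4 * M / (2 * R) * ‖x - y‖) (by positivity) (c := y) (half_pos hR) (fun z hz => ?_)
    (mem_ball_self (half_pos hR))
  · rw [sub_add_cancel] at this
    refine this.trans_eq ?_
    field_simp
    ring
  · have a1 : ‖z - y‖ ≤ R := by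
      rw [← dist_eq_norm]; linarith [mem_closedBall.1 hz]
    have := H.lip hM (c := 0) (R := 2 * R) (by positivity) (by rwa [← mul_assoc, two_mul 2, two_add_two_eq_four])
      (x := x - y + z) (y := z) (mem_closedBall_zero_iff.2 (by
        rw [show x - y + z = x + (z - y) by abel]
        linarith [norm_add_le x (z - y)]))
      (mem_closedBall_zero_iff.2 (by linarith [norm_le_norm_sub_add z y]))
    rwa [add_sub_cancel_right] at this

theorem taylor (H : Harm h G) (hM : 0 < M) {R : ℝ} (hR : 0 < R)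
    (hb : ∀ x ∈ closedBall (0 : E) (4 * R), |h x| ≤ M) {x : E} (hx : ‖x‖ ≤ R) :
    |h x - h 0 - ⟪x, G 0⟫| ≤ 16 * M / R ^ 2 * ‖x‖ ^ 2 := by
  have := (convex_closedBall (0 : E) ‖x‖).norm_image_sub_le_of_norm_hasFDerivWithin_le'
    (f := h) (f' := fun y => innerSL ℝ (G y)) (φ := innerSL ℝ (G 0))
    (C := 16 * M / R ^ 2 * ‖x‖) (fun y _ => (H y).hasFDerivAt.hasFDerivWithinAt)
    (fun y hy => ?_) (mem_closedBall_self (norm_nonneg x)) (mem_closedBall_zero_iff.2 le_rfl)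
  · rw [sub_zero, innerSL_apply_apply, real_inner_comm, Real.norm_eq_abs] at this
    exact this.trans_eq (by ring)
  · have a1 := mem_closedBall_zero_iff.1 hy
    rw [← map_sub, innerSL_apply_norm]
    refine (H.grad_lip hM hR hb (a1.trans hx) (by simpa using hR.le)).trans ?_
    rw [sub_zero]
    exact mul_le_mul_of_nonneg_left a1 (by positivity)

end Harm

end Pool.Agent.Lib.MP_155f9b_an
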